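import Pool.Agent.CPZ.K2

set_option autoImplicit false

open Set Filter Topology

namespace Pool.Agent.CPZ

/-- scaling by a constant -/
def sm (c : ℝ) (f : X) : X := ⟨fun q => c * f.1 q, continuous_const.mul f.2⟩

lemma sm_val (c : ℝ) (f : X) (q : StoneCech ℕ) : (sm c f).1 q = c * f.1 q := rfl

lemma sm_sm {c d : ℝ} (h : c * d = 1) (f : X) : sm c (sm d f) = f := by
  apply Subtype.ext
  funext q
  rw [sm_val, sm_val, ← mul_assoc, h, one_mul]

lemma sm_zero (c : ℝ) : sm c 0 = 0 := by
  apply Subtype.ext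
  funext q
  simp [sm_val, zero_val]

lemma continuous_sm (c : ℝ) : Continuous (sm c) :=
  continuous_X fun q => continuous_const.mul (continuous_ev q)

def smE (c : ℝ) (p : E) : E := (sm c p.1, fun j => sm c (p.2 j))

lemma continuous_smE (c : ℝ) : Continuous (smE c) :=
  ((continuous_sm c).comp continuous_fst).prodMk
    (continuous_pi fun j => (continuous_sm c).comp ((continuous_apply j).comp continuous_snd))

lemma smE_smE {c d : ℝ} (h : c * d = 1) (p : E) : smE c (smE d p) = p := by
  apply Prod.ext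
  · exact sm_sm h _
  · funext j
    exact sm_sm h _

/-- inverse scale of the block -/
noncomputable def iv (m : ℕ) : ℝ := ((m : ℝ) + 1)⁻¹

lemma iv_mul (m : ℕ) : iv m * ((m : ℝ) + 1) = 1 := by
  unfold iv
  exact inv_mul_cancel₀ (by positivity)

lemma mul_iv (m : ℕ) : ((m : ℝ) + 1) * iv m = 1 := by
  rw [mul_comm]; exact iv_mul m

lemma iv_pos (m : ℕ) : 0 < iv m := by unfold iv; positivity

/-- scaled copy of K on the block m -/
noncomputable def Km (m : ℕ) : E ≃ₜ E × X where
  toFun p := (smE (m + 1) (K (smE (iv m) p)).1, sm (m + 1) (K (smE (iv m) p)).2)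
  invFun p := smE (m + 1) (K.symm (smE (iv m) p.1, sm (iv m) p.2))
  left_inv p := by
    simp only [smE_smE (iv_mul m), sm_sm (iv_mul m)]
    rw [Homeomorph.symm_apply_apply, smE_smE (mul_iv m)]
  right_inv p := by
    simp only [smE_smE (iv_mul m), Homeomorph.apply_symm_apply, smE_smE (mul_iv m),
      sm_sm (mul_iv m)]
  continuous_toFun := by
    have h : Continuous fun p => K (smE (iv m) p) := K.continuous.comp (continuous_smE _)
    exact ((continuous_smE _).comp (continuous_fst.comp h)).prodMk
      ((continuous_sm _).comp (continuous_snd.comp h))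
  continuous_invFun := (continuous_smE _).comp (K.symm.continuous.comp
    (((continuous_smE _).comp continuous_fst).prodMk ((continuous_sm _).comp continuous_snd)))

lemma small_of_bound {f : X} {C : ℝ} {m : ℕ} (h : ∀ q, |f.1 q| ≤ C) (hm : C ≤ m) (q : StoneCech ℕ) :
    |(sm (iv m) f).1 q| ≤ 1 := by
  rw [sm_val, abs_mul, abs_of_pos (iv_pos m)]
  have h1 : |f.1 q| ≤ (m : ℝ) + 1 := (h q).trans (hm.trans (by linarith))
  calc iv m * |f.1 q| ≤ iv m * ((m : ℝ) + 1) := mul_le_mul_of_nonneg_left h1 (iv_pos m).le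
    _ = 1 := iv_mul m

lemma Km_far {p : E} {C : ℝ} {m : ℕ} (h : ∀ q, |p.1.1 q| ≤ C) (hm : C ≤ m) : Km m p = (p, 0) := by
  show (smE (m + 1) (K (smE (iv m) p)).1, sm (m + 1) (K (smE (iv m) p)).2) = _
  rw [K_ball (smE (iv m) p) (small_of_bound h hm)]
  simp only [smE_smE (mul_iv m), sm_zero]

lemma Km_symm_far {p : E} {C : ℝ} {m : ℕ} (h : ∀ q, |p.1.1 q| ≤ C) (hm : C ≤ m) :
    (Km m).symm (p, 0) = p := by
  rw [← Km_far h hm, Homeomorph.symm_apply_apply]

lemma Km_finite (m : ℕ) (p : E) : {l | (Km m p).1.2 l ≠ p.2 l}.Finite := by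
  refine (K_finite (smE (iv m) p)).subset ?_
  intro l hl h2
  apply hl
  show sm (m + 1) ((K (smE (iv m) p)).1.2 l) = _
  rw [h2]
  exact sm_sm (mul_iv m) _

lemma Km_symm_finite (m : ℕ) (p : E × X) : {l | ((Km m).symm p).2 l ≠ p.1.2 l}.Finite := by
  refine (K_symm_finite (smE (iv m) p.1, sm (iv m) p.2)).subset ?_
  intro l hl h2
  apply hl
  show sm (m + 1) ((K.symm (smE (iv m) p.1, sm (iv m) p.2)).2 l) = _
  rw [h2]
  exact sm_sm (mul_iv m) _

/-- blocks -/
def blk (x : ℕ × ℕ → X) (m : ℕ) : E := (x (m, 0), fun j => x (m, j + 1))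

def unblk (y : ℕ → E) : ℕ × ℕ → X
  | (m, 0) => (y m).1
  | (m, j + 1) => (y m).2 j

lemma unblk_blk (x : ℕ × ℕ → X) : unblk (blk x) = x := by
  funext i
  rcases i with ⟨m, _ | j⟩ <;> rfl

lemma blk_unblk (y : ℕ → E) : blk (unblk y) = y := rfl

lemma continuous_blk : Continuous blk :=
  continuous_pi fun m => (continuous_apply (m, 0)).prodMk
    (continuous_pi fun j => continuous_apply (m, j + 1))

lemma continuous_unblk : Continuous unblk := by
  refine continuous_pi fun i => ?_
  rcases i with ⟨m, _ | j⟩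
  · exact continuous_fst.comp (continuous_apply m)
  · exact (continuous_apply j).comp (continuous_snd.comp (continuous_apply m))

/-- the block homeomorphism -/
noncomputable def Phi : (ℕ × ℕ → X) ≃ₜ (ℕ × ℕ → X) × (ℕ → X) where
  toFun x := (unblk fun m => (Km m (blk x m)).1, fun m => (Km m (blk x m)).2)
  invFun p := unblk fun m => (Km m).symm (blk p.1 m, p.2 m)
  left_inv x := by
    simp only [blk_unblk]
    have : (fun m => (Km m).symm ((Km m (blk x m)).1, (Km m (blk x m)).2)) = blk x := by
      funext m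
      exact (Km m).symm_apply_apply _
    rw [this, unblk_blk]
  right_inv p := by
    simp only [blk_unblk, Homeomorph.apply_symm_apply]
    rw [show (fun m => blk p.1 m) = blk p.1 from rfl, unblk_blk]
  continuous_toFun := by
    have h : ∀ m, Continuous fun x : ℕ × ℕ → X => Km m (blk x m) := fun m =>
      (Km m).continuous.comp ((continuous_apply m).comp continuous_blk)
    exact (continuous_unblk.comp (continuous_pi fun m => continuous_fst.comp (h m))).prodMk
      (continuous_pi fun m => continuous_snd.comp (h m))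
  continuous_invFun := by
    refine continuous_unblk.comp (continuous_pi fun m => (Km m).symm.continuous.comp ?_)
    exact ((continuous_apply m).comp (continuous_blk.comp continuous_fst)).prodMk
      ((continuous_apply m).comp continuous_snd)

lemma finite_blocks {x y : ℕ × ℕ → X} {M : ℕ} (h1 : ∀ m ≥ M, ∀ j, y (m, j) = x (m, j))
    (h2 : ∀ m, {j | y (m, j) ≠ x (m, j)}.Finite) : {i | y i ≠ x i}.Finite := by
  have h3 : (⋃ m ∈ {m | m < M}, (fun j => (m, j)) '' {j | y (m, j) ≠ x (m, j)}).Finite :=
    (Set.finite_lt_nat M).biUnion fun m _ => (h2 m).image _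
  refine h3.subset ?_
  rintro ⟨m, j⟩ h
  have hm : m < M := by
    by_contra h4
    exact h (h1 m (not_lt.1 h4) j)
  simp only [mem_iUnion]
  exact ⟨m, hm, j, h, rfl⟩

lemma finite_nat_succ {P : ℕ → Prop} (h : {j | P (j + 1)}.Finite) : {j | P j}.Finite := by
  refine ((h.image (fun j => j + 1)).union (Set.finite_singleton 0)).subset ?_
  intro j hj
  rcases j with _ | j
  · exact Or.inr rfl
  · exact Or.inl ⟨j, hj, rfl⟩

theorem block_trick : Nonempty (X ≃ₜ X × W) := by
  have e : (ℕ × ℕ) × ℕ ≃ ℕ := (Nat.pairEquiv.prodCongr (Equiv.refl ℕ)).trans Nat.pairEquiv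
  refine glueHomeo e Phi {r : ℕ → X | ∃ M, ∀ m ≥ M, r m = 0} ?_ ?_
  · rintro x ⟨C, hC⟩
    obtain ⟨M, hM⟩ := exists_nat_ge C
    have hfar : ∀ m ≥ M, Km m (blk x m) = (blk x m, 0) := by
      intro m hm
      exact Km_far (C := C) (fun q => hC _ _) (hM.trans (by exact_mod_cast hm))
    refine ⟨⟨M, fun m hm => ?_⟩, ?_⟩
    · show (Km m (blk x m)).2 = 0
      rw [hfar m hm]
    · refine finite_blocks (M := M) ?_ ?_
      · intro m hm j
        have h1 : (Phi x).1 = unblk fun m => (Km m (blk x m)).1 := rfl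
        rw [h1]
        rcases j with _ | j
        · show (Km m (blk x m)).1.1 = _
          rw [hfar m hm]
          rfl
        · show (Km m (blk x m)).1.2 j = _
          rw [hfar m hm]
          rfl
      · intro m
        exact finite_nat_succ (P := fun j => (Phi x).1 (m, j) ≠ x (m, j)) (Km_finite m (blk x m))
  · rintro x r ⟨C, hC⟩ ⟨N, hN⟩
    obtain ⟨M, hM⟩ := exists_nat_ge C
    have hfar : ∀ m ≥ max M N, (Km m).symm (blk x m, r m) = blk x m := by
      intro m hm
      rw [hN m (le_trans (le_max_right _ _) hm)]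
      refine Km_symm_far (C := C) (fun q => hC _ _) (hM.trans ?_)
      exact_mod_cast le_trans (le_max_left _ _) hm
    refine finite_blocks (M := max M N) ?_ ?_
    · intro m hm j
      have h1 : Phi.symm (x, r) = unblk fun m => (Km m).symm (blk x m, r m) := rfl
      rw [h1]
      rcases j with _ | j
      · show ((Km m).symm (blk x m, r m)).1 = _
        rw [hfar m hm]
        rfl
      · show ((Km m).symm (blk x m, r m)).2 j = _
        rw [hfar m hm]
        rfl
    · intro m
      exact finite_nat_succ (P := fun j => Phi.symm (x, r) (m, j) ≠ x (m, j))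
        (Km_symm_finite m (blk x m, r m))

end Pool.Agent.CPZ
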