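import Pool.Agent.CPZ.M

/-!
# The weak product absorbs the countable power of the line (MP_57c611_gt)

`W` is the weak product of copies of `X` (finitely supported sequences, product topology). We
prove that `X × W` and `(ℕ → ℝ) × W` are homeomorphic, by a swindle with codes: a real number `t`
is written as an element of `X` of finite support, and there is a continuous decoder on all of `X`.
-/

set_option autoImplicit false

open Set Filter Topology

namespace Pool.Agent.CPZ

namespace B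

/-! ### Operations -/

/-- sum -/
def add (f g : X) : X := ⟨fun q => f.1 q + g.1 q, f.2.add g.2⟩

/-- difference -/
def sub (f g : X) : X := ⟨fun q => f.1 q - g.1 q, f.2.sub g.2⟩

/-- multiple -/
def smul (c : ℝ) (f : X) : X := ⟨fun q => c * f.1 q, continuous_const.mul f.2⟩

/-- truncation -/
def clamp (a : ℝ) (f : X) : X :=
  ⟨fun q => max (-a) (min a (f.1 q)), continuous_const.max (continuous_const.min f.2)⟩

lemma ext_val {f g : X} (h : ∀ q, f.1 q = g.1 q) : f = g := Subtype.ext (funext h)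

lemma continuous_add {Z : Type*} [TopologicalSpace Z] {F G : Z → X} (hF : Continuous F)
    (hG : Continuous G) : Continuous fun z => add (F z) (G z) :=
  continuous_X fun q => ((continuous_ev q).comp hF).add ((continuous_ev q).comp hG)

lemma continuous_sub {Z : Type*} [TopologicalSpace Z] {F G : Z → X} (hF : Continuous F)
    (hG : Continuous G) : Continuous fun z => sub (F z) (G z) :=
  continuous_X fun q => ((continuous_ev q).comp hF).sub ((continuous_ev q).comp hG)

lemma continuous_smul {Z : Type*} [TopologicalSpace Z] (c : ℝ) {F : Z → X} (hF : Continuous F) :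
    Continuous fun z => smul c (F z) :=
  continuous_X fun q => continuous_const.mul ((continuous_ev q).comp hF)

lemma continuous_clamp {Z : Type*} [TopologicalSpace Z] (a : ℝ) {F : Z → X} (hF : Continuous F) :
    Continuous fun z => clamp a (F z) :=
  continuous_X fun q => continuous_const.max (continuous_const.min ((continuous_ev q).comp hF))

lemma clamp_eq {a : ℝ} {f : X} (h : ∀ q, |f.1 q| ≤ a) : clamp a f = f := by
  refine ext_val fun q => ?_
  obtain ⟨h1, h2⟩ := abs_le.1 (h q)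
  show max (-a) (min a (f.1 q)) = f.1 q
  rw [min_eq_right h2, max_eq_right h1]

/-- uniform limits of continuous maps are continuous -/
lemma continuous_of_approx {Z : Type*} [TopologicalSpace Z] {F : Z → X}
    (h : ∀ ε : ℝ, 0 < ε → ∃ G : Z → X, Continuous G ∧
      ∀ z n, |(F z).1 (un n) - (G z).1 (un n)| ≤ ε) : Continuous F := by
  refine continuous_X fun q => ?_
  refine continuous_of_uniform_approx_of_continuous fun u hu => ?_
  obtain ⟨ε, hε, hεu⟩ := Metric.mem_uniformity_dist.1 hu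
  obtain ⟨G, hG, hFG⟩ := h (ε / 2) (half_pos hε)
  refine ⟨fun z => (G z).1 q, (continuous_ev q).comp hG, fun z => hεu ?_⟩
  rw [Real.dist_eq]
  have := bound_of_dense (f := sub (F z) (G z)) (C := ε / 2) (hFG z) q
  exact lt_of_le_of_lt this (half_lt_self hε)

/-! ### The decoder of one number -/

lemma exists_qi : ∃ q : StoneCech ℕ, ∀ n, q ≠ un n := by
  have hb : ∃ C, ∀ n : ℕ, |1 / ((n : ℝ) + 1)| ≤ C := ⟨1, fun n => by
    have h0 : (0 : ℝ) ≤ n := Nat.cast_nonneg n
    rw [abs_of_nonneg (by positivity), div_le_one (by positivity)]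
    linarith⟩
  set h : X := mk fun n : ℕ => 1 / ((n : ℝ) + 1) with hh
  have h1 : IsClosed (range h.1) := (isCompact_range h.2).isClosed
  have h2 : (0 : ℝ) ∈ closure (range h.1) := by
    refine mem_closure_of_tendsto (tendsto_one_div_add_atTop_nhds_zero_nat (𝕜 := ℝ)) ?_
    exact Eventually.of_forall fun n => ⟨un n, by rw [hh, mk_un hb]⟩
  rw [h1.closure_eq] at h2
  obtain ⟨q, hq⟩ := h2
  refine ⟨q, fun n hn => ?_⟩
  rw [hn, hh, mk_un hb] at hq
  have h0 : (0 : ℝ) ≤ n := Nat.cast_nonneg n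
  have : (0 : ℝ) < 1 / ((n : ℝ) + 1) := by positivity
  linarith

/-- a point which is not an integer -/
noncomputable def qi : StoneCech ℕ := exists_qi.choose

lemma qi_ne (n : ℕ) : qi ≠ un n := exists_qi.choose_spec n

/-- at `qi` the functions of finite support vanish -/
lemma qi_of_finite {f : X} {N : ℕ} (h : ∀ n, N ≤ n → f.1 (un n) = 0) : f.1 qi = 0 := by
  by_contra hne
  have hF : IsClosed (un '' {n | n < N}) := ((finite_lt_nat N).image un).isClosed
  have hO : IsOpen ({q | f.1 q ≠ 0} ∩ (un '' {n | n < N})ᶜ) :=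
    (isOpen_ne_fun f.2 continuous_const).inter hF.isOpen_compl
  have hq : qi ∈ ({q | f.1 q ≠ 0} ∩ (un '' {n | n < N})ᶜ) := by
    refine ⟨hne, ?_⟩
    rintro ⟨n, -, hn⟩
    exact qi_ne n hn.symm
  obtain ⟨n, hn1, hn2⟩ := dense_un.exists_mem_open hO ⟨qi, hq⟩
  refine hn1 (h n ?_)
  by_contra hcon
  exact hn2 ⟨n, not_le.1 hcon, rfl⟩

/-- cut to `[0, 1]` -/
noncomputable def ct (v : ℝ) : ℝ := max 0 (min 1 v)

lemma continuous_ct : Continuous ct := continuous_const.max (continuous_const.min continuous_id)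

lemma ct_nonneg (v : ℝ) : 0 ≤ ct v := le_max_left _ _

lemma ct_le_one (v : ℝ) : ct v ≤ 1 := max_le zero_le_one (min_le_left _ _)

lemma ct_of_nonpos {v : ℝ} (h : v ≤ 0) : ct v = 0 :=
  max_eq_left ((min_le_right _ _).trans h)

lemma ct_of_one_le {v : ℝ} (h : 1 ≤ v) : ct v = 1 := by
  rw [ct, min_eq_left h, max_eq_right zero_le_one]

lemma ct_of_mem {v : ℝ} (h0 : 0 ≤ v) (h1 : v ≤ 1) : ct v = v := by
  rw [ct, min_eq_right h1, max_eq_right h0]

lemma ct_lip (a b : ℝ) : |ct a - ct b| ≤ |a - b| := by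
  unfold ct
  refine (abs_max_sub_max_le_max _ _ _ _).trans ?_
  rw [sub_self, abs_zero]
  refine max_le (abs_nonneg _) ((abs_min_sub_min_le_max _ _ _ _).trans ?_)
  rw [sub_self, abs_zero]
  exact max_le (abs_nonneg _) le_rfl

/-- one term of the decoder -/
noncomputable def term (i : ℕ) (f : X) : ℝ :=
  ∏ k ∈ Finset.range (i + 1), ct (2 * (f.1 (un k) - 2 * |f.1 qi|) - 1)

lemma continuous_term (i : ℕ) : Continuous (term i) := by
  refine continuous_finsetProd _ fun k _ => continuous_ct.comp ?_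
  exact (continuous_const.mul ((continuous_ev _).sub
    (continuous_const.mul (continuous_ev _).abs))).sub continuous_const

lemma locallyFinite_term : LocallyFinite fun i => Function.support (term i) := by
  intro f
  have ho : IsOpen {q | f.1 q < f.1 qi + 1 / 4} := isOpen_lt f.2 continuous_const
  obtain ⟨k, hk⟩ := dense_un.exists_mem_open ho ⟨qi, by
    show f.1 qi < f.1 qi + 1 / 4
    linarith⟩
  refine ⟨{g : X | g.1 (un k) - 2 * |g.1 qi| < 1 / 2}, ?_, (finite_lt_nat k).subset ?_⟩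
  · refine IsOpen.mem_nhds (isOpen_lt ((continuous_ev _).sub
      (continuous_const.mul (continuous_ev _).abs)) continuous_const) ?_
    show f.1 (un k) - 2 * |f.1 qi| < 1 / 2
    have h1 := le_abs_self (f.1 qi)
    have h2 := abs_nonneg (f.1 qi)
    have h3 : f.1 (un k) < f.1 qi + 1 / 4 := hk
    linarith
  · rintro i ⟨g, hg1, hg2⟩
    by_contra hcon
    have hki : k ≤ i := not_lt.1 hcon
    apply hg1
    refine Finset.prod_eq_zero (Finset.mem_range.2 (Nat.lt_succ_of_le hki)) (ct_of_nonpos ?_)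
    have : g.1 (un k) - 2 * |g.1 qi| < 1 / 2 := hg2
    linarith

/-- the decoder -/
noncomputable def dec (f : X) : ℝ := ∑ᶠ i, term i f

lemma continuous_dec : Continuous dec := continuous_finsum continuous_term locallyFinite_term

/-- the code of a number `t ≥ 0` -/
noncomputable def code (t : ℝ) : X := mk fun i => ct ((t - i + 1) / 2)

lemma code_un (t : ℝ) (i : ℕ) : (code t).1 (un i) = ct ((t - i + 1) / 2) :=
  mk_un ⟨1, fun n => by rw [abs_of_nonneg (ct_nonneg _)]; exact ct_le_one _⟩ i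

lemma code_qi (t : ℝ) : (code t).1 qi = 0 := by
  obtain ⟨N, hN⟩ := exists_nat_ge (t + 1)
  refine qi_of_finite (N := N) fun n hn => ?_
  rw [code_un, ct_of_nonpos]
  have : (N : ℝ) ≤ n := by exact_mod_cast hn
  linarith

lemma ct_half (v : ℝ) : ct (2 * ct ((v + 1) / 2) - 1) = ct v := by
  rcases le_total v 0 with h | h
  · rw [ct_of_nonpos h]
    refine ct_of_nonpos ?_
    rcases le_total ((v + 1) / 2) 0 with h2 | h2
    · rw [ct_of_nonpos h2]; norm_num
    · rw [ct_of_mem h2 (by linarith)]; linarith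
  · rcases le_total v 1 with h2 | h2
    · rw [ct_of_mem (by linarith) (by linarith : (v + 1) / 2 ≤ 1)]
      congr 1
      ring
    · rw [ct_of_one_le (by linarith : 1 ≤ (v + 1) / 2), ct_of_one_le h2]
      norm_num [ct]

lemma prod_ct (t : ℝ) (n : ℕ) : ∏ k ∈ Finset.range (n + 1), ct (t - k) = ct (t - n) := by
  induction n with
  | zero => simp
  | succ n ih =>
    rw [Finset.prod_range_succ, ih]
    rcases le_total (t - ((n + 1 : ℕ) : ℝ)) 0 with h | h
    · rw [ct_of_nonpos h, mul_zero]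
    · rw [ct_of_one_le (v := t - n), one_mul]
      push_cast at h
      linarith

lemma term_code (t : ℝ) (i : ℕ) : term i (code t) = ct (t - i) := by
  rw [← prod_ct]
  refine Finset.prod_congr rfl fun k _ => ?_
  rw [code_un, code_qi, abs_zero, mul_zero, sub_zero]
  exact ct_half (t - k)

lemma sum_ct {t : ℝ} (ht : 0 ≤ t) (N : ℕ) : ∑ i ∈ Finset.range N, ct (t - i) = min t N := by
  induction N with
  | zero => simp [ht]
  | succ N ih =>
    rw [Finset.sum_range_succ, ih]
    push_cast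
    rcases le_total t N with h | h
    · rw [min_eq_left h, ct_of_nonpos (by linarith), add_zero, min_eq_left (by linarith)]
    · rw [min_eq_right h]
      rcases le_total t (N + 1) with h2 | h2
      · rw [min_eq_left h2, ct_of_mem (by linarith) (by linarith)]; ring
      · rw [min_eq_right h2, ct_of_one_le (by linarith)]

lemma dec_code {t : ℝ} (ht : 0 ≤ t) : dec (code t) = t := by
  obtain ⟨N, hN⟩ := exists_nat_ge t
  unfold dec
  simp_rw [term_code]
  rw [finsum_eq_sum_of_support_subset (s := Finset.range N), sum_ct ht, min_eq_left hN]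
  intro i hi
  rw [Finset.coe_range, mem_Iio]
  by_contra hcon
  apply hi
  show ct (t - i) = 0
  refine ct_of_nonpos ?_
  have : (N : ℝ) ≤ i := by exact_mod_cast not_lt.1 hcon
  linarith

/-! ### Codes of sequences -/

/-- the columns -/
noncomputable def e : (ℕ × Bool) × ℕ ≃ ℕ := Classical.choice (nonempty_equiv_of_countable)

/-- positive and negative part -/
noncomputable def sg : Bool → ℝ → ℝ
  | true, t => max t 0
  | false, t => max (-t) 0

lemma sg_nonneg (s : Bool) (t : ℝ) : 0 ≤ sg s t := by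
  cases s <;> exact le_max_right _ _

lemma sg_sub (t : ℝ) : sg true t - sg false t = t := by
  show max t 0 - max (-t) 0 = t
  rcases le_total t 0 with h | h
  · rw [max_eq_right h, max_eq_left (by linarith)]; ring
  · rw [max_eq_left h, max_eq_right (by linarith)]; ring

lemma sg_lip (s : Bool) (a b : ℝ) : |sg s a - sg s b| ≤ |a - b| := by
  cases s
  · refine (abs_max_sub_max_le_abs _ _ _).trans (le_of_eq ?_)
    rw [← abs_neg]; congr 1; ring
  · exact abs_max_sub_max_le_abs _ _ _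

/-- the code of `t` in column `(j, s)` -/
noncomputable def blk (j : ℕ) (s : Bool) (t : ℝ) : X := smul ((1 / 3 : ℝ) ^ j) (code (sg s t))

lemma blk_un (j : ℕ) (s : Bool) (t : ℝ) (i : ℕ) :
    (blk j s t).1 (un i) = (1 / 3 : ℝ) ^ j * ct ((sg s t - i + 1) / 2) := by
  show (1 / 3 : ℝ) ^ j * (code (sg s t)).1 (un i) = _
  rw [code_un]

lemma blk_bound (j : ℕ) (s : Bool) (t : ℝ) (q : StoneCech ℕ) :
    |(blk j s t).1 q| ≤ (1 / 3 : ℝ) ^ j := by
  refine bound_of_dense (fun n => ?_) q
  rw [blk_un, abs_mul, abs_of_nonneg (by positivity : (0 : ℝ) ≤ (1 / 3 : ℝ) ^ j),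
    abs_of_nonneg (ct_nonneg _)]
  exact mul_le_of_le_one_right (by positivity) (ct_le_one _)

lemma blk_lip (j : ℕ) (s : Bool) (a b : ℝ) (i : ℕ) :
    |(blk j s a).1 (un i) - (blk j s b).1 (un i)| ≤ |a - b| := by
  rw [blk_un, blk_un, ← mul_sub, abs_mul, abs_of_nonneg (by positivity : (0 : ℝ) ≤ (1 / 3 : ℝ) ^ j)]
  have h1 : |ct ((sg s a - i + 1) / 2) - ct ((sg s b - i + 1) / 2)| ≤ |a - b| := by
    refine (ct_lip _ _).trans ?_
    have : (sg s a - i + 1) / 2 - (sg s b - i + 1) / 2 = (sg s a - sg s b) / 2 := by ring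
    rw [this, abs_div, abs_two]
    have h2 := sg_lip s a b
    have h3 := abs_nonneg (sg s a - sg s b)
    linarith
  have h2 : (1 / 3 : ℝ) ^ j ≤ 1 := pow_le_one₀ (by norm_num) (by norm_num)
  calc (1 / 3 : ℝ) ^ j * |ct ((sg s a - i + 1) / 2) - ct ((sg s b - i + 1) / 2)|
      ≤ 1 * |a - b| := mul_le_mul h2 h1 (abs_nonneg _) zero_le_one
    _ = |a - b| := one_mul _

lemma continuous_blk (j : ℕ) (s : Bool) : Continuous (blk j s) := by
  refine continuous_X fun q => continuous_iff_continuousAt.2 fun a => ?_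
  refine Metric.tendsto_nhds.2 fun ε hε => ?_
  filter_upwards [Metric.ball_mem_nhds a hε] with b hb
  rw [Real.dist_eq]
  refine lt_of_le_of_lt (bound_of_dense (f := sub (blk j s b) (blk j s a)) (fun n =>
    blk_lip j s b a n) q) ?_
  rwa [Metric.mem_ball, Real.dist_eq] at hb

/-- values of glued elements -/
lemma glue_un {x : ℕ × Bool → X} (hx : Bdd x) (n : ℕ) :
    (glue e x).1 (un n) = (x (e.symm n).1).1 (un (e.symm n).2) := by
  obtain ⟨C, hC⟩ := hx
  exact mk_un ⟨C, fun n => hC _ _⟩ n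

lemma glue_bound {x : ℕ × Bool → X} {C : ℝ} (hx : ∀ i q, |(x i).1 q| ≤ C) (q : StoneCech ℕ) :
    |(glue e x).1 q| ≤ C := by
  refine bound_of_dense (fun n => ?_) q
  rw [glue_un ⟨C, hx⟩]
  exact hx _ _

lemma zero_bound {C : ℝ} (hC : 0 ≤ C) (q : StoneCech ℕ) : |(0 : X).1 q| ≤ C := by
  rw [zero_val, abs_zero]; exact hC

open Classical in
/-- the columns of the code of the numbers `t j`, `j ∈ A` -/
noncomputable def fam (A : Set ℕ) (t : ℕ → ℝ) (p : ℕ × Bool) : X :=
  if p.1 ∈ A then blk p.1 p.2 (t p.1) else 0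

lemma fam_pos {A : Set ℕ} (t : ℕ → ℝ) {j : ℕ} (s : Bool) (h : j ∈ A) :
    fam A t (j, s) = blk j s (t j) := if_pos h

lemma fam_neg {A : Set ℕ} (t : ℕ → ℝ) {j : ℕ} (s : Bool) (h : j ∉ A) :
    fam A t (j, s) = 0 := if_neg h

lemma fam_bound {A : Set ℕ} {m : ℕ} (hA : ∀ j ∈ A, m ≤ j) (t : ℕ → ℝ) (p : ℕ × Bool)
    (q : StoneCech ℕ) : |(fam A t p).1 q| ≤ (1 / 3 : ℝ) ^ m := by
  obtain ⟨j, s⟩ := p
  by_cases h : j ∈ A
  · rw [fam_pos t s h]
    refine (blk_bound _ _ _ _).trans ?_
    exact pow_le_pow_of_le_one (by norm_num) (by norm_num) (hA _ h)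
  · rw [fam_neg t s h]
    exact zero_bound (by positivity) _

lemma fam_bdd (A : Set ℕ) (t : ℕ → ℝ) : Bdd (fam A t) :=
  ⟨(1 / 3 : ℝ) ^ 0, fun p q => fam_bound (fun _ _ => Nat.zero_le _) t p q⟩

/-- the code of the numbers `t j`, `j ∈ A` -/
noncomputable def SA (A : Set ℕ) (t : ℕ → ℝ) : X := glue e (fam A t)

lemma SA_bound {A : Set ℕ} {m : ℕ} (hA : ∀ j ∈ A, m ≤ j) (t : ℕ → ℝ) (q : StoneCech ℕ) :
    |(SA A t).1 q| ≤ (1 / 3 : ℝ) ^ m :=
  glue_bound (fun p q => fam_bound hA t p q) q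

lemma col_SA (A : Set ℕ) (t : ℕ → ℝ) (p : ℕ × Bool) : col e p (SA A t) = fam A t p :=
  col_glue e (fam_bdd A t) p

lemma continuous_SA (A : Set ℕ) : Continuous (SA A) := by
  -- finite sets
  have hfin : ∀ B : Set ℕ, B.Finite → Continuous (SA B) := by
    intro B hB
    refine continuous_of_col e (G := fun _ => 0) continuous_const (fun p => ?_) fun t => ?_
    · obtain ⟨j, s⟩ := p
      simp_rw [col_SA]
      by_cases h : j ∈ B
      · simp_rw [fam_pos _ s h]
        exact (continuous_blk j s).comp (continuous_apply j)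
      · simp_rw [fam_neg _ s h]
        exact continuous_const
    · refine (hB.prod (finite_univ (α := Bool))).subset ?_
      rintro ⟨j, s⟩ hp
      refine ⟨?_, mem_univ _⟩
      by_contra hj
      apply hp
      rw [col_SA, fam_neg _ s hj]
      exact ext_val fun q => rfl
  refine continuous_of_approx fun ε hε => ?_
  obtain ⟨J, hJ⟩ := exists_pow_lt_of_lt_one hε (by norm_num : (1 / 3 : ℝ) < 1)
  refine ⟨SA (A ∩ {j | j < J}), hfin _ ((finite_lt_nat J).inter_of_right _), fun t n => ?_⟩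
  have g1 : (SA A t).1 (un n) = (fam A t (e.symm n).1).1 (un (e.symm n).2) := glue_un (fam_bdd _ _) n
  have g2 : (SA (A ∩ {j | j < J}) t).1 (un n) =
    (fam (A ∩ {j | j < J}) t (e.symm n).1).1 (un (e.symm n).2) := glue_un (fam_bdd _ _) n
  rw [g1, g2]
  obtain ⟨j, s⟩ := (e.symm n).1
  by_cases h1 : j ∈ A
  · by_cases h2 : j < J
    · rw [fam_pos _ s h1, fam_pos _ s (A := A ∩ {j | j < J}) ⟨h1, h2⟩, sub_self, abs_zero]
      exact hε.le
    · rw [fam_pos _ s h1, fam_neg _ s (A := A ∩ {j | j < J}) (fun h => h2 h.2), zero_val, sub_zero]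
      refine (blk_bound _ _ _ _).trans ?_
      refine (pow_le_pow_of_le_one (by norm_num) (by norm_num) (not_lt.1 h2)).trans hJ.le
  · rw [fam_neg _ s h1, fam_neg _ s (A := A ∩ {j | j < J}) (fun h => h1 h.1), sub_self, abs_zero]
    exact hε.le

lemma SA_congr {A : Set ℕ} {t t' : ℕ → ℝ} (h : ∀ j ∈ A, t j = t' j) : SA A t = SA A t' := by
  refine col_ext e fun p => ?_
  obtain ⟨j, s⟩ := p
  rw [col_SA, col_SA]
  by_cases hj : j ∈ A
  · rw [fam_pos _ s hj, fam_pos _ s hj, h j hj]
  · rw [fam_neg _ s hj, fam_neg _ s hj]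

lemma SA_union {A B : Set ℕ} (h : Disjoint A B) (t : ℕ → ℝ) :
    add (SA A t) (SA B t) = SA (A ∪ B) t := by
  refine col_ext e fun p => ?_
  have h1 : col e p (add (SA A t) (SA B t)) = add (col e p (SA A t)) (col e p (SA B t)) := rfl
  rw [h1, col_SA, col_SA, col_SA]
  obtain ⟨j, s⟩ := p
  by_cases hA : j ∈ A
  · have hB : j ∉ B := fun hB => (disjoint_left.1 h) hA hB
    rw [fam_pos _ s hA, fam_neg _ s hB, fam_pos _ s (A := A ∪ B) (Or.inl hA)]
    exact ext_val fun q => add_zero _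
  · by_cases hB : j ∈ B
    · rw [fam_neg _ s hA, fam_pos _ s hB, fam_pos _ s (A := A ∪ B) (Or.inr hB)]
      exact ext_val fun q => zero_add _
    · rw [fam_neg _ s hA, fam_neg _ s hB, fam_neg _ s (A := A ∪ B) (fun h => h.elim hA hB)]
      exact ext_val fun q => zero_add _

/-- all decoders -/
noncomputable def tau (f : X) (j : ℕ) : ℝ :=
  dec (smul ((3 : ℝ) ^ j) (col e (j, true) f)) - dec (smul ((3 : ℝ) ^ j) (col e (j, false) f))

lemma continuous_tau (j : ℕ) : Continuous fun f => tau f j :=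
  (continuous_dec.comp (continuous_smul _ (continuous_col e _))).sub
    (continuous_dec.comp (continuous_smul _ (continuous_col e _)))

lemma smul_blk (j : ℕ) (s : Bool) (t : ℝ) : smul ((3 : ℝ) ^ j) (blk j s t) = code (sg s t) := by
  refine ext_val fun q => ?_
  show (3 : ℝ) ^ j * ((1 / 3 : ℝ) ^ j * (code (sg s t)).1 q) = _
  rw [← mul_assoc, ← mul_pow]
  norm_num

lemma tau_SA {A : Set ℕ} (t : ℕ → ℝ) {j : ℕ} (hj : j ∈ A) : tau (SA A t) j = t j := by
  rw [tau, col_SA, col_SA, fam_pos _ _ hj, fam_pos _ _ hj, smul_blk, smul_blk,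
    dec_code (sg_nonneg _ _), dec_code (sg_nonneg _ _), sg_sub]

/-- the codes of the numbers `t j`, `j ≥ m` -/
noncomputable def S (m : ℕ) (t : ℕ → ℝ) : X := SA {j | m ≤ j} t

/-- the code of the number `t m` -/
noncomputable def T (m : ℕ) (t : ℕ → ℝ) : X := SA {m} t

lemma continuous_S (m : ℕ) : Continuous (S m) := continuous_SA _

lemma continuous_T (m : ℕ) : Continuous (T m) := continuous_SA _

lemma T_congr {m : ℕ} {t t' : ℕ → ℝ} (h : t m = t' m) : T m t = T m t' :=
  SA_congr fun j hj => by rw [mem_singleton_iff.1 hj, h]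

lemma S_congr {m : ℕ} {t t' : ℕ → ℝ} (h : ∀ j, m ≤ j → t j = t' j) : S m t = S m t' :=
  SA_congr h

lemma tau_S (t : ℕ → ℝ) {m j : ℕ} (h : m ≤ j) : tau (S m t) j = t j := tau_SA t h

lemma S_bound (m : ℕ) (t : ℕ → ℝ) (q : StoneCech ℕ) : |(S m t).1 q| ≤ (1 / 3 : ℝ) ^ m :=
  SA_bound (fun _ h => h) t q

lemma T_add_S (m : ℕ) (t : ℕ → ℝ) : add (T m t) (S (m + 1) t) = S m t := by
  unfold T S
  rw [SA_union]
  · congr 1
    ext j
    simp only [mem_union, mem_singleton_iff]
    show j = m ∨ m + 1 ≤ j ↔ m ≤ j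
    omega
  · rw [disjoint_left]
    intro j hj hj'
    have h1 : j = m := hj
    have h2 : m + 1 ≤ j := hj'
    omega

lemma S_step (m : ℕ) (t : ℕ → ℝ) :
    add (T m t) (clamp ((1 / 3 : ℝ) ^ (m + 1)) (S (m + 1) t)) = S m t := by
  rw [clamp_eq (S_bound _ _), T_add_S]

/-! ### The swindle -/

/-- forward recursion -/
noncomputable def fu (u0 : X) (r : ℕ → ℝ × X) : ℕ → X
  | 0 => u0
  | m + 1 => add (r m).2 (S (m + 1) (tau (fu u0 r m)))

/-- the numbers -/
noncomputable def ft (u0 : X) (r : ℕ → ℝ × X) (m : ℕ) : ℝ := (r m).1 + tau (fu u0 r m) m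

/-- the remainders -/
noncomputable def fy (u0 : X) (r : ℕ → ℝ × X) (m : ℕ) : X :=
  sub (sub (fu u0 r m) (T m (ft u0 r))) (clamp ((1 / 3 : ℝ) ^ (m + 1)) (fu u0 r (m + 1)))

lemma fu_large (u0 : X) (r : ℕ → ℝ × X) {M : ℕ} (hM : ∀ m ≥ M, r m = 0) {m : ℕ}
    (hm : M + 1 ≤ m) : fu u0 r m = S m (ft u0 r) := by
  have h1 : ∀ m, M + 1 ≤ m → fu u0 r m = S m (tau (fu u0 r M)) := by
    intro m hm
    induction m, hm using Nat.le_induction with
    | base =>
      show add (r M).2 (S (M + 1) (tau (fu u0 r M))) = _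
      rw [hM M le_rfl]
      exact ext_val fun q => zero_add _
    | succ m hm ih =>
      show add (r m).2 (S (m + 1) (tau (fu u0 r m))) = _
      rw [hM m (by omega), ih]
      have h2 : S (m + 1) (tau (S m (tau (fu u0 r M)))) = S (m + 1) (tau (fu u0 r M)) :=
        S_congr fun j hj => tau_S _ (by omega)
      rw [h2]
      exact ext_val fun q => zero_add _
  rw [h1 m hm]
  refine S_congr fun j hj => ?_
  rw [ft, hM j (by omega), h1 j (by omega), tau_S _ le_rfl]
  exact (zero_add _).symm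

lemma fy_large (u0 : X) (r : ℕ → ℝ × X) {M : ℕ} (hM : ∀ m ≥ M, r m = 0) {m : ℕ}
    (hm : M + 1 ≤ m) : fy u0 r m = 0 := by
  rw [fy, fu_large u0 r hM hm, fu_large u0 r hM (Nat.le_succ_of_le hm)]
  conv_lhs => rw [← S_step m (ft u0 r)]
  refine ext_val fun q => ?_
  show ((T m (ft u0 r)).1 q + (clamp ((1 / 3 : ℝ) ^ (m + 1)) (S (m + 1) (ft u0 r))).1 q -
    (T m (ft u0 r)).1 q) - (clamp ((1 / 3 : ℝ) ^ (m + 1)) (S (m + 1) (ft u0 r))).1 q = 0
  ring

lemma fu_eq (u0 : X) (r : ℕ → ℝ × X) (m : ℕ) : fu u0 r m =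
    add (add (fy u0 r m) (T m (ft u0 r))) (clamp ((1 / 3 : ℝ) ^ (m + 1)) (fu u0 r (m + 1))) := by
  refine ext_val fun q => ?_
  show _ = ((fu u0 r m).1 q - (T m (ft u0 r)).1 q -
    (clamp ((1 / 3 : ℝ) ^ (m + 1)) (fu u0 r (m + 1))).1 q) + (T m (ft u0 r)).1 q +
    (clamp ((1 / 3 : ℝ) ^ (m + 1)) (fu u0 r (m + 1))).1 q
  ring

/-- backward recursion of depth `d` -/
noncomputable def R (t : ℕ → ℝ) (y : ℕ → X) : ℕ → ℕ → X
  | 0 => fun m => S m t
  | d + 1 => fun m => add (add (y m) (T m t)) (clamp ((1 / 3 : ℝ) ^ (m + 1)) (R t y d (m + 1)))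

lemma R_succ (t : ℕ → ℝ) (y : ℕ → X) (d m : ℕ) : R t y (d + 1) m =
    add (add (y m) (T m t)) (clamp ((1 / 3 : ℝ) ^ (m + 1)) (R t y d (m + 1))) := rfl

lemma R_step (t : ℕ → ℝ) (y : ℕ → X) (d : ℕ) : ∀ m, (∀ k, m + d ≤ k → y k = 0) →
    R t y (d + 1) m = R t y d m := by
  induction d with
  | zero =>
    intro m h
    rw [R_succ, h m (by omega)]
    show add (add 0 (T m t)) (clamp ((1 / 3 : ℝ) ^ (m + 1)) (S (m + 1) t)) = S m t
    have : add 0 (T m t) = T m t := ext_val fun q => zero_add _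
    rw [this, S_step]
  | succ d ih =>
    intro m h
    rw [R_succ, R_succ t y d m, ih (m + 1) fun k hk => h k (by omega)]

lemma R_stable (t : ℕ → ℝ) (y : ℕ → X) {M : ℕ} (hM : ∀ k, M ≤ k → y k = 0) (d m : ℕ)
    (hd : M ≤ d) : R t y d m = R t y M m := by
  induction d, hd using Nat.le_induction with
  | base => rfl
  | succ d hd ih => rw [R_step t y d m fun k hk => hM k (by omega), ih]

lemma R_large (t : ℕ → ℝ) (y : ℕ → X) {m : ℕ} (hm : ∀ k, m ≤ k → y k = 0) (d : ℕ) :
    R t y d m = S m t := by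
  induction d with
  | zero => rfl
  | succ d ih => rw [R_step t y d m fun k hk => hm k (by omega), ih]

lemma clamp_bound {a : ℝ} (ha : 0 ≤ a) (f : X) (q : StoneCech ℕ) : |(clamp a f).1 q| ≤ a := by
  show |max (-a) (min a (f.1 q))| ≤ a
  rw [abs_le]
  exact ⟨le_max_left _ _, max_le (by linarith) (min_le_left _ _)⟩

lemma clamp_lip (a : ℝ) (f g : X) (q : StoneCech ℕ) :
    |(clamp a f).1 q - (clamp a g).1 q| ≤ |f.1 q - g.1 q| := by
  show |max (-a) (min a (f.1 q)) - max (-a) (min a (g.1 q))| ≤ _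
  refine (abs_max_sub_max_le_max _ _ _ _).trans ?_
  rw [sub_self, abs_zero]
  refine max_le (abs_nonneg _) ((abs_min_sub_min_le_max _ _ _ _).trans ?_)
  rw [sub_self, abs_zero]
  exact max_le (abs_nonneg _) le_rfl

lemma R_approx (t : ℕ → ℝ) (y : ℕ → X) (k d : ℕ) : ∀ m (q : StoneCech ℕ),
    |(R t y (d + 1 + k) m).1 q - (R t y (d + 1) m).1 q| ≤ 2 * (1 / 3 : ℝ) ^ (m + d + 1) := by
  induction d with
  | zero =>
    intro m q
    have e1 : 0 + 1 + k = k + 1 := by omega
    rw [e1, R_succ, R_succ]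
    show |(y m).1 q + (T m t).1 q + (clamp ((1 / 3 : ℝ) ^ (m + 1)) (R t y k (m + 1))).1 q -
      ((y m).1 q + (T m t).1 q + (clamp ((1 / 3 : ℝ) ^ (m + 1)) (R t y 0 (m + 1))).1 q)| ≤ _
    rw [add_sub_add_left_eq_sub]
    have h1 := abs_le.1 (clamp_bound (by positivity : (0 : ℝ) ≤ (1 / 3 : ℝ) ^ (m + 1))
      (R t y k (m + 1)) q)
    have h2 := abs_le.1 (clamp_bound (by positivity : (0 : ℝ) ≤ (1 / 3 : ℝ) ^ (m + 1))
      (R t y 0 (m + 1)) q)
    rw [abs_le]
    constructor <;> simp only [add_zero] <;> linarith [h1.1, h1.2, h2.1, h2.2]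
  | succ d ih =>
    intro m q
    have e1 : d + 1 + 1 + k = (d + 1 + k) + 1 := by omega
    rw [e1, R_succ t y (d + 1 + k) m, R_succ t y (d + 1) m]
    show |(y m).1 q + (T m t).1 q + (clamp ((1 / 3 : ℝ) ^ (m + 1)) (R t y (d + 1 + k) (m + 1))).1 q -
      ((y m).1 q + (T m t).1 q +
        (clamp ((1 / 3 : ℝ) ^ (m + 1)) (R t y (d + 1) (m + 1))).1 q)| ≤ _
    rw [add_sub_add_left_eq_sub]
    refine (clamp_lip _ _ _ _).trans ((ih (m + 1) q).trans (le_of_eq ?_))
    congr 2
    omega

/-- the backward sequence -/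
noncomputable def U (z : (ℕ → ℝ) × W) (m : ℕ) : X := R z.1 z.2.1 z.2.2.choose m

lemma U_zero (z : (ℕ → ℝ) × W) (k : ℕ) (hk : z.2.2.choose ≤ k) : z.2.1 k = 0 :=
  z.2.2.choose_spec k hk

lemma U_eq_R (z : (ℕ → ℝ) × W) (m d : ℕ) (hd : z.2.2.choose ≤ d) : U z m = R z.1 z.2.1 d m :=
  (R_stable z.1 z.2.1 (U_zero z) d m hd).symm

lemma U_rec (z : (ℕ → ℝ) × W) (m : ℕ) : U z m =
    add (add (z.2.1 m) (T m z.1)) (clamp ((1 / 3 : ℝ) ^ (m + 1)) (U z (m + 1))) := by
  rw [U_eq_R z m (z.2.2.choose + 1) (Nat.le_succ _), R_succ]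
  rfl

lemma U_large (z : (ℕ → ℝ) × W) {m : ℕ} (hm : ∀ k, m ≤ k → z.2.1 k = 0) : U z m = S m z.1 :=
  R_large _ _ hm _

lemma continuous_R (d : ℕ) : ∀ m, Continuous fun z : (ℕ → ℝ) × W => R z.1 z.2.1 d m := by
  induction d with
  | zero => exact fun m => (continuous_S m).comp continuous_fst
  | succ d ih =>
    intro m
    have h1 : Continuous fun z : (ℕ → ℝ) × W => z.2.1 m :=
      (continuous_apply m).comp (continuous_subtype_val.comp continuous_snd)
    exact continuous_add (continuous_add h1 ((continuous_T m).comp continuous_fst))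
      (continuous_clamp _ (ih (m + 1)))

lemma continuous_U (m : ℕ) : Continuous fun z : (ℕ → ℝ) × W => U z m := by
  refine continuous_of_approx fun ε hε => ?_
  obtain ⟨d, hd⟩ := exists_pow_lt_of_lt_one (half_pos hε) (by norm_num : (1 / 3 : ℝ) < 1)
  refine ⟨fun z => R z.1 z.2.1 (d + 1) m, continuous_R _ _, fun z n => ?_⟩
  rw [U_eq_R z m (d + 1 + z.2.2.choose) (by omega)]
  refine (R_approx _ _ _ _ _ _).trans ?_
  have h1 : (1 / 3 : ℝ) ^ (m + d + 1) ≤ (1 / 3 : ℝ) ^ d :=
    pow_le_pow_of_le_one (by norm_num) (by norm_num) (by omega)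
  linarith

lemma continuous_fu (m : ℕ) : Continuous fun p : X × W' => fu p.1 p.2.1 m := by
  induction m with
  | zero => exact continuous_fst
  | succ m ih =>
    have h1 : Continuous fun p : X × W' => (p.2.1 m).2 :=
      continuous_snd.comp ((continuous_apply m).comp (continuous_subtype_val.comp continuous_snd))
    exact continuous_add h1 ((continuous_S (m + 1)).comp
      (continuous_pi fun j => (continuous_tau j).comp ih))

lemma continuous_ft : Continuous fun p : X × W' => ft p.1 p.2.1 := by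
  refine continuous_pi fun m => ?_
  have h1 : Continuous fun p : X × W' => (p.2.1 m).1 :=
    continuous_fst.comp ((continuous_apply m).comp (continuous_subtype_val.comp continuous_snd))
  exact h1.add ((continuous_tau m).comp (continuous_fu m))

/-- backwards and forwards -/
lemma U_fwd (p : X × W') (h : ∃ M, ∀ m ≥ M, fy p.1 p.2.1 m = 0) (m : ℕ) :
    U (ft p.1 p.2.1, ⟨fy p.1 p.2.1, h⟩) m = fu p.1 p.2.1 m := by
  obtain ⟨M, hM⟩ := p.2.2
  have key : ∀ k m, M + 1 ≤ m + k → U (ft p.1 p.2.1, ⟨fy p.1 p.2.1, h⟩) m = fu p.1 p.2.1 m := by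
    intro k
    induction k with
    | zero =>
      intro m hm
      rw [fu_large p.1 p.2.1 hM (by omega)]
      exact U_large _ fun k hk => fy_large p.1 p.2.1 hM (by omega)
    | succ k ih =>
      intro m hm
      rw [U_rec, ih (m + 1) (by omega), fu_eq p.1 p.2.1 m]
  exact key (M + 1) m (by omega)

/-- the swindle -/
noncomputable def swindle : (X × W') ≃ₜ ((ℕ → ℝ) × W) where
  toFun p := (ft p.1 p.2.1, ⟨fy p.1 p.2.1, by
    obtain ⟨M, hM⟩ := p.2.2
    exact ⟨M + 1, fun m hm => fy_large _ _ hM hm⟩⟩)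
  invFun z := (U z 0, ⟨fun m => (z.1 m - tau (U z m) m, sub (U z (m + 1)) (S (m + 1) (tau (U z m)))),
    by
      obtain ⟨M, hM⟩ := z.2.2
      refine ⟨M, fun m hm => ?_⟩
      show (z.1 m - tau (U z m) m, sub (U z (m + 1)) (S (m + 1) (tau (U z m)))) = 0
      rw [U_large z fun k hk => hM k (by omega), U_large z fun k hk => hM k (by omega),
        tau_S _ le_rfl, S_congr (t := tau (S m z.1)) (t' := z.1) fun j hj => tau_S _ (by omega)]
      refine Prod.ext (sub_self _) (ext_val fun q => sub_self _)⟩)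
  left_inv p := by
    have h : ∃ M, ∀ m ≥ M, fy p.1 p.2.1 m = 0 := by
      obtain ⟨M, hM⟩ := p.2.2
      exact ⟨M + 1, fun m hm => fy_large _ _ hM hm⟩
    have h1 := U_fwd p h
    refine Prod.ext (h1 0) (Subtype.ext (funext fun m => Prod.ext ?_ ?_))
    · show ft p.1 p.2.1 m - tau (U (ft p.1 p.2.1, ⟨fy p.1 p.2.1, h⟩) m) m = _
      rw [h1, ft, add_sub_cancel_right]
    · show sub (U (ft p.1 p.2.1, ⟨fy p.1 p.2.1, h⟩) (m + 1))
        (S (m + 1) (tau (U (ft p.1 p.2.1, ⟨fy p.1 p.2.1, h⟩) m))) = _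
      rw [h1, h1]
      exact ext_val fun q => add_sub_cancel_right _ _
  right_inv z := by
    set r : ℕ → ℝ × X := fun m =>
      (z.1 m - tau (U z m) m, sub (U z (m + 1)) (S (m + 1) (tau (U z m)))) with hr
    have h1 : ∀ m, fu (U z 0) r m = U z m := by
      intro m
      induction m with
      | zero => rfl
      | succ m ih =>
        show add (r m).2 (S (m + 1) (tau (fu (U z 0) r m))) = _
        rw [ih]
        exact ext_val fun q => sub_add_cancel _ _
    have h2 : ft (U z 0) r = z.1 := by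
      funext m
      rw [ft, h1]
      exact sub_add_cancel _ _
    refine Prod.ext h2 (Subtype.ext (funext fun m => ?_))
    show fy (U z 0) r m = z.2.1 m
    rw [fy, h1, h1, h2]
    conv_lhs => rw [U_rec z m]
    refine ext_val fun q => ?_
    show ((z.2.1 m).1 q + (T m z.1).1 q + (clamp ((1 / 3 : ℝ) ^ (m + 1)) (U z (m + 1))).1 q -
      (T m z.1).1 q) - (clamp ((1 / 3 : ℝ) ^ (m + 1)) (U z (m + 1))).1 q = _
    ring
  continuous_toFun := by
    refine continuous_ft.prodMk (Continuous.subtype_mk (continuous_pi fun m => ?_) _)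
    exact continuous_sub (continuous_sub (continuous_fu m) ((continuous_T m).comp continuous_ft))
      (continuous_clamp _ (continuous_fu (m + 1)))
  continuous_invFun := by
    refine (continuous_U 0).prodMk (Continuous.subtype_mk (continuous_pi fun m => ?_) _)
    have h1 : Continuous fun z : (ℕ → ℝ) × W => tau (U z m) :=
      continuous_pi fun j => (continuous_tau j).comp (continuous_U m)
    refine Continuous.prodMk ?_ ?_
    · exact ((continuous_apply m).comp continuous_fst).sub ((continuous_apply m).comp h1)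
    · exact continuous_sub (continuous_U (m + 1)) ((continuous_S (m + 1)).comp h1)

/-! ### The line is absorbed by `X` -/

lemma cover (q : StoneCech ℕ) : q = un 0 ∨ q ∈ range (bmap Nat.succ) := by
  have hc : IsClosed ({un 0} ∪ range (bmap Nat.succ)) :=
    isClosed_singleton.union (isClosed_range_bmap _)
  have h : closure (range un) ⊆ {un 0} ∪ range (bmap Nat.succ) := by
    refine closure_minimal ?_ hc
    rintro _ ⟨n, rfl⟩
    cases n with
    | zero => exact Or.inl rfl
    | succ n => exact Or.inr ⟨un n, bmap_un _ _⟩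
  rw [dense_un.closure_range] at h
  exact h (mem_univ q)

/-- inserting a number -/
noncomputable def ins (p : ℝ × X) : X := mk fun n => Nat.casesOn n p.1 fun k => p.2.1 (un k)

lemma ins_bdd (p : ℝ × X) :
    ∃ C, ∀ n, |(Nat.casesOn n p.1 fun k => p.2.1 (un k) : ℝ)| ≤ C := by
  obtain ⟨C, hC⟩ := exists_bound p.2
  refine ⟨max |p.1| C, fun n => ?_⟩
  cases n with
  | zero => exact le_max_left _ _
  | succ n => exact (hC _).trans (le_max_right _ _)

lemma ins_zero (p : ℝ × X) : (ins p).1 (un 0) = p.1 := mk_un (ins_bdd p) 0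

lemma ins_succ (p : ℝ × X) (q : StoneCech ℕ) : (ins p).1 (bmap Nat.succ q) = p.2.1 q := by
  have h1 : (⟨fun q => (ins p).1 (bmap Nat.succ q), (ins p).2.comp (continuous_bmap _)⟩ : X) =
      p.2 := by
    apply X_ext
    intro n
    show (ins p).1 (bmap Nat.succ (un n)) = _
    rw [bmap_un]
    exact mk_un (ins_bdd p) (n + 1)
  exact congrArg (fun f : X => f.1 q) h1

/-- insertion of a number -/
noncomputable def insHomeo : (ℝ × X) ≃ₜ X where
  toFun := ins
  invFun f := (f.1 (un 0), ⟨fun q => f.1 (bmap Nat.succ q), f.2.comp (continuous_bmap _)⟩)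
  left_inv p := Prod.ext (ins_zero p) (ext_val fun q => ins_succ p q)
  right_inv f := by
    refine ext_val fun q => ?_
    rcases cover q with rfl | ⟨q', rfl⟩
    · exact ins_zero _
    · exact ins_succ _ _
  continuous_toFun := by
    refine continuous_X fun q => ?_
    rcases cover q with rfl | ⟨q', rfl⟩
    · simp_rw [ins_zero]
      exact continuous_fst
    · simp_rw [ins_succ]
      exact (continuous_ev q').comp continuous_snd
  continuous_invFun := (continuous_ev _).prodMk (continuous_X fun q => continuous_ev _)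

lemma insHomeo_zero : insHomeo 0 = 0 := by
  refine ext_val fun q => ?_
  show (ins 0).1 q = _
  rcases cover q with rfl | ⟨q', rfl⟩
  · exact ins_zero _
  · exact ins_succ _ _

/-- the two weak products are homeomorphic -/
noncomputable def weakHomeo : W' ≃ₜ W :=
  (Homeomorph.piCongrRight fun _ : ℕ => insHomeo).subtype fun r => by
    have h : ∀ m, r m = 0 ↔ (Homeomorph.piCongrRight fun _ : ℕ => insHomeo) r m = 0 := fun m => by
      show r m = 0 ↔ insHomeo (r m) = 0
      rw [← insHomeo_zero]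
      exact insHomeo.injective.eq_iff.symm
    simp_rw [h]

end B

/-- `(ℕ → ℝ)` is absorbed by the weak product -/
theorem absorb : Nonempty ((X × W) ≃ₜ ((ℕ → ℝ) × W)) :=
  ⟨((Homeomorph.refl X).prodCongr B.weakHomeo.symm).trans B.swindle⟩

end Pool.Agent.CPZ
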