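import Pool.Agent.CPZ.A
import Pool.Agent.CPZ.B

set_option autoImplicit false

open Set Filter Topology

namespace Pool.Agent.CPZ

/-- the space absorbs the countable power of the line -/
theorem final : Nonempty (X ≃ₜ X × (ℕ → ℝ)) := by
  obtain ⟨h1⟩ := block_trick
  obtain ⟨h2⟩ := absorb
  exact ⟨h1.trans <| (AA.symm.prodCongr (Homeomorph.refl W)).trans <|
    (Homeomorph.prodAssoc X X W).trans <| ((Homeomorph.refl X).prodCongr h2).trans <|
    ((Homeomorph.refl X).prodCongr (Homeomorph.prodComm _ _)).trans <|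
    (Homeomorph.prodAssoc X W (ℕ → ℝ)).symm.trans <| h1.symm.prodCongr (Homeomorph.refl _)⟩

end Pool.Agent.CPZ
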