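import Pool.Agent.CPZ.M

set_option autoImplicit false

open Set Filter Topology

namespace Pool.Agent.CPZ

noncomputable section

/-! ## weighted sums -/

/-- weighted sum -/
def wsum (φ : ℝ → ℝ) (a : ℕ → ℝ) : ℝ := ∑' k : ℕ, (1 / 4 : ℝ) ^ (k + 1) * φ (a k)

lemma hasSum_w (d : ℝ) : HasSum (fun k : ℕ => (1 / 4 : ℝ) ^ (k + 1) * (2 ^ k * d)) (d / 2) := by
  have h := (hasSum_geometric_two).mul_left (d / 4)
  have e : (fun k : ℕ => (1 / 4 : ℝ) ^ (k + 1) * (2 ^ k * d)) =
      fun k : ℕ => d / 4 * (1 / 2 : ℝ) ^ k := by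
    funext k
    have : (1 / 4 : ℝ) ^ (k + 1) * 2 ^ k = 1 / 4 * (1 / 2 : ℝ) ^ k := by
      rw [pow_succ]
      have : (1 / 4 : ℝ) ^ k * 2 ^ k = (1 / 2 : ℝ) ^ k := by
        rw [← mul_pow]; norm_num
      rw [← this]; ring
    calc (1 / 4 : ℝ) ^ (k + 1) * (2 ^ k * d) = ((1 / 4 : ℝ) ^ (k + 1) * 2 ^ k) * d := by ring
      _ = _ := by rw [this]; ring
  rw [e]
  have e2 : d / 4 * 2 = d / 2 := by ring
  rwa [e2] at h

lemma hasSum_w1 : HasSum (fun k : ℕ => (1 / 4 : ℝ) ^ (k + 1)) (1 / 3) := by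
  have h := (hasSum_geometric_of_lt_one (r := (1 / 4 : ℝ)) (by norm_num) (by norm_num)).mul_left (1 / 4)
  have e : (fun k : ℕ => (1 / 4 : ℝ) ^ (k + 1)) = fun k : ℕ => 1 / 4 * (1 / 4 : ℝ) ^ k := by
    funext k; rw [pow_succ]; ring
  rw [e]
  have e2 : (1 / 4 : ℝ) * (1 - 1 / 4)⁻¹ = 1 / 3 := by norm_num
  rwa [e2] at h

section
variable {φ : ℝ → ℝ} (h0 : ∀ x, 0 ≤ φ x) (h1 : ∀ x, φ x ≤ 1)

include h0 h1

lemma wterm_norm (a : ℕ → ℝ) (k : ℕ) : ‖(1 / 4 : ℝ) ^ (k + 1) * φ (a k)‖ ≤ (1 / 4 : ℝ) ^ (k + 1) := by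
  rw [Real.norm_eq_abs, abs_of_nonneg (mul_nonneg (by positivity) (h0 _))]
  exact mul_le_of_le_one_right (by positivity) (h1 _)

lemma wsum_summable (a : ℕ → ℝ) : Summable fun k : ℕ => (1 / 4 : ℝ) ^ (k + 1) * φ (a k) :=
  Summable.of_norm_bounded hasSum_w1.summable (wterm_norm h0 h1 a)

omit h1 in
lemma wsum_nonneg (a : ℕ → ℝ) : 0 ≤ wsum φ a :=
  tsum_nonneg fun _ => mul_nonneg (by positivity) (h0 _)

lemma wsum_le (a : ℕ → ℝ) : wsum φ a ≤ 1 / 3 := by
  have := tsum_of_norm_bounded hasSum_w1 (wterm_norm h0 h1 a)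
  exact (le_abs_self _).trans this

lemma wsum_pos {a : ℕ → ℝ} {k : ℕ} (h : 0 < φ (a k)) : 0 < wsum φ a :=
  (wsum_summable h0 h1 a).tsum_pos (fun _ => mul_nonneg (by positivity) (h0 _)) k (by positivity)

lemma continuous_wsum (hc : Continuous φ) : Continuous (wsum φ) := by
  have h := continuous_tsum (F := ℝ) (f := fun (k : ℕ) (a : ℕ → ℝ) => (1 / 4 : ℝ) ^ (k + 1) * φ (a k))
    (u := fun k : ℕ => (1 / 4 : ℝ) ^ (k + 1))
    (fun k => continuous_const.mul (hc.comp (continuous_apply k))) hasSum_w1.summable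
    (fun k a => wterm_norm h0 h1 a k)
  exact h

lemma wsum_lip (hL : ∀ x y, |φ x - φ y| ≤ |x - y|) {a b : ℕ → ℝ} {d : ℝ}
    (h : ∀ k, |a k - b k| ≤ 2 ^ k * d) : |wsum φ a - wsum φ b| ≤ d / 2 := by
  have e : wsum φ a - wsum φ b = ∑' k : ℕ, ((1 / 4 : ℝ) ^ (k + 1) * φ (a k) -
      (1 / 4 : ℝ) ^ (k + 1) * φ (b k)) :=
    ((wsum_summable h0 h1 a).tsum_sub (wsum_summable h0 h1 b)).symm
  rw [e, ← Real.norm_eq_abs]
  refine tsum_of_norm_bounded (hasSum_w d) ?_
  intro k
  rw [← mul_sub, Real.norm_eq_abs, abs_mul, abs_of_pos (by positivity : (0 : ℝ) < (1 / 4) ^ (k + 1))]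
  exact mul_le_mul_of_nonneg_left ((hL _ _).trans (h k)) (by positivity)

end

/-- the function of the gauge -/
def ph1 (x : ℝ) : ℝ := min 1 (max (|x| - 1) 0)

/-- the function of the size -/
def ph2 (x : ℝ) : ℝ := min 1 |x|

lemma ph1_nonneg (x : ℝ) : 0 ≤ ph1 x := le_min zero_le_one (le_max_right _ _)
lemma ph1_le (x : ℝ) : ph1 x ≤ 1 := min_le_left _ _
lemma ph2_nonneg (x : ℝ) : 0 ≤ ph2 x := le_min zero_le_one (abs_nonneg _)
lemma ph2_le (x : ℝ) : ph2 x ≤ 1 := min_le_left _ _
lemma continuous_ph1 : Continuous ph1 := by unfold ph1; fun_prop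
lemma continuous_ph2 : Continuous ph2 := by unfold ph2; fun_prop

lemma ph1_lip (x y : ℝ) : |ph1 x - ph1 y| ≤ |x - y| := by
  unfold ph1
  have h1 : |min 1 (max (|x| - 1) 0) - min 1 (max (|y| - 1) 0)| ≤
      |max (|x| - 1) 0 - max (|y| - 1) 0| := by
    have := abs_min_sub_min_le_max 1 (max (|x| - 1) 0) 1 (max (|y| - 1) 0)
    simpa using this
  have h2 : |max (|x| - 1) 0 - max (|y| - 1) 0| ≤ |(|x| - 1) - (|y| - 1)| :=
    abs_max_sub_max_le_abs _ _ _
  have h3 : |(|x| - 1) - (|y| - 1)| ≤ |x - y| := by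
    have : (|x| - 1) - (|y| - 1) = |x| - |y| := by ring
    rw [this]
    exact abs_abs_sub_abs_le_abs_sub x y
  exact h1.trans (h2.trans h3)

lemma ph1_pos {x : ℝ} (h : 1 < |x|) : 0 < ph1 x :=
  lt_min one_pos (lt_max_of_lt_left (by linarith))

lemma ph1_zero {x : ℝ} (h : |x| ≤ 1) : ph1 x = 0 := by
  unfold ph1
  rw [max_eq_right (by linarith), min_eq_right zero_le_one]

/-- the gauge -/
def dl (f : X) : ℝ := wsum ph1 fun k => f.1 (un k)

/-- the size -/
def ep (r : X) : ℝ := wsum ph2 fun k => r.1 (un k)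

lemma dl_nonneg (f : X) : 0 ≤ dl f := wsum_nonneg ph1_nonneg _
lemma dl_le (f : X) : dl f ≤ 1 / 3 := wsum_le ph1_nonneg ph1_le _
lemma ep_nonneg (f : X) : 0 ≤ ep f := wsum_nonneg ph2_nonneg _

lemma continuous_vals : Continuous fun f : X => fun k => f.1 (un k) :=
  continuous_pi fun _ => continuous_ev _

lemma continuous_dl : Continuous dl :=
  (continuous_wsum ph1_nonneg ph1_le continuous_ph1).comp continuous_vals

lemma continuous_ep : Continuous ep :=
  (continuous_wsum ph2_nonneg ph2_le continuous_ph2).comp continuous_vals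

lemma dl_eq_zero {f : X} (h : ∀ q, |f.1 q| ≤ 1) : dl f = 0 := by
  unfold dl wsum
  have : (fun k : ℕ => (1 / 4 : ℝ) ^ (k + 1) * ph1 (f.1 (un k))) = fun _ => 0 := by
    funext k; rw [ph1_zero (h _), mul_zero]
  rw [this, tsum_zero]

lemma ep_zero : ep (0 : X) = 0 := by
  unfold ep wsum
  have : (fun k : ℕ => (1 / 4 : ℝ) ^ (k + 1) * ph2 ((0 : X).1 (un k))) = fun _ => 0 := by
    funext k; rw [zero_val]; simp [ph2]
  rw [this, tsum_zero]

lemma eq_zero_of_ep {r : X} (h : ep r = 0) : r = 0 := by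
  apply X_ext
  intro k
  by_contra hk
  have hk' : r.1 (un k) ≠ 0 := hk
  have : 0 < ph2 (r.1 (un k)) := lt_min one_pos (abs_pos.mpr hk')
  have := wsum_pos ph2_nonneg ph2_le (a := fun k => r.1 (un k)) (k := k) this
  unfold ep at h
  linarith

/-! ## the spikes -/

/-- spikes -/
def ga (t : ℝ) (k : ℕ) : ℝ := max (k - 2 ^ k * t) 0

lemma ga_lip (s t : ℝ) (k : ℕ) : |ga s k - ga t k| ≤ 2 ^ k * |s - t| := by
  unfold ga
  refine (abs_max_sub_max_le_abs _ _ _).trans ?_
  have : (k - 2 ^ k * s : ℝ) - (k - 2 ^ k * t) = 2 ^ k * (t - s) := by ring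
  rw [this, abs_mul, abs_of_pos (by positivity : (0 : ℝ) < 2 ^ k), abs_sub_comm]

lemma ga_eventually {t : ℝ} (ht : 0 < t) : ∀ᶠ k : ℕ in atTop, ga t k = 0 := by
  have h := tendsto_pow_const_div_const_pow_of_one_lt 1 (r := (2 : ℝ)) (by norm_num)
  filter_upwards [h.eventually_lt_const ht] with k hk
  unfold ga
  rw [pow_one, div_lt_iff₀ (by positivity)] at hk
  exact max_eq_right (by linarith)

/-- difference of spikes -/
def df (s e : ℝ) (k : ℕ) : ℝ := ga (min s e) k - ga e k

lemma df_lip (s t e : ℝ) (k : ℕ) : |df s e k - df t e k| ≤ 2 ^ k * |s - t| := by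
  unfold df
  have h1 : ga (min s e) k - ga e k - (ga (min t e) k - ga e k) = ga (min s e) k - ga (min t e) k := by
    ring
  rw [h1]
  refine (ga_lip _ _ _).trans ?_
  refine mul_le_mul_of_nonneg_left ?_ (by positivity)
  have := abs_min_sub_min_le_max s e t e
  simpa using this

lemma df_zero {s : ℝ} (hs : 0 ≤ s) (k : ℕ) : df s 0 k = 0 := by
  unfold df; rw [min_eq_right hs, sub_self]

lemma df_finite {s e : ℝ} (hs : 0 ≤ s) (he : 0 ≤ e) (h : s = 0 → e = 0) :
    {k | df s e k ≠ 0}.Finite := by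
  rcases he.eq_or_lt with he | he
  · have : {k | df s e k ≠ 0} = ∅ := by
      rw [← he]
      ext k
      simp [df_zero hs]
    rw [this]
    exact finite_empty
  · have hs' : 0 < s := lt_of_le_of_ne hs fun h' => he.ne' (h h'.symm)
    have h1 := ga_eventually (lt_min hs' he)
    have h2 := ga_eventually he
    have h3 : ∀ᶠ k : ℕ in atTop, df s e k = 0 := by
      filter_upwards [h1, h2] with k a b
      unfold df
      rw [a, b, sub_self]
    rw [← Nat.cofinite_eq_atTop] at h3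
    exact h3

/-- continuity of maps with finitely supported values -/
lemma continuous_of_fin {Z : Type*} [TopologicalSpace Z] {F : Z → X}
    (h1 : ∀ k, Continuous fun z => (F z).1 (un k))
    (h2 : ∀ z, {k | (F z).1 (un k) ≠ 0}.Finite) : Continuous F := by
  apply continuous_X
  intro q
  by_cases hq : q ∈ range un
  · obtain ⟨k, rfl⟩ := hq
    exact h1 k
  · have : (fun z => (F z).1 q) = fun _ => 0 := by
      funext z
      set A := {k | (F z).1 (un k) ≠ 0} with hA
      have hO : IsOpen (un '' A)ᶜ := ((h2 z).image un).isClosed.isOpen_compl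
      have hqO : q ∈ (un '' A)ᶜ := fun ⟨k, _, hk⟩ => hq ⟨k, hk⟩
      have hcl : IsClosed {q | (F z).1 q = 0} := isClosed_eq (F z).2 continuous_const
      have hmem : q ∈ closure ((un '' A)ᶜ ∩ range un) :=
        dense_un.open_subset_closure_inter hO hqO
      refine (closure_minimal ?_ hcl) hmem
      rintro _ ⟨hk, k, rfl⟩
      by_contra hne
      exact hk ⟨k, hne, rfl⟩
    rw [this]
    exact continuous_const

/-- the correction -/
def corr (s e : ℝ) : X := mk (df s e)

lemma corr_un {s e : ℝ} (hs : 0 ≤ s) (he : 0 ≤ e) (h : s = 0 → e = 0) (k : ℕ) :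
    (corr s e).1 (un k) = df s e k := by
  apply mk_un
  obtain ⟨M, hM⟩ := ((df_finite hs he h).image fun k => |df s e k|).bddAbove
  refine ⟨max M 0, fun n => ?_⟩
  by_cases hn : df s e n = 0
  · rw [hn, abs_zero]; exact le_max_right _ _
  · exact (hM ⟨n, hn, rfl⟩).trans (le_max_left _ _)

lemma continuous_corr {Z : Type*} [TopologicalSpace Z] {s e : Z → ℝ} (hs : Continuous s)
    (he : Continuous e) (hs0 : ∀ z, 0 ≤ s z) (he0 : ∀ z, 0 ≤ e z) (h : ∀ z, s z = 0 → e z = 0) :
    Continuous fun z => corr (s z) (e z) := by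
  apply continuous_of_fin
  · intro k
    have : (fun z => (corr (s z) (e z)).1 (un k)) = fun z => df (s z) (e z) k := by
      funext z
      exact corr_un (hs0 z) (he0 z) (h z) k
    rw [this]
    unfold df ga
    fun_prop
  · intro z
    have : {k | (corr (s z) (e z)).1 (un k) ≠ 0} = {k | df (s z) (e z) k ≠ 0} := by
      ext k
      simp only [mem_ofPred_eq, corr_un (hs0 z) (he0 z) (h z) k]
    rw [this]
    exact df_finite (hs0 z) (he0 z) (h z)

/-! ## fixed points -/

lemma fixed_param {Z : Type*} [TopologicalSpace Z] (φ : Z → ℝ → ℝ)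
    (hL : ∀ z s t, |φ z s - φ z t| ≤ |s - t| / 2) (hc : ∀ t, Continuous fun z => φ z t) :
    ∃ τ : Z → ℝ, Continuous τ ∧ (∀ z, φ z (τ z) = τ z) ∧ ∀ z t, φ z t = t → t = τ z := by
  have hC : ∀ z, ContractingWith (1 / 2) (φ z) := by
    intro z
    refine ⟨by norm_num, ?_⟩
    refine LipschitzWith.of_dist_le_mul fun s t => ?_
    rw [Real.dist_eq, Real.dist_eq]
    have := hL z s t
    have e : ((1 / 2 : NNReal) : ℝ) = 1 / 2 := by norm_num
    rw [e]
    linarith
  have huniq : ∀ z s t, φ z s = s → φ z t = t → s = t := by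
    intro z s t h1 h2
    have h3 := hL z s t
    rw [h1, h2] at h3
    have h4 : |s - t| = 0 := by
      have := abs_nonneg (s - t)
      linarith
    linarith [abs_eq_zero.mp h4]
  have hfix : ∀ z, φ z ((hC z).fixedPoint (φ z)) = (hC z).fixedPoint (φ z) :=
    fun z => (hC z).fixedPoint_isFixedPt
  refine ⟨fun z => (hC z).fixedPoint (φ z), ?_, hfix, ?_⟩
  · rw [continuous_iff_continuousAt]
    intro z0
    set t0 := (hC z0).fixedPoint (φ z0) with ht0
    have hlim : Tendsto (fun z => 2 * |φ z t0 - t0|) (𝓝 z0) (𝓝 0) := by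
      have h1 : Tendsto (fun z => 2 * |φ z t0 - t0|) (𝓝 z0) (𝓝 (2 * |φ z0 t0 - t0|)) :=
        (continuous_const.mul (continuous_abs.comp ((hc t0).sub continuous_const))).tendsto z0
      have h2 : φ z0 t0 = t0 := hfix z0
      rw [h2, sub_self, abs_zero, mul_zero] at h1
      exact h1
    show Tendsto (fun z => (hC z).fixedPoint (φ z)) (𝓝 z0) (𝓝 t0)
    rw [tendsto_iff_dist_tendsto_zero]
    refine squeeze_zero (fun _ => dist_nonneg) ?_ hlim
    intro z
    rw [Real.dist_eq]
    set t := (hC z).fixedPoint (φ z) with ht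
    have h2 : φ z t = t := hfix z
    have h3 := hL z t t0
    have h4 : |t - t0| ≤ |φ z t - φ z t0| + |φ z t0 - t0| := by
      have : t - t0 = (φ z t - φ z t0) + (φ z t0 - t0) := by rw [h2]; ring
      rw [this]
      exact abs_add_le _ _
    linarith
  · intro z t ht
    exact huniq z _ _ ht (hfix z)

/-! ## gluing in the parameter -/

lemma pw {Z A B : Type*} [TopologicalSpace Z] [TopologicalSpace A] [TopologicalSpace B]
    {Lf : ℝ → A → B} (hL : ContinuousOn (fun p : ℝ × A => Lf p.1 p.2) {p | 1 ≤ p.1})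
    {s : Z → ℝ} (hs : Continuous s) (hs0 : ∀ z, 0 ≤ s z) (hs1 : ∀ z, s z ≤ 1)
    {a : Z → A} (ha : Continuous a) {G : Z → B} (hG : Continuous G)
    (hlim : ∀ z, s z = 0 →
      Tendsto (fun p : ℝ × A => Lf p.1 p.2) (atTop ×ˢ 𝓝 (a z)) (𝓝 (G z))) :
    Continuous fun z => if s z = 0 then G z else Lf (s z)⁻¹ (a z) := by
  rw [continuous_iff_continuousAt]
  intro z0
  by_cases h : s z0 = 0
  · have e : (if s z0 = 0 then G z0 else Lf (s z0)⁻¹ (a z0)) = G z0 := if_pos h
    show Tendsto (fun z => if s z = 0 then G z else Lf (s z)⁻¹ (a z)) (𝓝 z0)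
      (𝓝 (if s z0 = 0 then G z0 else Lf (s z0)⁻¹ (a z0)))
    rw [e]
    refine Tendsto.if ?_ ?_
    · exact (hG.tendsto z0).mono_left inf_le_left
    · refine (hlim z0 h).comp (g := fun p : ℝ × A => Lf p.1 p.2) (f := fun z => ((s z)⁻¹, a z)) ?_
      refine Tendsto.prodMk ?_ ((ha.tendsto z0).mono_left inf_le_left)
      refine tendsto_inv_nhdsGT_zero.comp ?_
      rw [tendsto_nhdsWithin_iff]
      refine ⟨?_, ?_⟩
      · have := hs.tendsto z0
        rw [h] at this
        exact this.mono_left inf_le_left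
      · filter_upwards [mem_inf_of_right (mem_principal_self _)] with z hz
        exact lt_of_le_of_ne (hs0 z) (fun h' => hz h'.symm)
  · have hev : ∀ᶠ z in 𝓝 z0, s z ≠ 0 := hs.continuousAt.eventually_ne h
    have heq : (fun z => if s z = 0 then G z else Lf (s z)⁻¹ (a z)) =ᶠ[𝓝 z0]
        fun z => Lf (s z)⁻¹ (a z) := by
      filter_upwards [hev] with z hz
      exact if_neg hz
    refine ContinuousAt.congr ?_ heq.symm
    have hge : ∀ z, s z ≠ 0 → 1 ≤ (s z)⁻¹ := fun z hz =>
      (one_le_inv₀ (lt_of_le_of_ne (hs0 z) hz.symm)).mpr (hs1 z)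
    have h1 : ContinuousWithinAt (fun p : ℝ × A => Lf p.1 p.2) {p | 1 ≤ p.1} ((s z0)⁻¹, a z0) :=
      hL _ (hge z0 h)
    have h2 : Tendsto (fun z => ((s z)⁻¹, a z)) (𝓝 z0) (𝓝[{p : ℝ × A | 1 ≤ p.1}] ((s z0)⁻¹, a z0)) := by
      rw [tendsto_nhdsWithin_iff]
      refine ⟨?_, ?_⟩
      · exact (hs.continuousAt.inv₀ h).tendsto.prodMk_nhds (ha.tendsto z0)
      · filter_upwards [hev] with z hz
        exact hge z hz
    exact h1.tendsto.comp h2

/-! ## the map K -/

/-- sum -/
def addX (f g : X) : X := ⟨fun q => f.1 q + g.1 q, f.2.add g.2⟩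

/-- difference -/
def subX (f g : X) : X := ⟨fun q => f.1 q - g.1 q, f.2.sub g.2⟩

lemma continuous_addX {Z : Type*} [TopologicalSpace Z] {F G : Z → X} (hF : Continuous F)
    (hG : Continuous G) : Continuous fun z => addX (F z) (G z) :=
  continuous_X fun q => ((continuous_ev q).comp hF).add ((continuous_ev q).comp hG)

lemma continuous_subX {Z : Type*} [TopologicalSpace Z] {F G : Z → X} (hF : Continuous F)
    (hG : Continuous G) : Continuous fun z => subX (F z) (G z) :=
  continuous_X fun q => ((continuous_ev q).comp hF).sub ((continuous_ev q).comp hG)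

lemma sub_addX (f g : X) : subX (addX f g) g = f := by
  apply X_ext; intro n; show f.1 (un n) + g.1 (un n) - g.1 (un n) = _; ring

lemma add_subX (f g : X) : addX (subX f g) g = f := by
  apply X_ext; intro n; show f.1 (un n) - g.1 (un n) + g.1 (un n) = _; ring

/-- the fixed point function -/
lemma exists_tau : ∃ τ : X × X → ℝ, Continuous τ ∧ (∀ p, 0 ≤ τ p) ∧ (∀ p, τ p ≤ 1) ∧
    (∀ p, τ p = 0 → ep p.2 = 0) ∧
    (∀ p, wsum ph1 (fun k => p.1.1 (un k) - df (τ p) (ep p.2) k) = τ p) ∧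
    ∀ p t, 0 ≤ t → wsum ph1 (fun k => p.1.1 (un k) - df t (ep p.2) k) = t → t = τ p := by
  obtain ⟨τ, hc, h1, h2⟩ := fixed_param
    (fun (p : X × X) t => wsum ph1 (fun k => p.1.1 (un k) - df (max t 0) (ep p.2) k)) (by
      intro p s t
      refine wsum_lip ph1_nonneg ph1_le ph1_lip ?_
      intro k
      have e : p.1.1 (un k) - df (max s 0) (ep p.2) k - (p.1.1 (un k) - df (max t 0) (ep p.2) k)
          = df (max t 0) (ep p.2) k - df (max s 0) (ep p.2) k := by ring
      rw [e, abs_sub_comm]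
      refine (df_lip _ _ _ _).trans ?_
      exact mul_le_mul_of_nonneg_left (abs_max_sub_max_le_abs _ _ _) (by positivity)) (by
      intro t
      refine (continuous_wsum ph1_nonneg ph1_le continuous_ph1).comp ?_
      refine continuous_pi fun k => ?_
      have h1 : Continuous fun p : X × X => p.1.1 (un k) := (continuous_ev _).comp continuous_fst
      have h2 : Continuous fun p : X × X => ep p.2 := continuous_ep.comp continuous_snd
      unfold df ga
      fun_prop)
  have hnn : ∀ p, 0 ≤ τ p := by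
    intro p
    rw [← h1 p]
    exact wsum_nonneg ph1_nonneg _
  have hle : ∀ p, τ p ≤ 1 := by
    intro p
    rw [← h1 p]
    exact (wsum_le ph1_nonneg ph1_le _).trans (by norm_num)
  refine ⟨τ, hc, hnn, hle, ?_, ?_, ?_⟩
  · intro p hp
    by_contra hne
    have he : 0 < ep p.2 := lt_of_le_of_ne (ep_nonneg _) (Ne.symm hne)
    have h3 := h1 p
    rw [hp] at h3
    obtain ⟨C, hC⟩ := exists_bound p.1
    obtain ⟨k, hk1, hk2⟩ := ((ga_eventually he).and (eventually_gt_atTop (⌈C + 1⌉₊))).exists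
    have hk3 : C + 1 < k := lt_of_le_of_lt (Nat.le_ceil _) (by exact_mod_cast hk2)
    have h4 : df (max 0 0) (ep p.2) k = k := by
      unfold df
      rw [max_self, min_eq_left he.le, hk1, sub_zero]
      unfold ga
      rw [mul_zero, sub_zero]
      exact max_eq_left (Nat.cast_nonneg _)
    have h5 : 1 < |p.1.1 (un k) - df (max 0 0) (ep p.2) k| := by
      rw [h4]
      have h6 := abs_le.mp (hC (un k))
      have h7 : p.1.1 (un k) - k < -1 := by linarith
      rw [abs_of_neg (by linarith)]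
      linarith
    have h8 := wsum_pos ph1_nonneg ph1_le
      (a := fun k => p.1.1 (un k) - df (max 0 0) (ep p.2) k) (k := k) (ph1_pos h5)
    have h9 : wsum ph1 (fun k => p.1.1 (un k) - df (max 0 0) (ep p.2) k) = 0 := h3
    linarith
  · intro p
    have := h1 p
    simp only [max_eq_left (hnn p)] at this
    exact this
  · intro p t ht h
    apply h2 p t
    simp only [max_eq_left ht]
    exact h

/-- section 4: the homeomorphism K from a family L -/
theorem exists_K (L : ℝ → X ≃ₜ X × X)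
    (h1 : ContinuousOn (fun p : ℝ × X => L p.1 p.2) {p | 1 ≤ p.1})
    (h2 : ContinuousOn (fun p : ℝ × (X × X) => (L p.1).symm p.2) {p | 1 ≤ p.1})
    (h3 : ∀ x, Tendsto (fun p : ℝ × X => L p.1 p.2) (atTop ×ˢ 𝓝 x) (𝓝 (x, 0)))
    (h4 : ∀ x, Tendsto (fun p : ℝ × (X × X) => (L p.1).symm p.2) (atTop ×ˢ 𝓝 (x, 0)) (𝓝 x)) :
    ∃ K : X × X ≃ₜ (X × X) × X, ∀ f x, (∀ q, |f.1 q| ≤ 1) → K (f, x) = ((f, x), 0) := by
  classical
  obtain ⟨τ, hτc, hτ0, hτ1, hτz, hτf, hτu⟩ := exists_tau
  -- forward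
  let y : X × X → X × X := fun p => if dl p.1 = 0 then (p.2, 0) else L (dl p.1)⁻¹ p.2
  have hyc : Continuous y := by
    refine pw (Lf := fun t x => L t x) h1 (continuous_dl.comp continuous_fst)
      (fun p => dl_nonneg _) (fun p => (dl_le _).trans (by norm_num)) continuous_snd
      (G := fun p : X × X => (p.2, (0 : X))) (continuous_snd.prodMk continuous_const) ?_
    intro p _
    exact h3 p.2
  have hy0 : ∀ p, dl p.1 = 0 → ep (y p).2 = 0 := by
    intro p hp
    have : y p = (p.2, 0) := if_pos hp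
    rw [this]
    exact ep_zero
  -- backward
  let fb : (X × X) × X → X := fun w => subX w.1.1 (corr (τ (w.1.1, w.2)) (ep w.2))
  let xb : (X × X) × X → X := fun w =>
    if τ (w.1.1, w.2) = 0 then w.1.2 else (L (τ (w.1.1, w.2))⁻¹).symm (w.1.2, w.2)
  have hgr : Continuous fun w : (X × X) × X => (w.1.1, w.2) :=
    (continuous_fst.comp continuous_fst).prodMk continuous_snd
  have hxr : Continuous fun w : (X × X) × X => (w.1.2, w.2) :=
    (continuous_snd.comp continuous_fst).prodMk continuous_snd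
  have hfbc : Continuous fb := by
    refine continuous_subX (continuous_fst.comp continuous_fst) ?_
    exact continuous_corr (hτc.comp hgr) (continuous_ep.comp continuous_snd) (fun w => hτ0 _)
      (fun w => ep_nonneg _) (fun w h => hτz (w.1.1, w.2) h)
  have hxbc : Continuous xb := by
    refine pw (Lf := fun t p => (L t).symm p) h2 (hτc.comp hgr) (fun p => hτ0 _) (fun p => hτ1 _)
      hxr (continuous_snd.comp continuous_fst) ?_
    intro w hw
    have : w.2 = 0 := eq_zero_of_ep (hτz (w.1.1, w.2) hw)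
    show Tendsto _ (atTop ×ˢ 𝓝 (w.1.2, w.2)) (𝓝 w.1.2)
    rw [this]
    exact h4 w.1.2
  have hdl : ∀ w, dl (fb w) = τ (w.1.1, w.2) := by
    intro w
    have e := hτf (w.1.1, w.2)
    refine Eq.trans ?_ e
    unfold dl
    congr 1
    funext k
    show w.1.1.1 (un k) - (corr (τ (w.1.1, w.2)) (ep w.2)).1 (un k) = _
    rw [corr_un (hτ0 _) (ep_nonneg _) (hτz (w.1.1, w.2))]
  have htau : ∀ (f : X) (r : X), (dl f = 0 → ep r = 0) →
      τ (addX f (corr (dl f) (ep r)), r) = dl f := by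
    intro f r h
    symm
    apply hτu (addX f (corr (dl f) (ep r)), r) _ (dl_nonneg f)
    show wsum ph1 (fun k => (f.1 (un k) + (corr (dl f) (ep r)).1 (un k)) - df (dl f) (ep r) k) = _
    have : (fun k => (f.1 (un k) + (corr (dl f) (ep r)).1 (un k)) - df (dl f) (ep r) k) =
        fun k => f.1 (un k) := by
      funext k
      rw [corr_un (dl_nonneg _) (ep_nonneg _) h]
      ring
    rw [this]
    rfl
  refine ⟨{
    toFun := fun p => ((addX p.1 (corr (dl p.1) (ep (y p).2)), (y p).1), (y p).2)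
    invFun := fun w => (fb w, xb w)
    left_inv := ?_
    right_inv := ?_
    continuous_toFun := ?_
    continuous_invFun := hfbc.prodMk hxbc }, ?_⟩
  · intro p
    have ht := htau p.1 (y p).2 (hy0 p)
    apply Prod.ext
    · show subX (addX p.1 (corr (dl p.1) (ep (y p).2)))
        (corr (τ (addX p.1 (corr (dl p.1) (ep (y p).2)), (y p).2)) (ep (y p).2)) = p.1
      rw [ht, sub_addX]
    · show (if τ (addX p.1 (corr (dl p.1) (ep (y p).2)), (y p).2) = 0 then (y p).1 else
        (L (τ (addX p.1 (corr (dl p.1) (ep (y p).2)), (y p).2))⁻¹).symm ((y p).1, (y p).2)) = p.2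
      rw [ht]
      by_cases h : dl p.1 = 0
      · rw [if_pos h]
        have : y p = (p.2, 0) := if_pos h
        rw [this]
      · rw [if_neg h]
        have : y p = L (dl p.1)⁻¹ p.2 := if_neg h
        rw [Prod.mk.eta, this, Homeomorph.symm_apply_apply]
  · intro w
    have hd := hdl w
    have hy : y (fb w, xb w) = (w.1.2, w.2) := by
      show (if dl (fb w) = 0 then (xb w, (0 : X)) else L (dl (fb w))⁻¹ (xb w)) = _
      rw [hd]
      by_cases h : τ (w.1.1, w.2) = 0
      · rw [if_pos h]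
        have e1 : xb w = w.1.2 := if_pos h
        have e2 : w.2 = 0 := eq_zero_of_ep (hτz (w.1.1, w.2) h)
        rw [e1, e2]
      · rw [if_neg h]
        have e1 : xb w = (L (τ (w.1.1, w.2))⁻¹).symm (w.1.2, w.2) := if_neg h
        rw [e1, Homeomorph.apply_symm_apply]
    show ((addX (fb w) (corr (dl (fb w)) (ep (y (fb w, xb w)).2)), (y (fb w, xb w)).1),
      (y (fb w, xb w)).2) = w
    rw [hy, hd]
    show ((addX (subX w.1.1 (corr (τ (w.1.1, w.2)) (ep w.2))) (corr (τ (w.1.1, w.2)) (ep w.2)),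
      w.1.2), w.2) = w
    rw [add_subX]
  · have hy2 : Continuous fun p => (y p).2 := continuous_snd.comp hyc
    have hy1 : Continuous fun p => (y p).1 := continuous_fst.comp hyc
    refine ((continuous_addX continuous_fst ?_).prodMk hy1).prodMk hy2
    exact continuous_corr (continuous_dl.comp continuous_fst) (continuous_ep.comp hy2)
      (fun p => dl_nonneg _) (fun p => ep_nonneg _) hy0
  · intro f x hf
    have hd : dl f = 0 := dl_eq_zero hf
    have hy : y (f, x) = (x, 0) := if_pos hd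
    show ((addX f (corr (dl f) (ep (y (f, x)).2)), (y (f, x)).1), (y (f, x)).2) = _
    rw [hy, hd, ep_zero]
    have : addX f (corr 0 0) = f := by
      apply X_ext
      intro k
      show f.1 (un k) + (corr 0 0).1 (un k) = _
      rw [corr_un le_rfl le_rfl (fun _ => rfl), df_zero le_rfl, add_zero]
    rw [this]

end

end Pool.Agent.CPZ
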