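import Pool.Agent.CPZ.Lc

set_option autoImplicit false

open Set Filter Topology

namespace Pool.Agent.CPZ

/-- bump profile -/
noncomputable def gk (k : ℕ) (t : ℝ) : ℝ := max 0 (2 ^ k - 3 ^ k * t) / 2

lemma continuous_gk (k : ℕ) : Continuous (gk k) := by
  unfold gk
  fun_prop

lemma gk_lip (k : ℕ) (s t : ℝ) : |gk k s - gk k t| ≤ 3 ^ k / 2 * |s - t| := by
  unfold gk
  have h1 : |max 0 (2 ^ k - 3 ^ k * s) - max 0 (2 ^ k - 3 ^ k * t)| ≤
      |(2 ^ k - 3 ^ k * s) - (2 ^ k - 3 ^ k * t)| := by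
    simpa using abs_max_sub_max_le_max (0 : ℝ) (2 ^ k - 3 ^ k * s) 0 (2 ^ k - 3 ^ k * t)
  have h2 : |((2 : ℝ) ^ k - 3 ^ k * s) - (2 ^ k - 3 ^ k * t)| = 3 ^ k * |s - t| := by
    rw [show ((2 : ℝ) ^ k - 3 ^ k * s) - (2 ^ k - 3 ^ k * t) = 3 ^ k * (t - s) by ring, abs_mul,
      abs_of_pos (by positivity), abs_sub_comm]
  rw [← sub_div, abs_div, abs_two]
  linarith

lemma gk_eq_zero {k : ℕ} {t : ℝ} (h : (2 / 3 : ℝ) ^ k ≤ t) : gk k t = 0 := by
  unfold gk
  rw [max_eq_left, zero_div]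
  rw [div_pow, div_le_iff₀ (by positivity)] at h
  linarith

lemma exists_gk_zero {t : ℝ} (h : 0 < t) : ∃ N, ∀ k ≥ N, gk k t = 0 := by
  obtain ⟨N, hN⟩ := exists_pow_lt_of_lt_one h (show (2 / 3 : ℝ) < 1 by norm_num)
  refine ⟨N, fun k hk => gk_eq_zero (le_trans ?_ hN.le)⟩
  exact pow_le_pow_of_le_one (by norm_num) (by norm_num) hk

lemma gk_zero (k : ℕ) : gk k 0 = 2 ^ k / 2 := by
  unfold gk
  rw [mul_zero, sub_zero, max_eq_right (by positivity)]

/-- displacement -/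
noncomputable def dd (t ε : ℝ) (k : ℕ) : ℝ := gk k (min t ε) - gk k ε

lemma dd_zero {t : ℝ} (h : 0 ≤ t) (k : ℕ) : dd t 0 k = 0 := by
  unfold dd
  rw [min_eq_right h, sub_self]

def Valid (t ε : ℝ) : Prop := 0 ≤ t ∧ 0 ≤ ε ∧ (t = 0 → ε = 0)

lemma dd_finite {t ε : ℝ} (h : Valid t ε) : ∃ N, ∀ k ≥ N, dd t ε k = 0 := by
  obtain ⟨h1, h2, h3⟩ := h
  rcases h2.eq_or_lt with h4 | h4
  · exact ⟨0, fun k _ => by rw [← h4]; exact dd_zero h1 k⟩
  · have ht : 0 < t := lt_of_le_of_ne h1 (fun h => h4.ne' (h3 h.symm))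
    obtain ⟨N1, hN1⟩ := exists_gk_zero (lt_min ht h4)
    obtain ⟨N2, hN2⟩ := exists_gk_zero h4
    refine ⟨max N1 N2, fun k hk => ?_⟩
    unfold dd
    rw [hN1 k (le_trans (le_max_left _ _) hk), hN2 k (le_trans (le_max_right _ _) hk), sub_zero]

lemma bounded_of_finite {g : ℕ → ℝ} (h : ∃ N, ∀ k ≥ N, g k = 0) : ∃ C, ∀ k, |g k| ≤ C := by
  obtain ⟨N, hN⟩ := h
  refine ⟨∑ k ∈ Finset.range N, |g k|, fun k => ?_⟩
  by_cases hk : k < N
  · exact Finset.single_le_sum (f := fun k => |g k|) (fun _ _ => abs_nonneg _)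
      (Finset.mem_range.2 hk)
  · rw [hN k (not_lt.1 hk), abs_zero]
    exact Finset.sum_nonneg fun _ _ => abs_nonneg _

noncomputable def Dx (t ε : ℝ) : X := mk (dd t ε)

lemma Dx_un {t ε : ℝ} (h : Valid t ε) (k : ℕ) : (Dx t ε).1 (un k) = dd t ε k :=
  mk_un (bounded_of_finite (dd_finite h)) k

lemma eq_zero_of_finite {f : X} (h : ∃ N, ∀ k ≥ N, f.1 (un k) = 0) {q : StoneCech ℕ}
    (hq : q ∉ range un) : f.1 q = 0 := by
  obtain ⟨N, hN⟩ := h
  set F : Set (StoneCech ℕ) := un '' {k | k < N} with hF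
  have hFc : IsClosed F := ((Set.finite_lt_nat N).image _).isClosed
  have hqO : q ∈ Fᶜ := fun ⟨k, _, hk⟩ => hq ⟨k, hk⟩
  have hcl : IsClosed {q | f.1 q = 0} := isClosed_eq f.2 continuous_const
  refine (closure_minimal ?_ hcl) (dense_un.open_subset_closure_inter hFc.isOpen_compl hqO)
  rintro _ ⟨h1, n, rfl⟩
  apply hN
  by_contra h2
  exact h1 ⟨n, not_le.1 h2, rfl⟩

lemma Dx_free {t ε : ℝ} (h : Valid t ε) {q : StoneCech ℕ} (hq : q ∉ range un) :
    (Dx t ε).1 q = 0 := by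
  apply eq_zero_of_finite _ hq
  obtain ⟨N, hN⟩ := dd_finite h
  exact ⟨N, fun k hk => by rw [Dx_un h, hN k hk]⟩

lemma continuous_add_Dx {Z : Type*} [TopologicalSpace Z] {f : Z → X} {t ε : Z → ℝ} (a : ℝ)
    (hf : Continuous f) (ht : Continuous t) (hε : Continuous ε) (hv : ∀ z, Valid (t z) (ε z)) :
    Continuous fun z => comb 1 a (f z) (Dx (t z) (ε z)) := by
  apply continuous_X
  intro q
  by_cases hq : q ∈ range un
  · obtain ⟨k, rfl⟩ := hq
    simp only [comb_val, Dx_un (hv _), dd]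
    exact (continuous_const.mul ((continuous_ev _).comp hf)).add (continuous_const.mul
      (((continuous_gk k).comp (ht.min hε)).sub ((continuous_gk k).comp hε)))
  · simp only [comb_val, Dx_free (hv _) hq]
    exact (continuous_const.mul ((continuous_ev _).comp hf)).add continuous_const

/-- weights -/
noncomputable def wt (k : ℕ) : ℝ := (1 / 4) ^ (k + 1)

lemma wt_pos (k : ℕ) : 0 < wt k := by unfold wt; positivity

lemma summable_wt : Summable wt := by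
  have : wt = fun k => (1 / 4 : ℝ) * (1 / 4) ^ k := by
    funext k; unfold wt; rw [pow_succ]; ring
  rw [this]
  exact (summable_geometric_of_lt_one (by norm_num) (by norm_num)).mul_left _

lemma tsum_wt : ∑' k, wt k ≤ 1 := by
  have : wt = fun k => (1 / 4 : ℝ) * (1 / 4) ^ k := by
    funext k; unfold wt; rw [pow_succ]; ring
  rw [this, tsum_mul_left, tsum_geometric_of_lt_one (by norm_num) (by norm_num)]
  norm_num

/-- weighted sums of truncated quantities -/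
noncomputable def ws (φ : ℝ → ℝ) (a : ℕ → ℝ) : ℝ := ∑' k, wt k * φ (a k)

lemma ws_term_le {φ : ℝ → ℝ} (h0 : ∀ v, 0 ≤ φ v) (h1 : ∀ v, φ v ≤ 1) (a : ℕ → ℝ) (k : ℕ) :
    ‖wt k * φ (a k)‖ ≤ wt k := by
  rw [Real.norm_of_nonneg (mul_nonneg (wt_pos k).le (h0 _))]
  nlinarith [wt_pos k, h1 (a k)]

lemma summable_ws {φ : ℝ → ℝ} (h0 : ∀ v, 0 ≤ φ v) (h1 : ∀ v, φ v ≤ 1) (a : ℕ → ℝ) :
    Summable fun k => wt k * φ (a k) :=
  Summable.of_norm_bounded summable_wt (ws_term_le h0 h1 a)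

lemma ws_nonneg {φ : ℝ → ℝ} (h0 : ∀ v, 0 ≤ φ v) (a : ℕ → ℝ) : 0 ≤ ws φ a :=
  tsum_nonneg fun k => mul_nonneg (wt_pos k).le (h0 _)

lemma ws_eq_zero {φ : ℝ → ℝ} (h0 : ∀ v, 0 ≤ φ v) (h1 : ∀ v, φ v ≤ 1) {a : ℕ → ℝ} :
    ws φ a = 0 ↔ ∀ k, φ (a k) = 0 := by
  constructor
  · intro h k
    have h2 : wt k * φ (a k) ≤ ws φ a :=
      (summable_ws h0 h1 a).le_tsum k fun j _ => mul_nonneg (wt_pos j).le (h0 _)
    rw [h] at h2
    have h3 := wt_pos k
    have h4 := h0 (a k)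
    by_contra h5
    have : 0 < φ (a k) := lt_of_le_of_ne h4 (Ne.symm h5)
    nlinarith [mul_pos h3 this]
  · intro h
    unfold ws
    simp [h]

lemma continuous_ws {φ : ℝ → ℝ} (hφ : Continuous φ) (h0 : ∀ v, 0 ≤ φ v) (h1 : ∀ v, φ v ≤ 1) :
    Continuous (ws φ) := by
  unfold ws
  refine continuous_tsum (fun k => ?_) summable_wt (fun k a => ws_term_le h0 h1 a k)
  exact continuous_const.mul (hφ.comp (continuous_apply k))

lemma ws_lip {φ : ℝ → ℝ} (h0 : ∀ v, 0 ≤ φ v) (h1 : ∀ v, φ v ≤ 1)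
    (hl : ∀ u v, |φ u - φ v| ≤ |u - v|) {a b : ℕ → ℝ} {r : ℝ}
    (h : ∀ k, |a k - b k| ≤ 3 ^ k / 2 * r) : |ws φ a - ws φ b| ≤ 1 / 2 * r := by
  unfold ws
  rw [← (summable_ws h0 h1 a).tsum_sub (summable_ws h0 h1 b), ← Real.norm_eq_abs]
  have hs : HasSum (fun k : ℕ => (r / 8) * (3 / 4 : ℝ) ^ k) ((r / 8) * (1 - 3 / 4)⁻¹) :=
    (hasSum_geometric_of_lt_one (by norm_num) (by norm_num)).mul_left _
  refine (tsum_of_norm_bounded hs fun k => ?_).trans (le_of_eq (by norm_num; ring))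
  rw [← mul_sub, norm_mul, Real.norm_of_nonneg (wt_pos k).le, Real.norm_eq_abs]
  calc wt k * |φ (a k) - φ (b k)| ≤ wt k * (3 ^ k / 2 * r) :=
        mul_le_mul_of_nonneg_left ((hl _ _).trans (h k)) (wt_pos k).le
    _ = (r / 8) * (3 / 4 : ℝ) ^ k := by
        unfold wt
        rw [div_pow, div_pow, pow_succ]
        field_simp
        ring

/-- excess over one -/
noncomputable def ex (v : ℝ) : ℝ := min 1 (max 0 (|v| - 1))

lemma ex_nonneg (v : ℝ) : 0 ≤ ex v := le_min zero_le_one (le_max_left _ _)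
lemma ex_le_one (v : ℝ) : ex v ≤ 1 := min_le_left _ _
lemma continuous_ex : Continuous ex := by unfold ex; fun_prop

lemma ex_eq_zero {v : ℝ} : ex v = 0 ↔ |v| ≤ 1 := by
  unfold ex
  constructor
  · intro h
    by_contra h2
    push Not at h2
    have : 0 < min 1 (max 0 (|v| - 1)) :=
      lt_min one_pos (lt_of_lt_of_le (by linarith) (le_max_right _ _))
    linarith
  · intro h
    rw [max_eq_left (by linarith)]
    exact min_eq_right zero_le_one

lemma ex_lip (u v : ℝ) : |ex u - ex v| ≤ |u - v| := by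
  unfold ex
  have h1 : |min 1 (max 0 (|u| - 1)) - min 1 (max 0 (|v| - 1))| ≤
      |max 0 (|u| - 1) - max 0 (|v| - 1)| := by
    simpa using abs_min_sub_min_le_max (1 : ℝ) (max 0 (|u| - 1)) 1 (max 0 (|v| - 1))
  have h2 : |max 0 (|u| - 1) - max 0 (|v| - 1)| ≤ |(|u| - 1) - (|v| - 1)| := by
    simpa using abs_max_sub_max_le_max (0 : ℝ) (|u| - 1) 0 (|v| - 1)
  have h3 : |(|u| - 1) - (|v| - 1)| ≤ |u - v| := by
    rw [sub_sub_sub_cancel_right]
    exact abs_abs_sub_abs_le u v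
  exact h1.trans (h2.trans h3)

/-- the map whose fixed point is wanted -/
noncomputable def TT (a : ℕ → ℝ) (ε t : ℝ) : ℝ := ws ex fun k => a k - dd t ε k

lemma TT_lip (a : ℕ → ℝ) (ε s t : ℝ) : |TT a ε s - TT a ε t| ≤ 1 / 2 * |s - t| := by
  unfold TT
  refine ws_lip ex_nonneg ex_le_one ex_lip fun k => ?_
  unfold dd
  rw [show a k - (gk k (min s ε) - gk k ε) - (a k - (gk k (min t ε) - gk k ε)) =
    gk k (min t ε) - gk k (min s ε) by ring]
  refine (gk_lip k _ _).trans (mul_le_mul_of_nonneg_left ?_ (by positivity))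
  rw [abs_sub_comm s t]
  simpa using abs_min_sub_min_le_max t ε s ε

lemma TT_contr (a : ℕ → ℝ) (ε : ℝ) : ContractingWith (1 / 2) (TT a ε) := by
  constructor
  · rw [← NNReal.coe_lt_coe]; norm_num
  · apply LipschitzWith.of_dist_le_mul
    intro s t
    rw [Real.dist_eq, Real.dist_eq]
    simpa using TT_lip a ε s t

noncomputable def fp (a : ℕ → ℝ) (ε : ℝ) : ℝ := (TT_contr a ε).fixedPoint

lemma TT_fp (a : ℕ → ℝ) (ε : ℝ) : TT a ε (fp a ε) = fp a ε :=
  (TT_contr a ε).fixedPoint_isFixedPt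

lemma fp_unique {a : ℕ → ℝ} {ε t : ℝ} (h : TT a ε t = t) : fp a ε = t :=
  ((TT_contr a ε).fixedPoint_unique h).symm

lemma fp_nonneg (a : ℕ → ℝ) (ε : ℝ) : 0 ≤ fp a ε := by
  rw [← TT_fp]
  exact ws_nonneg ex_nonneg _

lemma continuous_fp {Z : Type*} [TopologicalSpace Z] {a : Z → ℕ → ℝ} {ε : Z → ℝ}
    (ha : Continuous a) (hε : Continuous ε) : Continuous fun z => fp (a z) (ε z) := by
  rw [continuous_iff_continuousAt]
  intro z0
  have hc : Continuous fun z => TT (a z) (ε z) (fp (a z0) (ε z0)) := by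
    refine (continuous_ws continuous_ex ex_nonneg ex_le_one).comp (continuous_pi fun k => ?_)
    exact ((continuous_apply k).comp ha).sub
      (((continuous_gk k).comp (continuous_const.min hε)).sub ((continuous_gk k).comp hε))
  have h1 : ∀ z, |fp (a z) (ε z) - fp (a z0) (ε z0)| ≤
      2 * |TT (a z) (ε z) (fp (a z0) (ε z0)) - fp (a z0) (ε z0)| := by
    intro z
    have h2 := TT_lip (a z) (ε z) (fp (a z) (ε z)) (fp (a z0) (ε z0))
    rw [TT_fp] at h2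
    have h3 := abs_sub_le (fp (a z) (ε z)) (TT (a z) (ε z) (fp (a z0) (ε z0)))
      (fp (a z0) (ε z0))
    linarith
  rw [ContinuousAt, tendsto_iff_dist_tendsto_zero]
  have h4 : Tendsto (fun z => 2 * |TT (a z) (ε z) (fp (a z0) (ε z0)) - fp (a z0) (ε z0)|)
      (𝓝 z0) (𝓝 0) := by
    have h5 : Continuous fun z => 2 * |TT (a z) (ε z) (fp (a z0) (ε z0)) - fp (a z0) (ε z0)| :=
      continuous_const.mul (hc.sub continuous_const).abs
    have h6 := h5.tendsto z0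
    simp only [TT_fp, sub_self, abs_zero, mul_zero] at h6
    exact h6
  exact squeeze_zero (fun _ => dist_nonneg) (fun z => by rw [Real.dist_eq]; exact h1 z) h4

end Pool.Agent.CPZ
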