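import Pool.Agent.CPZ.K1

set_option autoImplicit false

open Set Filter Topology

namespace Pool.Agent.CPZ

/-- values on the integers -/
def un' (f : X) : ℕ → ℝ := fun k => f.1 (un k)

lemma continuous_un' : Continuous un' := continuous_pi fun _ => continuous_ev _

noncomputable def del (f : X) : ℝ := ws ex (un' f)

lemma del_nonneg (f : X) : 0 ≤ del f := ws_nonneg ex_nonneg _

lemma continuous_del : Continuous del :=
  (continuous_ws continuous_ex ex_nonneg ex_le_one).comp continuous_un'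

lemma del_eq_zero {f : X} (h : ∀ q, |f.1 q| ≤ 1) : del f = 0 :=
  (ws_eq_zero ex_nonneg ex_le_one).2 fun _ => ex_eq_zero.2 (h _)

/-- truncated absolute value -/
noncomputable def ta (v : ℝ) : ℝ := min 1 |v|

lemma ta_nonneg (v : ℝ) : 0 ≤ ta v := le_min zero_le_one (abs_nonneg _)
lemma ta_le_one (v : ℝ) : ta v ≤ 1 := min_le_left _ _
lemma continuous_ta : Continuous ta := by unfold ta; fun_prop

lemma ta_eq_zero {v : ℝ} (h : ta v = 0) : v = 0 := by
  by_contra h2
  have : 0 < ta v := lt_min one_pos (abs_pos.2 h2)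
  linarith

noncomputable def eps (r : X) : ℝ := ws ta (un' r)

lemma eps_nonneg (r : X) : 0 ≤ eps r := ws_nonneg ta_nonneg _

lemma continuous_eps : Continuous eps :=
  (continuous_ws continuous_ta ta_nonneg ta_le_one).comp continuous_un'

lemma eps_zero : eps 0 = 0 := by
  apply (ws_eq_zero ta_nonneg ta_le_one).2
  intro k
  simp [un', zero_val, ta]

lemma eps_eq_zero {r : X} (h : eps r = 0) : r = 0 := by
  apply X_ext
  intro k
  exact ta_eq_zero ((ws_eq_zero ta_nonneg ta_le_one).1 h k)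

lemma valid_fp (g : X) {ε : ℝ} (hε : 0 ≤ ε) : Valid (fp (un' g) ε) ε := by
  refine ⟨fp_nonneg _ _, hε, fun h => ?_⟩
  by_contra h2
  have hε' : 0 < ε := lt_of_le_of_ne hε (Ne.symm h2)
  have h3 := TT_fp (un' g) ε
  rw [h] at h3
  have h4 := (ws_eq_zero ex_nonneg ex_le_one).1 h3
  obtain ⟨N, hN⟩ := exists_gk_zero hε'
  obtain ⟨C, hC⟩ := exists_bound g
  obtain ⟨n, hn⟩ := pow_unbounded_of_one_lt (2 * (C + 1)) (show (1 : ℝ) < 2 by norm_num)
  have hk : (2 : ℝ) ^ n ≤ 2 ^ (max N n) := pow_le_pow_right₀ (by norm_num) (le_max_right _ _)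
  have h5 := ex_eq_zero.1 (h4 (max N n))
  unfold dd at h5
  rw [min_eq_left hε, gk_zero, hN _ (le_max_left _ _), sub_zero] at h5
  have h6 := hC (un (max N n))
  have h7 : un' g (max N n) = g.1 (un (max N n)) := rfl
  rw [h7] at h5
  have h8 := abs_le.1 h5
  have h9 := abs_le.1 h6
  linarith

lemma comb_un' (a : ℝ) (f : X) {t ε : ℝ} (h : Valid t ε) (k : ℕ) :
    un' (comb 1 a f (Dx t ε)) k = un' f k + a * dd t ε k := by
  unfold un'
  rw [comb_val, Dx_un h, one_mul]

lemma comb_comb (a : ℝ) (f g : X) : comb 1 (-a) (comb 1 a f g) g = f := by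
  apply Subtype.ext
  funext q
  simp only [comb_val]
  ring

lemma comb_comb' (f g : X) : comb 1 1 (comb 1 (-1) f g) g = f := by
  apply Subtype.ext
  funext q
  simp only [comb_val]
  ring

abbrev E : Type := X × (ℕ → X)

noncomputable def Kf (p : E) : E × X :=
  ((comb 1 1 p.1 (Dx (del p.1) (eps (Lb (del p.1) p.2).2)), (Lb (del p.1) p.2).1),
    (Lb (del p.1) p.2).2)

noncomputable def Kg (p : E × X) : E :=
  (comb 1 (-1) p.1.1 (Dx (fp (un' p.1.1) (eps p.2)) (eps p.2)),
    Lbi (fp (un' p.1.1) (eps p.2)) (p.1.2, p.2))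

lemma valid_f (p : E) : Valid (del p.1) (eps (Lb (del p.1) p.2).2) := by
  refine ⟨del_nonneg _, eps_nonneg _, fun h => ?_⟩
  rw [h, Lb_zero]
  exact eps_zero

lemma valid_g (p : E × X) : Valid (fp (un' p.1.1) (eps p.2)) (eps p.2) :=
  valid_fp _ (eps_nonneg _)

lemma fp_f (p : E) : fp (un' (Kf p).1.1) (eps (Kf p).2) = del p.1 := by
  apply fp_unique
  unfold TT del
  congr 1
  funext k
  show un' (comb 1 1 p.1 (Dx (del p.1) (eps (Lb (del p.1) p.2).2))) k -
    dd (del p.1) (eps (Lb (del p.1) p.2).2) k = _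
  rw [comb_un' 1 p.1 (valid_f p)]
  ring

lemma del_g (p : E × X) : del (Kg p).1 = fp (un' p.1.1) (eps p.2) := by
  rw [← TT_fp]
  unfold TT del
  congr 1
  funext k
  show un' (comb 1 (-1) p.1.1 (Dx (fp (un' p.1.1) (eps p.2)) (eps p.2))) k = _
  rw [comb_un' (-1) p.1.1 (valid_g p)]
  ring

lemma Kg_Kf (p : E) : Kg (Kf p) = p := by
  unfold Kg
  rw [fp_f]
  apply Prod.ext
  · exact comb_comb 1 _ _
  · exact Lbi_Lb (del_nonneg _) _

lemma Kf_Kg (p : E × X) : Kf (Kg p) = p := by
  have h1 : Lb (del (Kg p).1) (Kg p).2 = (p.1.2, p.2) := by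
    rw [del_g]
    apply Lb_Lbi (fp_nonneg _ _)
    intro h
    exact eps_eq_zero ((valid_g p).2.2 h)
  unfold Kf
  rw [h1, del_g]
  apply Prod.ext
  · apply Prod.ext
    · exact comb_comb' _ _
    · rfl
  · rfl

/-- the homeomorphism which is the identity on the unit ball -/
noncomputable def K : E ≃ₜ E × X where
  toFun := Kf
  invFun := Kg
  left_inv := Kg_Kf
  right_inv := Kf_Kg
  continuous_toFun := by
    have h1 : Continuous fun p : E => del p.1 := continuous_del.comp continuous_fst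
    have h2 : Continuous fun p : E => Lb (del p.1) p.2 :=
      continuous_Lb h1 continuous_snd fun p => del_nonneg _
    have h3 : Continuous fun p : E => (Lb (del p.1) p.2).2 := continuous_snd.comp h2
    exact ((continuous_add_Dx 1 continuous_fst h1 (continuous_eps.comp h3) valid_f).prodMk
      (continuous_fst.comp h2)).prodMk h3
  continuous_invFun := by
    have h0 : Continuous fun p : E × X => p.1.1 := continuous_fst.comp continuous_fst
    have h1 : Continuous fun p : E × X => eps p.2 := continuous_eps.comp continuous_snd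
    have h2 : Continuous fun p : E × X => fp (un' p.1.1) (eps p.2) :=
      continuous_fp (continuous_un'.comp h0) h1
    refine (continuous_add_Dx (-1) h0 h2 h1 valid_g).prodMk ?_
    refine continuous_Lbi h2 ((continuous_snd.comp continuous_fst).prodMk continuous_snd)
      (fun p => fp_nonneg _ _) ?_
    intro p h
    exact eps_eq_zero ((valid_g p).2.2 h)

lemma K_ball (p : E) (h : ∀ q, |p.1.1 q| ≤ 1) : K p = (p, 0) := by
  show Kf p = _
  unfold Kf
  rw [del_eq_zero h, Lb_zero]
  simp only [eps_zero]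
  refine Prod.ext (Prod.ext ?_ rfl) rfl
  show comb 1 1 p.1 (Dx 0 0) = p.1
  have hv : Valid 0 0 := ⟨le_refl _, le_refl _, fun _ => rfl⟩
  apply X_ext
  intro n
  rw [comb_val, Dx_un hv, dd_zero (le_refl _)]
  ring

lemma K_finite (p : E) : {l | (K p).1.2 l ≠ p.2 l}.Finite := Lb_finite _ _

lemma K_symm_ball (p : E) (h : ∀ q, |p.1.1 q| ≤ 1) : K.symm (p, 0) = p := by
  rw [← K_ball p h, Homeomorph.symm_apply_apply]

lemma K_symm_finite (p : E × X) : {l | (K.symm p).2 l ≠ p.1.2 l}.Finite :=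
  Lbi_finite _ (p.1.2, p.2)

end Pool.Agent.CPZ
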