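import Pool.Agent.CPZ.U

set_option autoImplicit false

open Set Filter Topology

namespace Pool.Agent.CPZ

/-- states with values in function space -/
abbrev StX : Type := (ℕ → X) × X

/-- values at a point -/
def vl (p : StX) (x : StoneCech ℕ) : St := (fun j => (p.1 j).1 x, p.2.1 x)

lemma continuous_vl (p : StX) : Continuous (vl p) :=
  (continuous_pi fun j => (p.1 j).2).prodMk p.2.2

lemma continuous_vl' {Z : Type*} [TopologicalSpace Z] {p : Z → StX} (hp : Continuous p)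
    (x : StoneCech ℕ) : Continuous fun z => vl (p z) x :=
  (continuous_pi fun j => (continuous_ev x).comp ((continuous_apply j).comp
    (continuous_fst.comp hp))).prodMk ((continuous_ev x).comp (continuous_snd.comp hp))

lemma vl_ext {p r : StX} (h : ∀ x, vl p x = vl r x) : p = r := by
  apply Prod.ext
  · funext j
    apply Subtype.ext
    funext x
    exact congrFun (congrArg Prod.fst (h x)) j
  · apply Subtype.ext
    funext x
    exact congrArg Prod.snd (h x)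

lemma continuous_StX {Z : Type*} [TopologicalSpace Z] {p : Z → StX}
    (h : ∀ x, Continuous fun z => vl (p z) x) : Continuous p :=
  Continuous.prodMk
    (continuous_pi fun j => continuous_X fun x => (continuous_apply j).comp
      (continuous_fst.comp (h x)))
    (continuous_X fun x => continuous_snd.comp (h x))

/-- lift of a numerical map -/
def lift (T : St → St) (hT : Continuous T) (p : StX) : StX :=
  (fun j => ⟨fun x => (T (vl p x)).1 j, (continuous_apply j).comp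
    (continuous_fst.comp (hT.comp (continuous_vl p)))⟩,
   ⟨fun x => (T (vl p x)).2, continuous_snd.comp (hT.comp (continuous_vl p))⟩)

lemma vl_lift (T : St → St) (hT : Continuous T) (p : StX) (x : StoneCech ℕ) :
    vl (lift T hT p) x = T (vl p x) := rfl

lemma cont_q (m : ℕ) {t : ℝ} (ht : 0 < t) : Continuous (q m t) :=
  continuous_q m continuous_const continuous_id fun _ => ht

lemma cont_qi (m : ℕ) {t : ℝ} (ht : 0 < t) : Continuous (qi m t) :=
  continuous_qi m continuous_const continuous_id fun _ => ht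

open Classical in
/-- lifted chain with time t (junk for nonpositive time) -/
noncomputable def qX (m : ℕ) (t : ℝ) (p : StX) : StX :=
  if h : 0 < t then lift (q m t) (cont_q m h) p else p

open Classical in
noncomputable def qiX (m : ℕ) (t : ℝ) (p : StX) : StX :=
  if h : 0 < t then lift (qi m t) (cont_qi m h) p else p

lemma vl_qX (m : ℕ) {t : ℝ} (h : 0 < t) (p : StX) (x : StoneCech ℕ) :
    vl (qX m t p) x = q m t (vl p x) := by
  unfold qX
  rw [dif_pos h]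
  rfl

lemma vl_qiX (m : ℕ) {t : ℝ} (h : 0 < t) (p : StX) (x : StoneCech ℕ) :
    vl (qiX m t p) x = qi m t (vl p x) := by
  unfold qiX
  rw [dif_pos h]
  rfl

lemma qiX_qX (m : ℕ) {t : ℝ} (h : 0 < t) (p : StX) : qiX m t (qX m t p) = p := by
  apply vl_ext
  intro x
  rw [vl_qiX _ h, vl_qX _ h, qi_q _ h]

lemma qX_qiX (m : ℕ) {t : ℝ} (h : 0 < t) (p : StX) : qX m t (qiX m t p) = p := by
  apply vl_ext
  intro x
  rw [vl_qX _ h, vl_qiX _ h, q_qi _ h]

/-- the family of homeomorphisms -/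
noncomputable def LL (m : ℕ) (t : ℝ) (x : ℕ → X) : StX := qX m t (Ui m t x)

noncomputable def LLi (m : ℕ) (t : ℝ) (p : StX) : ℕ → X := U m t (qiX m t p)

lemma LLi_LL (m : ℕ) {t : ℝ} (h : 0 < t) (x : ℕ → X) : LLi m t (LL m t x) = x := by
  unfold LLi LL
  rw [qiX_qX _ h, U_Ui]

lemma LL_LLi (m : ℕ) {t : ℝ} (h : 0 < t) (p : StX) : LL m t (LLi m t p) = p := by
  unfold LLi LL
  rw [Ui_U, qX_qiX _ h]

lemma LL_loc {m l : ℕ} {t : ℝ} (h : 0 < t) (x : ℕ → X) (hl : m < l) : (LL m t x).1 l = x l := by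
  apply Subtype.ext
  funext w
  have h1 := vl_qX m h (Ui m t x) w
  have h2 : ((LL m t x).1 l).1 w = (q m t (vl (Ui m t x) w)).1 l := by
    rw [← h1]; rfl
  rw [h2, q_loc h _ hl.le]
  show ((Ui m t x).1 l).1 w = _
  rw [Ui_loc t x hl]

lemma LLi_loc {m l : ℕ} {t : ℝ} (h : 0 < t) (p : StX) (hl : m < l) : LLi m t p l = p.1 l := by
  apply Subtype.ext
  funext w
  show (U m t (qiX m t p) l).1 w = _
  rw [U_loc t _ hl]
  have h1 := vl_qiX m h p w
  have h2 : ((qiX m t p).1 l).1 w = (qi m t (vl p w)).1 l := by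
    rw [← h1]; rfl
  rw [h2, qi_loc h _ hl.le]
  rfl

lemma LL_stab {m n : ℕ} {t : ℝ} (h0 : 0 < t) (h : t ≤ m) (hn : m ≤ n) (x : ℕ → X) :
    LL n t x = LL m t x := by
  unfold LL
  rw [Ui_stab' h hn]
  apply vl_ext
  intro w
  rw [vl_qX _ h0, vl_qX _ h0, q_stab h hn]

lemma LLi_stab {m n : ℕ} {t : ℝ} (h0 : 0 < t) (h : t ≤ m) (hn : m ≤ n) (p : StX) :
    LLi n t p = LLi m t p := by
  unfold LLi
  rw [U_stab' h hn]
  congr 1
  apply vl_ext
  intro w
  rw [vl_qiX _ h0, vl_qiX _ h0, qi_stab h hn]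

lemma continuous_LL (m : ℕ) {Z : Type*} [TopologicalSpace Z] {t : Z → ℝ} {x : Z → (ℕ → X)}
    (ht : Continuous t) (hx : Continuous x) (h0 : ∀ z, 0 < t z) :
    Continuous fun z => LL m (t z) (x z) := by
  apply continuous_StX
  intro w
  have : (fun z => vl (LL m (t z) (x z)) w) = fun z => q m (t z) (vl (Ui m (t z) (x z)) w) := by
    funext z
    exact vl_qX m (h0 z) _ _
  rw [this]
  exact continuous_q m ht (continuous_vl' (continuous_Ui m ht hx) w) h0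

lemma continuous_LLi (m : ℕ) {Z : Type*} [TopologicalSpace Z] {t : Z → ℝ} {p : Z → StX}
    (ht : Continuous t) (hp : Continuous p) (h0 : ∀ z, 0 < t z) :
    Continuous fun z => LLi m (t z) (p z) := by
  have : Continuous fun z => qiX m (t z) (p z) := by
    apply continuous_StX
    intro w
    have : (fun z => vl (qiX m (t z) (p z)) w) = fun z => qi m (t z) (vl (p z) w) := by
      funext z
      exact vl_qiX m (h0 z) _ _
    rw [this]
    exact continuous_qi m ht (continuous_vl' hp w) h0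
  exact continuous_U m ht this

/-- forward limit property -/
lemma LL_fwd {L : ℕ} {m : ℕ} (hm : L + 1 ≤ m) {t : ℝ} (ht : (L + 1 : ℕ) ≤ t) (x : ℕ → X)
    (w : StoneCech ℕ) (h1 : ∀ l ≤ L, |(x l).1 w| ≤ t / 2) :
    (∀ l < L, ((LL m t x).1 l).1 w = (x l).1 w) ∧ |(LL m t x).2.1 w| ≤ 3 / 4 ^ L := by
  have ht0 : 0 < t := lt_of_lt_of_le (by positivity) ht
  have h2 := vl_qX m ht0 (Ui m t x) w
  have hU : ∀ l ≤ L, (Ui m t x).1 l = x l := by
    intro l hl
    apply Ui_near x (by omega)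
    refine le_trans ?_ ht
    push_cast
    have : (l : ℝ) ≤ L := by exact_mod_cast hl
    linarith
  obtain ⟨h3, h4⟩ := q_fwd hm ht (vl (Ui m t x) w) (by
    intro l hl
    show |((Ui m t x).1 l).1 w| ≤ _
    rw [hU l hl]
    exact h1 l hl)
  rw [← h2] at h3 h4
  refine ⟨fun l hl => ?_, h4⟩
  have h5 : ((LL m t x).1 l).1 w = ((Ui m t x).1 l).1 w := h3 l hl
  rw [h5, hU l hl.le]

/-- backward limit property -/
lemma LLi_bwd {L : ℕ} {m : ℕ} (hm : L + 1 ≤ m) {t : ℝ} (ht : (L + 1 : ℕ) ≤ t) (p : StX)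
    (w : StoneCech ℕ) (h1 : ∀ l ≤ L, |(p.1 l).1 w| ≤ t / 2) (h2 : |p.2.1 w| ≤ 2 / 4 ^ (L + 1)) :
    ∀ l < L, (LLi m t p l).1 w = (p.1 l).1 w := by
  have ht0 : 0 < t := lt_of_lt_of_le (by positivity) ht
  have h3 := q_bwd hm ht (vl p w) h1 h2
  rw [← vl_qiX m ht0 p w] at h3
  intro l hl
  show (U m t (qiX m t p) l).1 w = _
  rw [U_near _ (by omega)]
  · exact h3 l hl
  · refine le_trans ?_ ht
    push_cast
    have : (l : ℝ) ≤ L := by exact_mod_cast hl.le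
    linarith

/-- parameter s = 1/t in the unit interval -/
noncomputable def Lb (s : ℝ) (x : ℕ → X) : StX :=
  if s ≤ 0 then (x, 0) else LL (⌈s⁻¹⌉₊ + 1) s⁻¹ x

noncomputable def Lbi (s : ℝ) (p : StX) : ℕ → X :=
  if s ≤ 0 then p.1 else LLi (⌈s⁻¹⌉₊ + 1) s⁻¹ p

lemma Lb_zero (x : ℕ → X) : Lb 0 x = (x, 0) := by simp [Lb]

lemma Lbi_zero (p : StX) : Lbi 0 p = p.1 := by simp [Lbi]

lemma Lb_pos {s : ℝ} (h : 0 < s) {M : ℕ} (hM : s⁻¹ ≤ M) (x : ℕ → X) :
    Lb s x = LL M s⁻¹ x := by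
  unfold Lb
  rw [if_neg (by linarith)]
  have h1 : s⁻¹ ≤ (⌈s⁻¹⌉₊ : ℕ) := Nat.le_ceil _
  have h2 : ⌈s⁻¹⌉₊ ≤ M := Nat.ceil_le.2 hM
  rw [LL_stab (inv_pos.2 h) h1 (Nat.le_succ _), LL_stab (inv_pos.2 h) h1 h2]

lemma Lbi_pos {s : ℝ} (h : 0 < s) {M : ℕ} (hM : s⁻¹ ≤ M) (p : StX) :
    Lbi s p = LLi M s⁻¹ p := by
  unfold Lbi
  rw [if_neg (by linarith)]
  have h1 : s⁻¹ ≤ (⌈s⁻¹⌉₊ : ℕ) := Nat.le_ceil _
  have h2 : ⌈s⁻¹⌉₊ ≤ M := Nat.ceil_le.2 hM
  rw [LLi_stab (inv_pos.2 h) h1 (Nat.le_succ _), LLi_stab (inv_pos.2 h) h1 h2]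

lemma Lbi_Lb {s : ℝ} (h : 0 ≤ s) (x : ℕ → X) : Lbi s (Lb s x) = x := by
  rcases h.eq_or_lt with h | h
  · rw [← h, Lb_zero, Lbi_zero]
  · rw [Lb_pos h (Nat.le_ceil _), Lbi_pos h (Nat.le_ceil _), LLi_LL _ (inv_pos.2 h)]

lemma Lb_Lbi {s : ℝ} (h : 0 ≤ s) (p : StX) (hp : s = 0 → p.2 = 0) : Lb s (Lbi s p) = p := by
  rcases h.eq_or_lt with h | h
  · rw [← h, Lbi_zero, Lb_zero, ← hp h.symm]
  · rw [Lbi_pos h (Nat.le_ceil _), Lb_pos h (Nat.le_ceil _), LL_LLi _ (inv_pos.2 h)]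

lemma Lb_finite (s : ℝ) (x : ℕ → X) : {l | (Lb s x).1 l ≠ x l}.Finite := by
  rcases le_or_gt s 0 with h | h
  · convert Set.finite_empty
    ext l
    simp [Lb, h]
  · refine (Set.finite_le_nat ⌈s⁻¹⌉₊).subset ?_
    intro l hl
    by_contra h2
    apply hl
    rw [Lb_pos h (Nat.le_ceil _), LL_loc (inv_pos.2 h)]
    simpa using h2

lemma Lbi_finite (s : ℝ) (p : StX) : {l | Lbi s p l ≠ p.1 l}.Finite := by
  rcases le_or_gt s 0 with h | h
  · convert Set.finite_empty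
    ext l
    simp [Lbi, h]
  · refine (Set.finite_le_nat ⌈s⁻¹⌉₊).subset ?_
    intro l hl
    by_contra h2
    apply hl
    rw [Lbi_pos h (Nat.le_ceil _), LLi_loc (inv_pos.2 h)]
    simpa using h2

lemma Lb_fwd {L : ℕ} {s : ℝ} (hs0 : 0 ≤ s) (hs : s * (L + 1) ≤ 1) (x : ℕ → X)
    (w : StoneCech ℕ) (h1 : ∀ l ≤ L, |(x l).1 w| * s ≤ 1 / 2) :
    (∀ l < L, ((Lb s x).1 l).1 w = (x l).1 w) ∧ |(Lb s x).2.1 w| ≤ 3 / 4 ^ L := by
  rcases hs0.eq_or_lt with h | h
  · rw [← h, Lb_zero]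
    refine ⟨fun _ _ => rfl, ?_⟩
    simp only [zero_val, abs_zero]
    positivity
  · have ht : ((L + 1 : ℕ) : ℝ) ≤ s⁻¹ := by
      rw [le_inv_comm₀ (by positivity) h]
      rw [le_inv_comm₀ h (by positivity)]
      push_cast
      rw [← one_div, le_div_iff₀ h]
      linarith
    unfold Lb
    rw [if_neg (by linarith)]
    apply LL_fwd _ ht
    · intro l hl
      rw [le_div_iff₀ two_pos, ← one_div, le_div_iff₀ h]
      have := h1 l hl
      linarith
    · have h3 : ((L + 1 : ℕ) : ℝ) ≤ (⌈s⁻¹⌉₊ : ℕ) := ht.trans (Nat.le_ceil _)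
      have h4 : L + 1 ≤ ⌈s⁻¹⌉₊ := by exact_mod_cast h3
      omega

lemma Lbi_bwd {L : ℕ} {s : ℝ} (hs0 : 0 ≤ s) (hs : s * (L + 1) ≤ 1) (p : StX)
    (w : StoneCech ℕ) (h1 : ∀ l ≤ L, |(p.1 l).1 w| * s ≤ 1 / 2)
    (h2 : |p.2.1 w| ≤ 2 / 4 ^ (L + 1)) :
    ∀ l < L, (Lbi s p l).1 w = (p.1 l).1 w := by
  rcases hs0.eq_or_lt with h | h
  · rw [← h, Lbi_zero]
    intro l _
    rfl
  · have ht : ((L + 1 : ℕ) : ℝ) ≤ s⁻¹ := by
      push_cast
      rw [← one_div, le_div_iff₀ h]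
      linarith
    unfold Lbi
    rw [if_neg (by linarith)]
    apply LLi_bwd _ ht _ _ _ h2
    · have h3 : ((L + 1 : ℕ) : ℝ) ≤ (⌈s⁻¹⌉₊ : ℕ) := ht.trans (Nat.le_ceil _)
      have h4 : L + 1 ≤ ⌈s⁻¹⌉₊ := by exact_mod_cast h3
      omega
    · intro l hl
      rw [le_div_iff₀ two_pos, ← one_div, le_div_iff₀ h]
      have := h1 l hl
      linarith

end Pool.Agent.CPZ
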