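import Pool.Agent.CPZ.L

set_option autoImplicit false

open Set Filter Topology

namespace Pool.Agent.CPZ

lemma tendsto_X {Z : Type*} {F : Z → X} {l : Filter Z} {f : X} :
    Tendsto F l (𝓝 f) ↔ ∀ w, Tendsto (fun z => (F z).1 w) l (𝓝 (f.1 w)) := by
  rw [tendsto_subtype_rng, tendsto_pi_nhds]

lemma ev_small {Z : Type*} [TopologicalSpace Z] {s : Z → ℝ} {x : Z → (ℕ → X)}
    (hs : Continuous s) (hx : Continuous x) {z0 : Z} (h : s z0 = 0) (L : ℕ) (w : StoneCech ℕ) :
    ∀ᶠ z in 𝓝 z0, s z * (L + 1) ≤ 1 ∧ ∀ l ≤ L, |(x z l).1 w| * s z ≤ 1 / 2 := by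
  have h1 : ∀ᶠ z in 𝓝 z0, s z * (L + 1) < 1 := by
    have hc : Continuous fun z => s z * ((L : ℝ) + 1) := hs.mul continuous_const
    exact (hc.tendsto z0).eventually_lt_const (by simp [h])
  have h2 : ∀ l ∈ {l | l ≤ L}, ∀ᶠ z in 𝓝 z0, |(x z l).1 w| * s z < 1 / 2 := by
    intro l _
    have hc : Continuous fun z => |(x z l).1 w| * s z :=
      (((continuous_ev w).comp ((continuous_apply l).comp hx)).abs).mul hs
    exact (hc.tendsto z0).eventually_lt_const (by simp [h])
  have h3 := (Filter.eventually_all_finite (Set.finite_le_nat L)).2 h2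
  filter_upwards [h1, h3] with z hz1 hz2
  exact ⟨hz1.le, fun l hl => (hz2 l hl).le⟩

lemma exists_pow_lt (ε : ℝ) (h : 0 < ε) : ∃ L : ℕ, (3 : ℝ) / 4 ^ L < ε := by
  obtain ⟨L, hL⟩ := exists_pow_lt_of_lt_one (show 0 < ε / 3 by positivity)
    (show (1 / 4 : ℝ) < 1 by norm_num)
  refine ⟨L, ?_⟩
  rw [div_lt_iff₀ (by positivity)]
  rw [one_div, inv_pow, ← one_div, div_lt_iff₀ (by positivity)] at hL
  linarith

theorem continuous_Lb {Z : Type*} [TopologicalSpace Z] {s : Z → ℝ} {x : Z → (ℕ → X)}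
    (hs : Continuous s) (hx : Continuous x) (h0 : ∀ z, 0 ≤ s z) :
    Continuous fun z => Lb (s z) (x z) := by
  rw [continuous_iff_continuousAt]
  intro z0
  rcases (h0 z0).eq_or_lt with h | h
  · rw [ContinuousAt, ← h, Lb_zero]
    refine Tendsto.prodMk_nhds ?_ ?_
    · rw [tendsto_pi_nhds]
      intro l
      rw [tendsto_X]
      intro w
      have h1 : Tendsto (fun z => (x z l).1 w) (𝓝 z0) (𝓝 ((x z0 l).1 w)) :=
        ((continuous_ev w).comp ((continuous_apply l).comp hx)).tendsto z0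
      refine h1.congr' ?_
      filter_upwards [ev_small hs hx h.symm (l + 1) w] with z hz
      exact ((Lb_fwd (h0 z) hz.1 (x z) w hz.2).1 l (by omega)).symm
    · rw [tendsto_X]
      intro w
      rw [zero_val, Metric.tendsto_nhds]
      intro ε hε
      obtain ⟨L, hL⟩ := exists_pow_lt ε hε
      filter_upwards [ev_small hs hx h.symm L w] with z hz
      rw [Real.dist_eq, sub_zero]
      exact (Lb_fwd (h0 z) hz.1 (x z) w hz.2).2.trans_lt hL
  · set c := s z0 / 2 with hc
    have hc0 : 0 < c := by positivity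
    have h1 : Continuous fun z => LL ⌈c⁻¹⌉₊ (max (s z) c)⁻¹ (x z) := by
      apply continuous_LL _ _ hx
      · intro z
        exact inv_pos.2 (lt_of_lt_of_le hc0 (le_max_right _ _))
      · exact (hs.max continuous_const).inv₀ fun z => (lt_of_lt_of_le hc0 (le_max_right _ _)).ne'
    refine (h1.continuousAt (x := z0)).congr ?_
    have h2 : ∀ᶠ z in 𝓝 z0, c < s z :=
      (hs.tendsto z0).eventually_const_lt (by rw [hc]; linarith)
    filter_upwards [h2] with z hz
    rw [max_eq_left hz.le, Lb_pos (hc0.trans hz)]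
    exact le_trans (inv_anti₀ hc0 hz.le) (Nat.le_ceil _)

theorem continuous_Lbi {Z : Type*} [TopologicalSpace Z] {s : Z → ℝ} {p : Z → StX}
    (hs : Continuous s) (hp : Continuous p) (h0 : ∀ z, 0 ≤ s z)
    (hsp : ∀ z, s z = 0 → (p z).2 = 0) :
    Continuous fun z => Lbi (s z) (p z) := by
  rw [continuous_iff_continuousAt]
  intro z0
  rcases (h0 z0).eq_or_lt with h | h
  · rw [ContinuousAt, ← h, Lbi_zero]
    rw [tendsto_pi_nhds]
    intro l
    rw [tendsto_X]
    intro w
    have hp1 : Continuous fun z => (p z).1 := continuous_fst.comp hp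
    have h1 : Tendsto (fun z => ((p z).1 l).1 w) (𝓝 z0) (𝓝 (((p z0).1 l).1 w)) :=
      ((continuous_ev w).comp ((continuous_apply l).comp hp1)).tendsto z0
    refine h1.congr' ?_
    have h2 : ∀ᶠ z in 𝓝 z0, |(p z).2.1 w| < 2 / 4 ^ (l + 1 + 1) := by
      have hc : Continuous fun z => |(p z).2.1 w| :=
        ((continuous_ev w).comp (continuous_snd.comp hp)).abs
      refine (hc.tendsto z0).eventually_lt_const ?_
      rw [hsp z0 h.symm, zero_val, abs_zero]
      positivity
    filter_upwards [ev_small hs hp1 h.symm (l + 1) w, h2] with z hz hz2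
    exact (Lbi_bwd (h0 z) hz.1 (p z) w hz.2 hz2.le l (by omega)).symm
  · set c := s z0 / 2 with hc
    have hc0 : 0 < c := by positivity
    have h1 : Continuous fun z => LLi ⌈c⁻¹⌉₊ (max (s z) c)⁻¹ (p z) := by
      apply continuous_LLi _ _ hp
      · intro z
        exact inv_pos.2 (lt_of_lt_of_le hc0 (le_max_right _ _))
      · exact (hs.max continuous_const).inv₀ fun z => (lt_of_lt_of_le hc0 (le_max_right _ _)).ne'
    refine (h1.continuousAt (x := z0)).congr ?_
    have h2 : ∀ᶠ z in 𝓝 z0, c < s z :=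
      (hs.tendsto z0).eventually_const_lt (by rw [hc]; linarith)
    filter_upwards [h2] with z hz
    rw [max_eq_left hz.le, Lbi_pos (hc0.trans hz)]
    exact le_trans (inv_anti₀ hc0 hz.le) (Nat.le_ceil _)

end Pool.Agent.CPZ
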