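import Mathlib

set_option autoImplicit false

open Set Filter Topology

namespace Pool.Agent.CPZ

/-- continuous real functions on the compactification, pointwise topology -/
abbrev X : Type := {f : StoneCech ℕ → ℝ // Continuous f}

instance : Zero X := ⟨⟨fun _ => 0, continuous_const⟩⟩

lemma zero_val (q : StoneCech ℕ) : (0 : X).1 q = 0 := rfl

/-- the weak product (finitely supported sequences, product topology) -/
abbrev W : Type := {r : ℕ → X // ∃ M, ∀ m ≥ M, r m = 0}

/-- the weak product of copies of the product with the line -/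
abbrev W' : Type := {r : ℕ → ℝ × X // ∃ M, ∀ m ≥ M, r m = 0}

abbrev un : ℕ → StoneCech ℕ := stoneCechUnit

lemma dense_un : DenseRange un := denseRange_stoneCechUnit

lemma X_ext {f g : X} (h : ∀ n, f.1 (un n) = g.1 (un n)) : f = g := by
  apply Subtype.ext
  exact dense_un.equalizer f.2 g.2 (funext h)

lemma exists_bound (f : X) : ∃ C, ∀ q, |f.1 q| ≤ C := by
  have h : IsCompact (range f.1) := isCompact_range f.2
  obtain ⟨C, hC⟩ := h.isBounded.exists_norm_le
  exact ⟨C, fun q => hC _ ⟨q, rfl⟩⟩

lemma bound_of_dense {f : X} {C : ℝ} (h : ∀ n, |f.1 (un n)| ≤ C) (q : StoneCech ℕ) :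
    |f.1 q| ≤ C := by
  have hc : IsClosed {q | |f.1 q| ≤ C} := isClosed_le (continuous_abs.comp f.2) continuous_const
  have : (univ : Set (StoneCech ℕ)) ⊆ {q | |f.1 q| ≤ C} := by
    rw [← dense_un.closure_range]
    exact closure_minimal (by rintro _ ⟨n, rfl⟩; exact h n) hc
  exact this (mem_univ q)

lemma exists_extend (g : ℕ → ℝ) (h : ∃ C, ∀ n, |g n| ≤ C) : ∃ f : X, ∀ n, f.1 (un n) = g n := by
  obtain ⟨C, hC⟩ := h
  let g' : ℕ → Icc (-C) C := fun n => ⟨g n, abs_le.mp (hC n)⟩
  have hg' : Continuous g' := continuous_of_discreteTopology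
  have he := congrFun (stoneCechExtend_extends hg')
  let E : StoneCech ℕ → Icc (-C) C := stoneCechExtend hg'
  have hE : Continuous E := continuous_stoneCechExtend hg'
  refine ⟨⟨fun q => (E q).1, continuous_subtype_val.comp hE⟩, fun n => ?_⟩
  have h2 : E (un n) = g' n := he n
  show (E (un n)).1 = g n
  rw [h2]

open Classical in
/-- the element with given values on the integers (junk if unbounded) -/
noncomputable def mk (g : ℕ → ℝ) : X :=
  if h : ∃ C, ∀ n, |g n| ≤ C then (exists_extend g h).choose else ⟨fun _ => 0, continuous_const⟩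

lemma mk_un {g : ℕ → ℝ} (h : ∃ C, ∀ n, |g n| ≤ C) (n : ℕ) : (mk g).1 (un n) = g n := by
  unfold mk
  rw [dif_pos h]
  exact (exists_extend g h).choose_spec n

lemma continuous_X {Z : Type*} [TopologicalSpace Z] {F : Z → X}
    (h : ∀ q, Continuous fun z => (F z).1 q) : Continuous F :=
  Continuous.subtype_mk (continuous_pi h) _

lemma continuous_ev (q : StoneCech ℕ) : Continuous fun f : X => f.1 q :=
  (continuous_apply q).comp continuous_subtype_val

/-- extension of a map of integers -/
noncomputable def bmap (s : ℕ → ℕ) : StoneCech ℕ → StoneCech ℕ :=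
  stoneCechExtend (g := fun n => un (s n)) continuous_of_discreteTopology

lemma continuous_bmap (s : ℕ → ℕ) : Continuous (bmap s) := continuous_stoneCechExtend _

lemma bmap_un (s : ℕ → ℕ) (n : ℕ) : bmap s (un n) = un (s n) :=
  congrFun (stoneCechExtend_extends (g := fun n => un (s n)) continuous_of_discreteTopology) n

lemma isClosed_range_bmap (s : ℕ → ℕ) : IsClosed (range (bmap s)) :=
  (isCompact_range (continuous_bmap s)).isClosed

variable {I : Type*} (e : I × ℕ ≃ ℕ)

/-- the i-th column -/
noncomputable def col (i : I) (f : X) : X :=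
  ⟨fun q => f.1 (bmap (fun n => e (i, n)) q), f.2.comp (continuous_bmap _)⟩

lemma continuous_col (i : I) : Continuous (col e i) :=
  continuous_X fun _ => continuous_ev _

lemma col_un (i : I) (f : X) (n : ℕ) : (col e i f).1 (un n) = f.1 (un (e (i, n))) := by
  show f.1 (bmap (fun n => e (i, n)) (un n)) = _
  rw [bmap_un]

lemma col_ext {f g : X} (h : ∀ i, col e i f = col e i g) : f = g := by
  apply X_ext
  intro n
  have h1 := congrArg (fun x : X => x.1 (un (e.symm n).2)) (h (e.symm n).1)
  simp only [col_un] at h1
  simpa using h1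

/-- values at points outside a finite union of columns -/
lemma eq_of_finite {f g : X} (hfin : {i | col e i f ≠ col e i g}.Finite) {q : StoneCech ℕ}
    (hq : ∀ i, q ∉ range (bmap (fun n => e (i, n)))) : f.1 q = g.1 q := by
  set F := {i | col e i f ≠ col e i g} with hF
  set O : Set (StoneCech ℕ) := (⋃ i ∈ F, range (bmap (fun n => e (i, n))))ᶜ with hO
  have hOo : IsOpen O := by
    rw [hO, isOpen_compl_iff]
    exact hfin.isClosed_biUnion fun i _ => isClosed_range_bmap _
  have hqO : q ∈ O := by
    simp only [hO, mem_compl_iff, mem_iUnion, not_exists]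
    exact fun i _ => hq i
  have hcl : IsClosed {q | f.1 q = g.1 q} := isClosed_eq f.2 g.2
  have hmem : q ∈ closure (O ∩ range un) :=
    dense_un.open_subset_closure_inter hOo hqO
  refine (closure_minimal ?_ hcl) hmem
  rintro _ ⟨h1, n, rfl⟩
  have hi : (e.symm n).1 ∉ F := by
    intro hi
    apply h1
    simp only [mem_iUnion]
    refine ⟨_, hi, un (e.symm n).2, ?_⟩
    rw [bmap_un]
    simp
  have h2 : col e (e.symm n).1 f = col e (e.symm n).1 g := by
    by_contra h
    exact hi h
  have h1 := congrArg (fun x : X => x.1 (un (e.symm n).2)) h2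
  simp only [col_un] at h1
  simpa using h1

/-- the only topological lemma: continuity of maps which change finitely many columns -/
lemma continuous_of_col {Z : Type*} [TopologicalSpace Z] {F G : Z → X} (hG : Continuous G)
    (hF : ∀ i, Continuous fun z => col e i (F z))
    (hfin : ∀ z, {i | col e i (F z) ≠ col e i (G z)}.Finite) : Continuous F := by
  apply continuous_X
  intro q
  by_cases hq : ∃ i, q ∈ range (bmap (fun n => e (i, n)))
  · obtain ⟨i, q', rfl⟩ := hq
    exact (continuous_ev q').comp (hF i)
  · push Not at hq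
    have : (fun z => (F z).1 q) = fun z => (G z).1 q := by
      funext z
      exact eq_of_finite e (hfin z) hq
    rw [this]
    exact (continuous_ev q).comp hG

/-- bounded families -/
def Bdd (x : I → X) : Prop := ∃ C, ∀ i q, |(x i).1 q| ≤ C

lemma Bdd.of_finite {x y : I → X} (hx : Bdd x) (h : {i | y i ≠ x i}.Finite) : Bdd y := by
  obtain ⟨C, hC⟩ := hx
  choose D hD using fun i => exists_bound (y i)
  obtain ⟨M, hM⟩ : ∃ M, ∀ i ∈ {i | y i ≠ x i}, D i ≤ M := by
    obtain ⟨M, hM⟩ := (h.image D).bddAbove
    exact ⟨M, fun i hi => hM ⟨i, hi, rfl⟩⟩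
  refine ⟨max C M, fun i q => ?_⟩
  by_cases hi : y i = x i
  · rw [hi]; exact (hC i q).trans (le_max_left _ _)
  · exact (hD i q).trans ((hM i hi).trans (le_max_right _ _))

lemma bdd_col (f : X) : Bdd fun i => col e i f := by
  obtain ⟨C, hC⟩ := exists_bound f
  exact ⟨C, fun i q => hC _⟩

/-- the element with given columns -/
noncomputable def glue (x : I → X) : X := mk fun n => (x (e.symm n).1).1 (un (e.symm n).2)

lemma col_glue {x : I → X} (hx : Bdd x) (i : I) : col e i (glue e x) = x i := by
  apply X_ext
  intro n
  obtain ⟨C, hC⟩ := hx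
  rw [col_un, glue, mk_un ⟨C, fun n => hC _ _⟩]
  simp

lemma glue_col (f : X) : glue e (fun i => col e i f) = f := by
  apply col_ext e
  intro i
  exact col_glue e (bdd_col e f) i

include e in
/-- gluing lemma -/
theorem glueHomeo {Y : Type*} [TopologicalSpace Y] (Φ : (I → X) ≃ₜ (I → X) × Y) (S : Set Y)
    (h1 : ∀ x, Bdd x → (Φ x).2 ∈ S ∧ {i | (Φ x).1 i ≠ x i}.Finite)
    (h2 : ∀ x y, Bdd x → y ∈ S → {i | (Φ.symm (x, y)) i ≠ x i}.Finite) :
    Nonempty (X ≃ₜ X × S) := by
  have hc : Continuous fun f : X => fun i => col e i f := continuous_pi fun i => continuous_col e i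
  refine ⟨{
    toFun := fun f => (glue e (Φ fun i => col e i f).1,
      ⟨(Φ fun i => col e i f).2, (h1 _ (bdd_col e f)).1⟩)
    invFun := fun p => glue e (Φ.symm (fun i => col e i p.1, p.2.1))
    left_inv := ?_
    right_inv := ?_
    continuous_toFun := ?_
    continuous_invFun := ?_ }⟩
  · intro f
    have hb := (bdd_col e f).of_finite (h1 _ (bdd_col e f)).2
    have : (fun i => col e i (glue e (Φ fun i => col e i f).1)) = (Φ fun i => col e i f).1 :=
      funext fun i => col_glue e hb i
    simp only [this]
    simp [glue_col]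
  · rintro ⟨g, y, hy⟩
    have hb := (bdd_col e g).of_finite (h2 _ y (bdd_col e g) hy)
    have : (fun i => col e i (glue e (Φ.symm (fun i => col e i g, y))))
        = Φ.symm (fun i => col e i g, y) :=
      funext fun i => col_glue e hb i
    simp only [this]
    apply Prod.ext
    · simp [glue_col]
    · apply Subtype.ext
      simp
  · refine Continuous.prodMk ?_ ?_
    · refine continuous_of_col e (G := fun f => f) continuous_id ?_ ?_
      · intro i
        have : (fun f => col e i (glue e (Φ fun i => col e i f).1)) =
            fun f => (Φ fun i => col e i f).1 i := by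
          funext f
          exact col_glue e ((bdd_col e f).of_finite (h1 _ (bdd_col e f)).2) i
        rw [this]
        exact (continuous_apply i).comp (continuous_fst.comp (Φ.continuous.comp hc))
      · intro f
        refine (h1 _ (bdd_col e f)).2.subset ?_
        intro i hi
        have hb := (bdd_col e f).of_finite (h1 _ (bdd_col e f)).2
        simp only [Set.mem_ofPred_eq] at hi
        rwa [col_glue e hb i] at hi
    · exact Continuous.subtype_mk (continuous_snd.comp (Φ.continuous.comp hc)) _
  · have hc2 : Continuous fun p : X × S => Φ.symm (fun i => col e i p.1, p.2.1) :=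
      Φ.symm.continuous.comp ((hc.comp continuous_fst).prodMk
        (continuous_subtype_val.comp continuous_snd))
    refine continuous_of_col e (G := fun p => p.1) continuous_fst ?_ ?_
    · intro i
      have : (fun p : X × S => col e i (glue e (Φ.symm (fun i => col e i p.1, p.2.1)))) =
          fun p => (Φ.symm (fun i => col e i p.1, p.2.1)) i := by
        funext p
        exact col_glue e ((bdd_col e p.1).of_finite (h2 _ p.2.1 (bdd_col e p.1) p.2.2)) i
      rw [this]
      exact (continuous_apply i).comp hc2
    · intro p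
      refine (h2 _ p.2.1 (bdd_col e p.1) p.2.2).subset ?_
      intro i hi
      have hb := (bdd_col e p.1).of_finite (h2 _ p.2.1 (bdd_col e p.1) p.2.2)
      simp only [Set.mem_ofPred_eq] at hi
      rwa [col_glue e hb i] at hi

end Pool.Agent.CPZ
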