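import Mathlib

set_option autoImplicit false

open Set Filter Topology

namespace Pool.Agent.CPZ

/-- the unit complex number with argument phi -/
noncomputable def ee (φ : ℝ) : ℂ := Complex.exp (φ * Complex.I)

lemma norm_ee (φ : ℝ) : ‖ee φ‖ = 1 := Complex.norm_exp_ofReal_mul_I φ

lemma ee_add (a b : ℝ) : ee (a + b) = ee a * ee b := by
  unfold ee
  rw [← Complex.exp_add]
  push_cast
  ring_nf

lemma ee_zero : ee 0 = 1 := by simp [ee]

lemma ee_mul_neg (a : ℝ) : ee a * ee (-a) = 1 := by rw [← ee_add]; simp [ee_zero]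

lemma ee_neg_mul (a : ℝ) : ee (-a) * ee a = 1 := by rw [← ee_add]; simp [ee_zero]

lemma ee_neg_half_pi : ee (-(Real.pi / 2)) = -Complex.I := by
  unfold ee
  apply Complex.ext
  · simp [Complex.exp_re]
  · simp [Complex.exp_im]

lemma continuous_ee : Continuous ee := by
  unfold ee
  fun_prop

/-- radial factor -/
noncomputable def rf (k : ℝ) (z : ℂ) : ℝ := 1 + (k - 1) * (1 - (max 1 ‖z‖)⁻¹)

lemma rf_norm {k : ℝ} {z w : ℂ} (h : ‖z‖ = ‖w‖) : rf k z = rf k w := by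
  unfold rf; rw [h]

lemma rf_small {k : ℝ} {z : ℂ} (h : ‖z‖ ≤ 1) : rf k z = 1 := by
  unfold rf; rw [max_eq_left h]; simp

lemma rf_mul_norm {k : ℝ} {z : ℂ} (h : 1 ≤ ‖z‖) : rf k z * ‖z‖ = 1 + k * (‖z‖ - 1) := by
  unfold rf; rw [max_eq_right h]
  have : ‖z‖ ≠ 0 := by positivity
  field_simp
  ring

lemma one_le_rf {k : ℝ} (hk : 1 ≤ k) (z : ℂ) : 1 ≤ rf k z := by
  unfold rf
  have h1 : (max 1 ‖z‖)⁻¹ ≤ 1 := inv_le_one_of_one_le₀ (le_max_left _ _)
  nlinarith [mul_nonneg (sub_nonneg.2 hk) (sub_nonneg.2 h1)]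

lemma rf_le {k : ℝ} (hk : 1 ≤ k) (z : ℂ) : rf k z ≤ k := by
  unfold rf
  have h1 : 0 ≤ (max 1 ‖z‖)⁻¹ := by positivity
  nlinarith [mul_nonneg (sub_nonneg.2 hk) h1]

lemma rf_pos {k : ℝ} (hk : 0 < k) (z : ℂ) : 0 < rf k z := by
  unfold rf
  have h1 : (max 1 ‖z‖)⁻¹ ≤ 1 := inv_le_one_of_one_le₀ (le_max_left _ _)
  have h0 : 0 < (max 1 ‖z‖)⁻¹ := by positivity
  nlinarith [mul_nonneg hk.le (sub_nonneg.2 h1)]

/-- radial stretching -/
noncomputable def sc (k : ℝ) (z : ℂ) : ℂ := (rf k z : ℂ) * z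

lemma norm_sc {k : ℝ} (hk : 0 < k) (z : ℂ) : ‖sc k z‖ = rf k z * ‖z‖ := by
  unfold sc
  rw [norm_mul, Complex.norm_real, Real.norm_of_nonneg (rf_pos hk z).le]

lemma sc_small {k : ℝ} {z : ℂ} (h : ‖z‖ ≤ 1) : sc k z = z := by
  unfold sc; rw [rf_small h]; simp

lemma sc_inv {k : ℝ} (hk : 0 < k) (z : ℂ) : sc k⁻¹ (sc k z) = z := by
  rcases le_total ‖z‖ 1 with h | h
  · rw [sc_small h, sc_small h]
  · have h1 : ‖sc k z‖ = 1 + k * (‖z‖ - 1) := by rw [norm_sc hk, rf_mul_norm h]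
    have h2 : 1 ≤ ‖sc k z‖ := by
      rw [h1]; nlinarith [mul_nonneg hk.le (sub_nonneg.2 h)]
    have h3 := rf_mul_norm (k := k⁻¹) h2
    have h4 : k⁻¹ * (‖sc k z‖ - 1) = ‖z‖ - 1 := by
      rw [h1]; field_simp; ring
    rw [h4, norm_sc hk] at h3
    have h5 : (rf k⁻¹ (sc k z) * rf k z - 1) * ‖z‖ = 0 := by linarith
    have h6 : rf k⁻¹ (sc k z) * rf k z = 1 := by
      rcases mul_eq_zero.1 h5 with h7 | h7
      · linarith
      · exfalso; linarith
    show (rf k⁻¹ (sc k z) : ℂ) * ((rf k z : ℂ) * z) = z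
    rw [← mul_assoc, ← Complex.ofReal_mul, h6]
    simp

lemma sc_inv' {k : ℝ} (hk : 0 < k) (z : ℂ) : sc k (sc k⁻¹ z) = z := by
  have := sc_inv (inv_pos.2 hk) z
  rwa [inv_inv] at this

/-- angle profile -/
noncomputable def aa (ρ : ℝ) : ℝ := max 0 (min 1 (ρ - 2))

lemma aa_small {ρ : ℝ} (h : ρ ≤ 2) : aa ρ = 0 := by
  unfold aa
  exact max_eq_left ((min_le_right _ _).trans (by linarith))

lemma aa_big {ρ : ℝ} (h : 3 ≤ ρ) : aa ρ = 1 := by
  unfold aa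
  rw [min_eq_left (by linarith)]; simp

/-- the twist -/
noncomputable def Om (θ : ℝ) (z : ℂ) : ℂ :=
  sc (1 + 3 * θ) (z * ee (-(θ * (Real.pi / 2) * aa ‖z‖)))

noncomputable def Om' (θ : ℝ) (w : ℂ) : ℂ :=
  sc (1 + 3 * θ)⁻¹ w * ee (θ * (Real.pi / 2) * aa ‖sc (1 + 3 * θ)⁻¹ w‖)

noncomputable def rh (θ : ℝ) (z : ℂ) : ℂ := z * ee (-(θ * (Real.pi / 2)))

noncomputable def rh' (θ : ℝ) (z : ℂ) : ℂ := z * ee (θ * (Real.pi / 2))

lemma rh_rh' (θ : ℝ) (z : ℂ) : rh θ (rh' θ z) = z := by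
  unfold rh rh'
  rw [mul_assoc, ee_mul_neg, mul_one]

lemma rh'_rh (θ : ℝ) (z : ℂ) : rh' θ (rh θ z) = z := by
  unfold rh rh'
  rw [mul_assoc, ee_neg_mul, mul_one]

lemma norm_rh (θ : ℝ) (z : ℂ) : ‖rh θ z‖ = ‖z‖ := by
  unfold rh; rw [norm_mul, norm_ee, mul_one]

lemma norm_rh' (θ : ℝ) (z : ℂ) : ‖rh' θ z‖ = ‖z‖ := by
  unfold rh'; rw [norm_mul, norm_ee, mul_one]

lemma norm_mul_ee (z : ℂ) (φ : ℝ) : ‖z * ee φ‖ = ‖z‖ := by
  rw [norm_mul, norm_ee, mul_one]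

lemma Om'_Om {θ : ℝ} (hθ : 0 ≤ θ) (z : ℂ) : Om' θ (Om θ z) = z := by
  unfold Om' Om
  rw [sc_inv (by positivity), norm_mul_ee, mul_assoc, ee_neg_mul, mul_one]

lemma Om_Om' {θ : ℝ} (hθ : 0 ≤ θ) (w : ℂ) : Om θ (Om' θ w) = w := by
  unfold Om' Om
  rw [norm_mul_ee, mul_assoc, ee_mul_neg, mul_one, sc_inv' (by positivity)]

lemma Om_zero (z : ℂ) : Om 0 z = z := by
  unfold Om
  simp only [zero_mul, neg_zero, ee_zero, mul_one, mul_zero, add_zero]
  unfold sc rf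
  simp

lemma Om_small {θ : ℝ} {z : ℂ} (h : ‖z‖ ≤ 1) : Om θ z = z := by
  unfold Om
  rw [aa_small (by linarith)]
  simp only [mul_zero, neg_zero, ee_zero, mul_one]
  exact sc_small h

lemma norm_Om {θ : ℝ} (hθ : 0 ≤ θ) (z : ℂ) : ‖Om θ z‖ = rf (1 + 3 * θ) z * ‖z‖ := by
  unfold Om
  rw [norm_sc (by positivity), norm_mul_ee, rf_norm (norm_mul_ee z _)]

lemma Om_big {θ : ℝ} {z : ℂ} (h : 3 ≤ ‖z‖) :
    Om θ z = (rf (1 + 3 * θ) z : ℂ) * rh θ z := by
  unfold Om rh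
  rw [aa_big h, mul_one]
  unfold sc
  rw [rf_norm (norm_mul_ee z _)]

lemma norm_Om_le {θ : ℝ} (hθ : 0 ≤ θ) {z : ℂ} (h : ‖z‖ ≤ 3) : ‖Om θ z‖ ≤ (1 + 3 * θ) * 3 := by
  rw [norm_Om hθ]
  have h1 := rf_le (k := 1 + 3 * θ) (by linarith) z
  have h2 := one_le_rf (k := 1 + 3 * θ) (by linarith) z
  exact mul_le_mul h1 h (norm_nonneg _) (by linarith)

lemma re_real_mul (r : ℝ) (z : ℂ) : ((r : ℂ) * z).re = r * z.re := by simp

lemma im_real_mul (r : ℝ) (z : ℂ) : ((r : ℂ) * z).im = r * z.im := by simp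

lemma rh_one (z : ℂ) : rh 1 z = ⟨z.im, -z.re⟩ := by
  unfold rh
  rw [one_mul, ee_neg_half_pi]
  apply Complex.ext <;> simp

/-- forward estimate, step -/
lemma im_step {θ B : ℝ} (hθ : 0 ≤ θ) (hB : 3 ≤ B) {z : ℂ} (h : |z.im| ≤ B) :
    |(Om θ (rh' θ z)).im| ≤ (1 + 3 * θ) * B := by
  rcases le_total 3 ‖z‖ with h3 | h3
  · rw [Om_big (by rwa [norm_rh']), rh_rh', im_real_mul, abs_mul]
    have h1 := rf_le (k := 1 + 3 * θ) (by linarith) (rh' θ z)
    have h2 := one_le_rf (k := 1 + 3 * θ) (by linarith) (rh' θ z)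
    rw [abs_of_nonneg (by linarith)]
    exact mul_le_mul h1 h (abs_nonneg _) (by linarith)
  · refine (Complex.abs_im_le_norm _).trans ((norm_Om_le hθ (by rwa [norm_rh'])).trans ?_)
    exact mul_le_mul_of_nonneg_left hB (by linarith)

/-- forward estimate, base -/
lemma im_base {z : ℂ} (h : |z.re| ≤ 1 / 2) : |(Om 1 z).im| ≤ 12 := by
  rcases le_total 3 ‖z‖ with h3 | h3
  · rw [Om_big h3, im_real_mul, abs_mul, rh_one]
    have h1 := rf_le (k := 1 + 3 * 1) (by norm_num) z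
    have h2 := one_le_rf (k := 1 + 3 * 1) (by norm_num) z
    rw [abs_of_nonneg (by linarith)]
    have h4 : |(⟨z.im, -z.re⟩ : ℂ).im| ≤ 1 / 2 := by simpa using h
    calc rf (1 + 3 * 1) z * |(⟨z.im, -z.re⟩ : ℂ).im| ≤ (1 + 3 * 1) * (1 / 2) :=
          mul_le_mul h1 h4 (abs_nonneg _) (by norm_num)
      _ ≤ 12 := by norm_num
  · refine (Complex.abs_im_le_norm _).trans ((norm_Om_le (by norm_num) h3).trans ?_)
    norm_num

/-- backward estimate, step -/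
lemma im_back {θ : ℝ} (hθ : 0 ≤ θ) (w : ℂ) :
    |(rh θ (Om' θ w)).im| - 1 ≤ max 2 ((|w.im| - 1) / (1 + 3 * θ)) := by
  set z := Om' θ w with hz
  have hw : Om θ z = w := Om_Om' hθ w
  rcases le_total 3 ‖z‖ with h3 | h3
  · apply le_max_of_le_right
    have hk : (0 : ℝ) < 1 + 3 * θ := by linarith
    have h1 : w = (rf (1 + 3 * θ) z : ℂ) * rh θ z := by rw [← hw, Om_big h3]
    have h2 : |w.im| = rf (1 + 3 * θ) z * |(rh θ z).im| := by
      rw [h1, im_real_mul, abs_mul, abs_of_pos (rf_pos hk z)]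
    have h4 : rf (1 + 3 * θ) z * ‖z‖ = 1 + (1 + 3 * θ) * (‖z‖ - 1) := rf_mul_norm (by linarith)
    have h5 : |(rh θ z).im| ≤ ‖z‖ := (Complex.abs_im_le_norm _).trans (norm_rh θ z).le
    set f := rf (1 + 3 * θ) z with hf
    set a := |(rh θ z).im| with ha
    set k := 1 + 3 * θ with hkd
    rw [le_div_iff₀ hk, h2]
    have hf0 : 0 < f := rf_pos hk z
    -- (a-1) k ≤ f a - 1,  f ‖z‖ = 1 + k(‖z‖-1)
    have ha0 : 0 ≤ a := abs_nonneg _
    have hn : 0 < ‖z‖ := by linarith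
    have hkf : f ≤ k := rf_le (by linarith) z
    have : (k - f) * a ≤ (k - f) * ‖z‖ := mul_le_mul_of_nonneg_left h5 (by linarith)
    nlinarith
  · apply le_max_of_le_left
    have : |(rh θ z).im| ≤ ‖z‖ := (Complex.abs_im_le_norm _).trans (norm_rh θ z).le
    linarith

/-- backward estimate, base -/
lemma re_base {w : ℂ} (h1 : |w.re| ≤ 1 / 2) (h2 : |w.im| ≤ 3) : |(Om' 1 w).re| ≤ 1 / 2 := by
  have hk : (0 : ℝ) < (1 + 3 * 1 : ℝ)⁻¹ := by norm_num
  have hw : ‖w‖ ≤ 4 := by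
    refine (Complex.norm_le_abs_re_add_abs_im w).trans ?_
    linarith
  have h3 : ‖sc (1 + 3 * 1)⁻¹ w‖ ≤ 2 := by
    rw [norm_sc hk]
    rcases le_total ‖w‖ 1 with h | h
    · rw [rf_small h]; linarith
    · rw [rf_mul_norm h]; norm_num; linarith
  unfold Om'
  rw [aa_small h3]
  simp only [mul_zero, ee_zero, mul_one]
  unfold sc
  have hr : rf (1 + 3 * 1)⁻¹ w ≤ 1 := by
    unfold rf
    have h1 : (max 1 ‖w‖)⁻¹ ≤ 1 := inv_le_one_of_one_le₀ (le_max_left _ _)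
    norm_num at hk ⊢
    linarith
  simp only [mul_one] at hr hk ⊢
  rw [re_real_mul, abs_mul, abs_of_pos (rf_pos hk w)]
  calc rf (1 + 3)⁻¹ w * |w.re| ≤ 1 * (1 / 2) := mul_le_mul hr h1 (abs_nonneg _) zero_le_one
    _ = 1 / 2 := by norm_num

lemma continuous_rf : Continuous fun p : ℝ × ℂ => rf p.1 p.2 := by
  unfold rf
  refine continuous_const.add ((continuous_fst.sub continuous_const).mul
    (continuous_const.sub (Continuous.inv₀ (continuous_const.max continuous_snd.norm) ?_)))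
  intro p
  exact (lt_of_lt_of_le one_pos (le_max_left _ _)).ne'

lemma continuous_sc : Continuous fun p : ℝ × ℂ => sc p.1 p.2 := by
  unfold sc
  exact (Complex.continuous_ofReal.comp continuous_rf).mul continuous_snd

lemma continuous_aa : Continuous aa := by
  unfold aa
  fun_prop

lemma continuous_Om : Continuous fun p : ℝ × ℂ => Om p.1 p.2 := by
  unfold Om
  refine continuous_sc.comp (Continuous.prodMk (by fun_prop) (continuous_snd.mul ?_))
  exact continuous_ee.comp (((continuous_fst.mul continuous_const).mul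
    (continuous_aa.comp continuous_snd.norm)).neg)

lemma continuous_rh : Continuous fun p : ℝ × ℂ => rh p.1 p.2 := by
  unfold rh
  exact continuous_snd.mul (continuous_ee.comp (continuous_fst.mul continuous_const).neg)

lemma continuous_rh' : Continuous fun p : ℝ × ℂ => rh' p.1 p.2 := by
  unfold rh'
  exact continuous_snd.mul (continuous_ee.comp (continuous_fst.mul continuous_const))

/-- clamp of the time -/
noncomputable def th (m : ℕ) (t : ℝ) : ℝ := max 0 (min 1 (t - m))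

lemma th_nonneg (m : ℕ) (t : ℝ) : 0 ≤ th m t := le_max_left _ _

lemma th_le_one (m : ℕ) (t : ℝ) : th m t ≤ 1 := max_le zero_le_one (min_le_left _ _)

lemma th_eq_zero {m : ℕ} {t : ℝ} (h : t ≤ m) : th m t = 0 := by
  unfold th
  exact max_eq_left ((min_le_right _ _).trans (by linarith))

lemma th_eq_one {m : ℕ} {t : ℝ} (h : m + 1 ≤ t) : th m t = 1 := by
  unfold th
  rw [min_eq_left (by linarith)]; simp

lemma continuous_th (m : ℕ) : Continuous (th m) := by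
  unfold th
  fun_prop

lemma continuous_Om'_comp {Z : Type*} [TopologicalSpace Z] {θ : Z → ℝ} {w : Z → ℂ}
    (hθ : Continuous θ) (hw : Continuous w) (h0 : ∀ z, 0 ≤ θ z) :
    Continuous fun z => Om' (θ z) (w z) := by
  have h1 : Continuous fun z => (1 + 3 * θ z)⁻¹ := by
    refine Continuous.inv₀ (by fun_prop) ?_
    intro z
    have := h0 z
    positivity
  have h2 : Continuous fun z => sc (1 + 3 * θ z)⁻¹ (w z) := continuous_sc.comp (h1.prodMk hw)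
  unfold Om'
  exact h2.mul (continuous_ee.comp ((hθ.mul continuous_const).mul (continuous_aa.comp h2.norm)))

lemma rh_zero (z : ℂ) : rh 0 z = z := by simp [rh, ee_zero]

lemma rh'_zero (z : ℂ) : rh' 0 z = z := by simp [rh', ee_zero]

lemma Om'_zero (z : ℂ) : Om' 0 z = z := by
  have := Om'_Om (le_refl 0) z
  rwa [Om_zero] at this

end Pool.Agent.CPZ
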