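import Pool.Agent.CPZ.N1

set_option autoImplicit false

open Set Filter Topology

namespace Pool.Agent.CPZ

/-- numerical states: slots and the extra slot -/
abbrev St : Type := (ℕ → ℝ) × ℝ

/-- planar map applied to slot m and the extra slot -/
noncomputable def act (φ : ℂ → ℂ) (m : ℕ) (s : St) : St :=
  (Function.update s.1 m (φ ⟨s.1 m, s.2⟩).re, (φ ⟨s.1 m, s.2⟩).im)

lemma act_act (φ ψ : ℂ → ℂ) (m : ℕ) (s : St) : act φ m (act ψ m s) = act (fun z => φ (ψ z)) m s := by
  unfold act
  simp

lemma act_id (φ : ℂ → ℂ) (m : ℕ) (s : St) (h : φ ⟨s.1 m, s.2⟩ = ⟨s.1 m, s.2⟩) : act φ m s = s := by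
  unfold act
  rw [h]
  simp

lemma act_cancel {φ ψ : ℂ → ℂ} (h : ∀ z, φ (ψ z) = z) (m : ℕ) (s : St) :
    act φ m (act ψ m s) = s := by
  rw [act_act]; exact act_id _ _ _ (h _)

lemma act_fst_ne {φ : ℂ → ℂ} {m l : ℕ} (s : St) (h : l ≠ m) : (act φ m s).1 l = s.1 l := by
  simp [act, h]

lemma act_fst_eq {φ : ℂ → ℂ} {m : ℕ} (s : St) : (act φ m s).1 m = (φ ⟨s.1 m, s.2⟩).re := by
  simp [act]

lemma act_snd {φ : ℂ → ℂ} {m : ℕ} (s : St) : (act φ m s).2 = (φ ⟨s.1 m, s.2⟩).im := rfl

lemma continuous_mkC {Z : Type*} [TopologicalSpace Z] {f g : Z → ℝ} (hf : Continuous f)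
    (hg : Continuous g) : Continuous fun z => (⟨f z, g z⟩ : ℂ) := by
  have : (fun z => (⟨f z, g z⟩ : ℂ)) = fun z => (f z : ℂ) + (g z : ℂ) * Complex.I := by
    funext z
    apply Complex.ext <;> simp
  rw [this]
  fun_prop

lemma continuous_act {Z : Type*} [TopologicalSpace Z] {φ : Z → ℂ → ℂ} {s : Z → St} (m : ℕ)
    (hs : Continuous s) (hφ : Continuous fun z => φ z ⟨(s z).1 m, (s z).2⟩) :
    Continuous fun z => act (φ z) m (s z) := by
  unfold act
  refine Continuous.prodMk ?_ (Complex.continuous_im.comp hφ)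
  exact (continuous_fst.comp hs).update m (Complex.continuous_re.comp hφ)

/-- the chain -/
noncomputable def Q : ℕ → ℝ → St → St
  | 0, _, s => s
  | m + 1, t, s => act (Om (th m t)) m (act (rh' (th m t)) m (Q m t (act (rh (th m t)) m s)))

noncomputable def Qi : ℕ → ℝ → St → St
  | 0, _, s => s
  | m + 1, t, s => act (rh' (th m t)) m (Qi m t (act (rh (th m t)) m (act (Om' (th m t)) m s)))

lemma Q_succ (m : ℕ) (t : ℝ) (s : St) :
    Q (m + 1) t s = act (Om (th m t)) m (act (rh' (th m t)) m (Q m t (act (rh (th m t)) m s))) := rfl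

lemma Qi_succ (m : ℕ) (t : ℝ) (s : St) :
    Qi (m + 1) t s = act (rh' (th m t)) m (Qi m t (act (rh (th m t)) m (act (Om' (th m t)) m s))) :=
  rfl

lemma Qi_Q (m : ℕ) (t : ℝ) (s : St) : Qi m t (Q m t s) = s := by
  induction m generalizing s with
  | zero => rfl
  | succ m ih =>
    rw [Q_succ, Qi_succ, act_cancel (Om'_Om (th_nonneg _ _)), act_cancel (rh_rh' _), ih,
      act_cancel (rh'_rh _)]

lemma Q_Qi (m : ℕ) (t : ℝ) (s : St) : Q m t (Qi m t s) = s := by
  induction m generalizing s with
  | zero => rfl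
  | succ m ih =>
    rw [Q_succ, Qi_succ, act_cancel (rh_rh' _), ih, act_cancel (rh'_rh _),
      act_cancel (Om_Om' (th_nonneg _ _))]

lemma Q_loc {m l : ℕ} (t : ℝ) (s : St) (h : m ≤ l) : (Q m t s).1 l = s.1 l := by
  induction m generalizing s with
  | zero => rfl
  | succ m ih =>
    have hl : l ≠ m := by omega
    rw [Q_succ, act_fst_ne _ hl, act_fst_ne _ hl, ih _ (by omega), act_fst_ne _ hl]

lemma Qi_loc {m l : ℕ} (t : ℝ) (s : St) (h : m ≤ l) : (Qi m t s).1 l = s.1 l := by
  induction m generalizing s with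
  | zero => rfl
  | succ m ih =>
    have hl : l ≠ m := by omega
    rw [Qi_succ, act_fst_ne _ hl, ih _ (by omega), act_fst_ne _ hl, act_fst_ne _ hl]

lemma continuous_Q (m : ℕ) : Continuous fun p : ℝ × St => Q m p.1 p.2 := by
  induction m with
  | zero => exact continuous_snd
  | succ m ih =>
    have ht : Continuous fun p : ℝ × St => th m p.1 := (continuous_th m).comp continuous_fst
    have h1 : Continuous fun p : ℝ × St => act (rh (th m p.1)) m p.2 :=
      continuous_act m continuous_snd (continuous_rh.comp (ht.prodMk (continuous_mkC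
        (by fun_prop) (by fun_prop))))
    have h2 : Continuous fun p : ℝ × St => Q m p.1 (act (rh (th m p.1)) m p.2) :=
      ih.comp (continuous_fst.prodMk h1)
    have h3 : Continuous fun p : ℝ × St =>
        act (rh' (th m p.1)) m (Q m p.1 (act (rh (th m p.1)) m p.2)) :=
      continuous_act m h2 (continuous_rh'.comp (ht.prodMk (continuous_mkC
        ((continuous_apply m).comp (continuous_fst.comp h2)) (continuous_snd.comp h2))))
    exact continuous_act m h3 (continuous_Om.comp (ht.prodMk (continuous_mkC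
        ((continuous_apply m).comp (continuous_fst.comp h3)) (continuous_snd.comp h3))))

lemma continuous_Qi (m : ℕ) : Continuous fun p : ℝ × St => Qi m p.1 p.2 := by
  induction m with
  | zero => exact continuous_snd
  | succ m ih =>
    have ht : Continuous fun p : ℝ × St => th m p.1 := (continuous_th m).comp continuous_fst
    have h1 : Continuous fun p : ℝ × St => act (Om' (th m p.1)) m p.2 :=
      continuous_act m continuous_snd (continuous_Om'_comp ht (continuous_mkC
        (by fun_prop) (by fun_prop)) fun p => th_nonneg _ _)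
    have h2 : Continuous fun p : ℝ × St => act (rh (th m p.1)) m (act (Om' (th m p.1)) m p.2) :=
      continuous_act m h1 (continuous_rh.comp (ht.prodMk (continuous_mkC
        ((continuous_apply m).comp (continuous_fst.comp h1)) (continuous_snd.comp h1))))
    have h3 : Continuous fun p : ℝ × St =>
        Qi m p.1 (act (rh (th m p.1)) m (act (Om' (th m p.1)) m p.2)) :=
      ih.comp (continuous_fst.prodMk h2)
    exact continuous_act m h3 (continuous_rh'.comp (ht.prodMk (continuous_mkC
        ((continuous_apply m).comp (continuous_fst.comp h3)) (continuous_snd.comp h3))))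

lemma Q_stab {m : ℕ} {t : ℝ} (h : t ≤ m) (s : St) : Q (m + 1) t s = Q m t s := by
  rw [Q_succ, th_eq_zero h, act_id (rh 0) _ _ (rh_zero _), act_id (rh' 0) _ _ (rh'_zero _),
    act_id (Om 0) _ _ (Om_zero _)]

lemma Qi_stab {m : ℕ} {t : ℝ} (h : t ≤ m) (s : St) : Qi (m + 1) t s = Qi m t s := by
  rw [Qi_succ, th_eq_zero h, act_id (Om' 0) _ _ (Om'_zero _), act_id (rh 0) _ _ (rh_zero _),
    act_id (rh' 0) _ _ (rh'_zero _)]

lemma Q_stab' {m n : ℕ} {t : ℝ} (h : t ≤ m) (hn : m ≤ n) (s : St) : Q n t s = Q m t s := by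
  induction n, hn using Nat.le_induction with
  | base => rfl
  | succ n hn ih =>
    rw [Q_stab (h.trans (by exact_mod_cast hn)), ih]

lemma Qi_stab' {m n : ℕ} {t : ℝ} (h : t ≤ m) (hn : m ≤ n) (s : St) : Qi n t s = Qi m t s := by
  induction n, hn using Nat.le_induction with
  | base => rfl
  | succ n hn ih =>
    rw [Qi_stab (h.trans (by exact_mod_cast hn)), ih]

/-- product of the stretching factors -/
noncomputable def gg : ℕ → ℝ → ℝ
  | 0, _ => 1
  | m + 1, t => (1 + 3 * th m t) * gg m t

lemma one_le_gg (m : ℕ) (t : ℝ) : 1 ≤ gg m t := by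
  induction m with
  | zero => exact le_refl _
  | succ m ih =>
    have := th_nonneg m t
    show 1 ≤ (1 + 3 * th m t) * gg m t
    nlinarith

lemma gg_pos (m : ℕ) (t : ℝ) : 0 < gg m t := lt_of_lt_of_le one_pos (one_le_gg m t)

lemma gg_eq {m : ℕ} {t : ℝ} (h : m ≤ t) : gg m t = 4 ^ m := by
  induction m with
  | zero => simp [gg]
  | succ m ih =>
    push_cast at h
    show (1 + 3 * th m t) * gg m t = _
    rw [th_eq_one h, ih (by linarith)]
    ring

lemma gg_mono {m n : ℕ} (h : m ≤ n) (t : ℝ) : gg m t ≤ gg n t := by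
  induction n, h using Nat.le_induction with
  | base => rfl
  | succ n hn ih =>
    have h1 := th_nonneg n t
    have h2 := gg_pos n t
    show gg m t ≤ (1 + 3 * th n t) * gg n t
    nlinarith

lemma continuous_gg (m : ℕ) : Continuous (gg m) := by
  induction m with
  | zero => exact continuous_const
  | succ m ih => exact (continuous_const.add (continuous_const.mul (continuous_th m))).mul ih

lemma gg_stab {m : ℕ} {t : ℝ} (h : t ≤ m) : gg (m + 1) t = gg m t := by
  show (1 + 3 * th m t) * gg m t = _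
  rw [th_eq_zero h]; ring

lemma gg_stab' {m n : ℕ} {t : ℝ} (h : t ≤ m) (hn : m ≤ n) : gg n t = gg m t := by
  induction n, hn using Nat.le_induction with
  | base => rfl
  | succ n hn ih =>
    rw [gg_stab (h.trans (by exact_mod_cast hn)), ih]

/-- property H -/
lemma Q_core {m : ℕ} {t : ℝ} (ht : m ≤ t) (s : St) (h1 : ∀ l < m, |s.1 l| ≤ 1 / 2)
    (h2 : |s.2| ≤ 4 / 5) : Q m t s = s := by
  induction m generalizing s with
  | zero => rfl
  | succ m ih =>
    push_cast at ht
    have h3 : |s.1 m| ≤ 1 / 2 := h1 m (by omega)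
    have e1 : act (rh 1) m s = (Function.update s.1 m s.2, -s.1 m) := by
      unfold act
      rw [rh_one]
    have e2 : Q m t (act (rh 1) m s) = act (rh 1) m s := by
      rw [e1]
      apply ih (by linarith)
      · intro l hl
        show |Function.update s.1 _ s.2 l| ≤ 1 / 2
        rw [Function.update_of_ne (by omega)]
        exact h1 l (by omega)
      · simp only [abs_neg]
        linarith
    rw [Q_succ, th_eq_one ht, e2, act_cancel (rh'_rh _), act_id]
    apply Om_small
    rw [Complex.norm_def, Complex.normSq_mk]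
    apply Real.sqrt_le_one.mpr
    nlinarith [abs_le.1 h3, abs_le.1 h2, sq_abs (s.1 m), sq_abs s.2, abs_nonneg (s.1 m),
      abs_nonneg s.2]

/-- property P -/
lemma Q_fwd {L : ℕ} {m : ℕ} (hm : L + 1 ≤ m) {t : ℝ} (ht : (L + 1 : ℕ) ≤ t) (s : St)
    (h1 : ∀ l ≤ L, |s.1 l| ≤ 1 / 2) :
    (∀ l < L, (Q m t s).1 l = s.1 l) ∧ |(Q m t s).2| ≤ 3 * gg m t / 4 ^ L := by
  induction m, hm using Nat.le_induction generalizing s with
  | base =>
    have hL : (L : ℝ) ≤ t := by push_cast at ht; linarith
    have hL1 : (L : ℝ) + 1 ≤ t := by push_cast at ht; linarith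
    have e1 : act (rh 1) L s = (Function.update s.1 L s.2, -s.1 L) := by
      unfold act
      rw [rh_one]
    have e2 : Q L t (act (rh 1) L s) = act (rh 1) L s := by
      rw [e1]
      apply Q_core hL
      · intro l hl
        show |Function.update s.1 _ s.2 l| ≤ 1 / 2
        rw [Function.update_of_ne (by omega)]
        exact h1 l (by omega)
      · simp only [abs_neg]
        have := h1 L le_rfl
        linarith
    have e3 : Q (L + 1) t s = act (Om 1) L s := by
      rw [Q_succ, th_eq_one hL1, e2, act_cancel (rh'_rh _)]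
    rw [e3, gg_eq ht]
    constructor
    · intro l hl
      rw [act_fst_ne _ (by omega)]
    · rw [act_snd]
      refine (im_base (h1 L le_rfl)).trans (le_of_eq ?_)
      have : (4 : ℝ) ^ L ≠ 0 := by positivity
      field_simp
      ring
  | succ m hm ih =>
    have e1 := ih (act (rh (th m t)) m s) (by
      intro l hl
      rw [act_fst_ne _ (by omega)]
      exact h1 l hl)
    set r := Q m t (act (rh (th m t)) m s) with hr
    have e2 : Q (m + 1) t s = act (fun z => Om (th m t) (rh' (th m t) z)) m r := by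
      rw [Q_succ, act_act]
    rw [e2]
    constructor
    · intro l hl
      rw [act_fst_ne _ (by omega), e1.1 l hl, act_fst_ne _ (by omega)]
    · rw [act_snd]
      have h4 : (4 : ℝ) ^ L ≤ gg m t := by
        rw [← gg_eq (m := L) (t := t) (by push_cast at ht; linarith)]
        exact gg_mono (by omega) t
      have h5 : (0 : ℝ) < 4 ^ L := by positivity
      have h3 : 3 ≤ 3 * gg m t / 4 ^ L := by
        rw [le_div_iff₀ h5]; linarith
      refine (im_step (th_nonneg m t) h3 e1.2).trans (le_of_eq ?_)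
      show (1 + 3 * th m t) * (3 * gg m t / 4 ^ L) = 3 * ((1 + 3 * th m t) * gg m t) / 4 ^ L
      ring

/-- property N -/
lemma Q_bwd {L : ℕ} {m : ℕ} (hm : L + 1 ≤ m) {t : ℝ} (ht : (L + 1 : ℕ) ≤ t) (s : St)
    (h1 : ∀ l ≤ L, |s.1 l| ≤ 1 / 2) (h2 : |s.2| - 1 ≤ 2 * gg m t / 4 ^ (L + 1)) :
    ∀ l < L, (Qi m t s).1 l = s.1 l := by
  induction m, hm using Nat.le_induction generalizing s with
  | base =>
    have hL : (L : ℝ) ≤ t := by push_cast at ht; linarith
    have hL1 : (L : ℝ) + 1 ≤ t := by push_cast at ht; linarith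
    rw [gg_eq ht] at h2
    have h3 : |s.2| ≤ 3 := by
      have : (4 : ℝ) ^ (L + 1) ≠ 0 := by positivity
      rw [mul_div_assoc, div_self this] at h2
      linarith
    have h4 := re_base (w := ⟨s.1 L, s.2⟩) (h1 L le_rfl) h3
    set r := act (rh 1) L (act (Om' 1) L s) with hr
    have hr2 : r.2 = -(Om' 1 ⟨s.1 L, s.2⟩).re := by
      rw [hr, act_act, act_snd, rh_one]
    have hrl : ∀ l < L, r.1 l = s.1 l := by
      intro l hl
      rw [hr, act_fst_ne _ (by omega), act_fst_ne _ (by omega)]
    have e2 : Q L t r = r := by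
      apply Q_core hL
      · intro l hl
        rw [hrl l hl]
        exact h1 l (by omega)
      · rw [hr2, abs_neg]
        linarith
    have e3 : Qi L t r = r := by
      conv_lhs => rw [← e2]
      exact Qi_Q _ _ _
    intro l hl
    rw [Qi_succ, th_eq_one hL1, ← hr, e3, act_fst_ne _ (by omega), hrl l hl]
  | succ m hm ih =>
    set r := act (rh (th m t)) m (act (Om' (th m t)) m s) with hr
    have hr2 : r.2 = (rh (th m t) (Om' (th m t) ⟨s.1 m, s.2⟩)).im := by
      rw [hr, act_act, act_snd]
    have hrl : ∀ l ≠ m, r.1 l = s.1 l := by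
      intro l hl
      rw [hr, act_fst_ne _ hl, act_fst_ne _ hl]
    intro l hl
    rw [Qi_succ, ← hr, act_fst_ne _ (by omega), ih r ?_ ?_ l hl, hrl l (by omega)]
    · intro l hl
      rw [hrl l (by omega)]
      exact h1 l hl
    · rw [hr2]
      have h4 : (4 : ℝ) ^ (L + 1) ≤ gg m t := by
        rw [← gg_eq (m := L + 1) (t := t) ht]
        exact gg_mono (by omega) t
      have h5 : (0 : ℝ) < 4 ^ (L + 1) := by positivity
      refine (im_back (th_nonneg m t) _).trans (max_le ?_ ?_)
      · rw [le_div_iff₀ h5]; linarith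
      · have hk : 0 < 1 + 3 * th m t := by
          have := th_nonneg m t
          linarith
        rw [div_le_iff₀ hk]
        refine h2.trans (le_of_eq ?_)
        show 2 * ((1 + 3 * th m t) * gg m t) / 4 ^ (L + 1) =
          2 * gg m t / 4 ^ (L + 1) * (1 + 3 * th m t)
        ring

end Pool.Agent.CPZ
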