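import Pool.Agent.CPZ.N2

set_option autoImplicit false

open Set Filter Topology

namespace Pool.Agent.CPZ

/-- scaled chain -/
noncomputable def q (m : ℕ) (t : ℝ) (s : St) : St :=
  (fun l => t * (Q m t (fun j => s.1 j / t, s.2 / t)).1 l,
    (Q m t (fun j => s.1 j / t, s.2 / t)).2 / gg m t)

noncomputable def qi (m : ℕ) (t : ℝ) (s : St) : St :=
  (fun l => t * (Qi m t (fun j => s.1 j / t, gg m t * s.2)).1 l,
    t * (Qi m t (fun j => s.1 j / t, gg m t * s.2)).2)

lemma qi_q (m : ℕ) {t : ℝ} (ht : 0 < t) (s : St) : qi m t (q m t s) = s := by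
  have h1 : ((fun j => (q m t s).1 j / t, gg m t * (q m t s).2) : St) =
      Q m t (fun j => s.1 j / t, s.2 / t) := by
    have hg := (gg_pos m t).ne'
    apply Prod.ext
    · funext j
      show t * _ / t = _
      field_simp
    · show gg m t * (_ / gg m t) = _
      field_simp
  unfold qi
  rw [h1, Qi_Q]
  apply Prod.ext
  · funext j
    show t * (s.1 j / t) = _
    field_simp
  · show t * (s.2 / t) = _
    field_simp

lemma q_qi (m : ℕ) {t : ℝ} (ht : 0 < t) (s : St) : q m t (qi m t s) = s := by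
  have h1 : ((fun j => (qi m t s).1 j / t, (qi m t s).2 / t) : St) =
      Qi m t (fun j => s.1 j / t, gg m t * s.2) := by
    apply Prod.ext
    · funext j
      show t * _ / t = _
      field_simp
    · show t * _ / t = _
      field_simp
  have hg := (gg_pos m t).ne'
  unfold q
  rw [h1, Q_Qi]
  apply Prod.ext
  · funext j
    show t * (s.1 j / t) = _
    field_simp
  · show gg m t * s.2 / gg m t = _
    field_simp

lemma q_loc {m l : ℕ} {t : ℝ} (ht : 0 < t) (s : St) (h : m ≤ l) : (q m t s).1 l = s.1 l := by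
  show t * (Q m t _).1 l = _
  rw [Q_loc t _ h]
  show t * (s.1 l / t) = _
  field_simp

lemma qi_loc {m l : ℕ} {t : ℝ} (ht : 0 < t) (s : St) (h : m ≤ l) : (qi m t s).1 l = s.1 l := by
  show t * (Qi m t _).1 l = _
  rw [Qi_loc t _ h]
  show t * (s.1 l / t) = _
  field_simp

lemma q_stab {m n : ℕ} {t : ℝ} (h : t ≤ m) (hn : m ≤ n) (s : St) : q n t s = q m t s := by
  unfold q
  rw [Q_stab' h hn, gg_stab' h hn]

lemma qi_stab {m n : ℕ} {t : ℝ} (h : t ≤ m) (hn : m ≤ n) (s : St) : qi n t s = qi m t s := by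
  unfold qi
  rw [Qi_stab' h hn, gg_stab' h hn]

lemma continuous_q {Z : Type*} [TopologicalSpace Z] (m : ℕ) {t : Z → ℝ} {s : Z → St}
    (ht : Continuous t) (hs : Continuous s) (h0 : ∀ z, 0 < t z) :
    Continuous fun z => q m (t z) (s z) := by
  have h1 : Continuous fun z => ((fun j => (s z).1 j / t z, (s z).2 / t z) : St) := by
    refine Continuous.prodMk (continuous_pi fun j => ?_) ?_
    · exact ((continuous_apply j).comp (continuous_fst.comp hs)).div ht fun z => (h0 z).ne'
    · exact (continuous_snd.comp hs).div ht fun z => (h0 z).ne'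
  have h2 := (continuous_Q m).comp (ht.prodMk h1)
  refine Continuous.prodMk (continuous_pi fun j => ?_) ?_
  · exact ht.mul ((continuous_apply j).comp (continuous_fst.comp h2))
  · exact (continuous_snd.comp h2).div ((continuous_gg m).comp ht) fun z => (gg_pos _ _).ne'

lemma continuous_qi {Z : Type*} [TopologicalSpace Z] (m : ℕ) {t : Z → ℝ} {s : Z → St}
    (ht : Continuous t) (hs : Continuous s) (h0 : ∀ z, 0 < t z) :
    Continuous fun z => qi m (t z) (s z) := by
  have h1 : Continuous fun z => ((fun j => (s z).1 j / t z, gg m (t z) * (s z).2) : St) := by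
    refine Continuous.prodMk (continuous_pi fun j => ?_) ?_
    · exact ((continuous_apply j).comp (continuous_fst.comp hs)).div ht fun z => (h0 z).ne'
    · exact ((continuous_gg m).comp ht).mul (continuous_snd.comp hs)
  have h2 := (continuous_Qi m).comp (ht.prodMk h1)
  refine Continuous.prodMk (continuous_pi fun j => ?_) ?_
  · exact ht.mul ((continuous_apply j).comp (continuous_fst.comp h2))
  · exact ht.mul (continuous_snd.comp h2)

lemma q_fwd {L : ℕ} {m : ℕ} (hm : L + 1 ≤ m) {t : ℝ} (ht : (L + 1 : ℕ) ≤ t) (s : St)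
    (h1 : ∀ l ≤ L, |s.1 l| ≤ t / 2) :
    (∀ l < L, (q m t s).1 l = s.1 l) ∧ |(q m t s).2| ≤ 3 / 4 ^ L := by
  have ht0 : 0 < t := lt_of_lt_of_le (by positivity) ht
  obtain ⟨h2, h3⟩ := Q_fwd hm ht (fun j => s.1 j / t, s.2 / t) (by
    intro l hl
    show |s.1 l / t| ≤ 1 / 2
    rw [abs_div, abs_of_pos ht0, div_le_iff₀ ht0]
    have := h1 l hl
    linarith)
  constructor
  · intro l hl
    show t * (Q m t _).1 l = _
    rw [h2 l hl]
    show t * (s.1 l / t) = _
    field_simp
  · show |(Q m t _).2 / gg m t| ≤ _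
    have hg := gg_pos m t
    rw [abs_div, abs_of_pos hg, div_le_iff₀ hg]
    refine h3.trans (le_of_eq ?_)
    ring

lemma q_bwd {L : ℕ} {m : ℕ} (hm : L + 1 ≤ m) {t : ℝ} (ht : (L + 1 : ℕ) ≤ t) (s : St)
    (h1 : ∀ l ≤ L, |s.1 l| ≤ t / 2) (h2 : |s.2| ≤ 2 / 4 ^ (L + 1)) :
    ∀ l < L, (qi m t s).1 l = s.1 l := by
  have ht0 : 0 < t := lt_of_lt_of_le (by positivity) ht
  have hg := gg_pos m t
  have h3 := Q_bwd hm ht (fun j => s.1 j / t, gg m t * s.2) (by
    intro l hl
    show |s.1 l / t| ≤ 1 / 2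
    rw [abs_div, abs_of_pos ht0, div_le_iff₀ ht0]
    have := h1 l hl
    linarith) (by
    show |gg m t * s.2| - 1 ≤ _
    rw [abs_mul, abs_of_pos hg]
    have h4 : gg m t * |s.2| ≤ gg m t * (2 / 4 ^ (L + 1)) := mul_le_mul_of_nonneg_left h2 hg.le
    have h5 : gg m t * (2 / 4 ^ (L + 1)) = 2 * gg m t / 4 ^ (L + 1) := by ring
    linarith)
  intro l hl
  show t * (Qi m t _).1 l = _
  rw [h3 l hl]
  show t * (s.1 l / t) = _
  field_simp

end Pool.Agent.CPZ
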