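import Pool.Agent.CPZ.M
import Pool.Agent.CPZ.N3

set_option autoImplicit false

open Set Filter Topology

namespace Pool.Agent.CPZ

/-! the homeomorphism of the square -/

noncomputable def e2 : Bool × ℕ ≃ ℕ := Equiv.boolProdNatEquivNat

lemma bdd_of_finite {I : Type*} [Finite I] (x : I → X) : Bdd x :=
  Bdd.of_finite (x := fun _ => (0 : X)) ⟨0, fun _ _ => by simp [zero_val]⟩ (Set.toFinite _)

noncomputable def AA : X × X ≃ₜ X where
  toFun p := glue e2 (fun b => cond b p.1 p.2)
  invFun f := (col e2 true f, col e2 false f)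
  left_inv p := by
    simp only [col_glue e2 (bdd_of_finite _), cond]
  right_inv f := by
    apply col_ext e2
    intro b
    rw [col_glue e2 (bdd_of_finite _)]
    cases b <;> rfl
  continuous_toFun := by
    refine continuous_of_col e2 (G := fun _ => 0) continuous_const ?_ (fun z => Set.toFinite _)
    intro b
    simp only [col_glue e2 (bdd_of_finite _)]
    cases b
    · exact continuous_snd
    · exact continuous_fst
  continuous_invFun := (continuous_col e2 true).prodMk (continuous_col e2 false)

/-! pointwise linear combinations -/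

noncomputable def comb (a b : ℝ) (f g : X) : X :=
  ⟨fun q => a * f.1 q + b * g.1 q, (continuous_const.mul f.2).add (continuous_const.mul g.2)⟩

lemma comb_val (a b : ℝ) (f g : X) (q : StoneCech ℕ) :
    (comb a b f g).1 q = a * f.1 q + b * g.1 q := rfl

/-- rotation of the columns m and m+1 -/
noncomputable def rot (a b : ℝ) (m : ℕ) (x : ℕ → X) : ℕ → X :=
  Function.update (Function.update x m (comb a b (x m) (x (m + 1)))) (m + 1)
    (comb (-b) a (x m) (x (m + 1)))

lemma rot_m (a b : ℝ) (m : ℕ) (x : ℕ → X) : rot a b m x m = comb a b (x m) (x (m + 1)) := by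
  unfold rot
  rw [Function.update_of_ne (by omega), Function.update_self]

lemma rot_succ (a b : ℝ) (m : ℕ) (x : ℕ → X) :
    rot a b m x (m + 1) = comb (-b) a (x m) (x (m + 1)) := by
  unfold rot
  rw [Function.update_self]

lemma rot_ne (a b : ℝ) {m l : ℕ} (x : ℕ → X) (h1 : l ≠ m) (h2 : l ≠ m + 1) :
    rot a b m x l = x l := by
  unfold rot
  rw [Function.update_of_ne h2, Function.update_of_ne h1]

lemma rot_rot {a b : ℝ} (h : a ^ 2 + b ^ 2 = 1) (m : ℕ) (x : ℕ → X) :
    rot a (-b) m (rot a b m x) = x := by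
  funext l
  by_cases h1 : l = m
  · subst h1
    rw [rot_m, rot_m, rot_succ]
    apply Subtype.ext
    funext q
    simp only [comb_val]
    linear_combination (x l).1 q * h
  · by_cases h2 : l = m + 1
    · subst h2
      rw [rot_succ, rot_m, rot_succ]
      apply Subtype.ext
      funext q
      simp only [comb_val]
      linear_combination (x (m + 1)).1 q * h
    · rw [rot_ne _ _ _ h1 h2, rot_ne _ _ _ h1 h2]

lemma rot_rot' {a b : ℝ} (h : a ^ 2 + b ^ 2 = 1) (m : ℕ) (x : ℕ → X) :
    rot a b m (rot a (-b) m x) = x := by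
  have := rot_rot (a := a) (b := -b) (by rw [neg_sq]; exact h) m x
  rwa [neg_neg] at this

lemma continuous_comb {Z : Type*} [TopologicalSpace Z] {a b : Z → ℝ} {f g : Z → X}
    (ha : Continuous a) (hb : Continuous b) (hf : Continuous f) (hg : Continuous g) :
    Continuous fun z => comb (a z) (b z) (f z) (g z) := by
  apply continuous_X
  intro q
  exact (ha.mul ((continuous_ev q).comp hf)).add (hb.mul ((continuous_ev q).comp hg))

lemma continuous_rot {Z : Type*} [TopologicalSpace Z] {a b : Z → ℝ} {x : Z → ℕ → X} (m : ℕ)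
    (ha : Continuous a) (hb : Continuous b) (hx : Continuous x) :
    Continuous fun z => rot (a z) (b z) m (x z) := by
  have h1 : Continuous fun z => x z m := (continuous_apply m).comp hx
  have h2 : Continuous fun z => x z (m + 1) := (continuous_apply (m + 1)).comp hx
  unfold rot
  exact (hx.update m (continuous_comb ha hb h1 h2)).update (m + 1)
    (continuous_comb hb.neg ha h1 h2)

/-- cosine and sine of the stage -/
noncomputable def cs (m : ℕ) (t : ℝ) : ℝ := Real.cos (th m t * (Real.pi / 2))
noncomputable def sn (m : ℕ) (t : ℝ) : ℝ := Real.sin (th m t * (Real.pi / 2))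

lemma cs_sn (m : ℕ) (t : ℝ) : cs m t ^ 2 + sn m t ^ 2 = 1 := by
  unfold cs sn
  exact Real.cos_sq_add_sin_sq _

lemma continuous_cs (m : ℕ) : Continuous (cs m) :=
  Real.continuous_cos.comp ((continuous_th m).mul continuous_const)

lemma continuous_sn (m : ℕ) : Continuous (sn m) :=
  Real.continuous_sin.comp ((continuous_th m).mul continuous_const)

lemma cs_zero {m : ℕ} {t : ℝ} (h : t ≤ m) : cs m t = 1 := by simp [cs, th_eq_zero h]
lemma sn_zero {m : ℕ} {t : ℝ} (h : t ≤ m) : sn m t = 0 := by simp [sn, th_eq_zero h]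
lemma cs_one {m : ℕ} {t : ℝ} (h : m + 1 ≤ t) : cs m t = 0 := by simp [cs, th_eq_one h]
lemma sn_one {m : ℕ} {t : ℝ} (h : m + 1 ≤ t) : sn m t = 1 := by simp [sn, th_eq_one h]

lemma rot_one_zero (m : ℕ) (x : ℕ → X) : rot 1 0 m x = x := by
  funext l
  by_cases h1 : l = m
  · subst h1
    rw [rot_m]
    apply Subtype.ext
    funext q
    simp [comb_val]
  · by_cases h2 : l = m + 1
    · subst h2
      rw [rot_succ]
      apply Subtype.ext
      funext q
      simp [comb_val]
    · rw [rot_ne _ _ _ h1 h2]

/-- insertion -/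
noncomputable def U : ℕ → ℝ → (ℕ → X) × X → (ℕ → X)
  | 0, _, p => Function.update p.1 0 (AA (p.1 0, p.2))
  | m + 1, t, p => rot (cs m t) (-sn m t) m (U m t (rot (cs m t) (sn m t) m p.1, p.2))

noncomputable def Ui : ℕ → ℝ → (ℕ → X) → (ℕ → X) × X
  | 0, _, x => (Function.update x 0 (AA.symm (x 0)).1, (AA.symm (x 0)).2)
  | m + 1, t, x => (rot (cs m t) (-sn m t) m (Ui m t (rot (cs m t) (sn m t) m x)).1,
      (Ui m t (rot (cs m t) (sn m t) m x)).2)

lemma U_succ (m : ℕ) (t : ℝ) (p : (ℕ → X) × X) : U (m + 1) t p =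
    rot (cs m t) (-sn m t) m (U m t (rot (cs m t) (sn m t) m p.1, p.2)) := rfl

lemma Ui_succ (m : ℕ) (t : ℝ) (x : ℕ → X) : Ui (m + 1) t x =
    (rot (cs m t) (-sn m t) m (Ui m t (rot (cs m t) (sn m t) m x)).1,
      (Ui m t (rot (cs m t) (sn m t) m x)).2) := rfl

lemma Ui_U (m : ℕ) (t : ℝ) (p : (ℕ → X) × X) : Ui m t (U m t p) = p := by
  induction m generalizing p with
  | zero =>
    unfold Ui U
    simp
  | succ m ih =>
    rw [U_succ, Ui_succ, rot_rot' (cs_sn m t), ih]
    simp only [rot_rot (cs_sn m t)]

lemma U_Ui (m : ℕ) (t : ℝ) (x : ℕ → X) : U m t (Ui m t x) = x := by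
  induction m generalizing x with
  | zero =>
    unfold Ui U
    simp
  | succ m ih =>
    rw [U_succ, Ui_succ]
    simp only [rot_rot' (cs_sn m t)]
    rw [ih, rot_rot (cs_sn m t)]

lemma U_loc {m l : ℕ} (t : ℝ) (p : (ℕ → X) × X) (h : m < l) : U m t p l = p.1 l := by
  induction m generalizing p with
  | zero =>
    unfold U
    rw [Function.update_of_ne (by omega)]
  | succ m ih =>
    rw [U_succ, rot_ne _ _ _ (by omega) (by omega), ih _ (by omega)]
    exact rot_ne _ _ _ (by omega) (by omega)

lemma Ui_loc {m l : ℕ} (t : ℝ) (x : ℕ → X) (h : m < l) : (Ui m t x).1 l = x l := by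
  induction m generalizing x with
  | zero =>
    unfold Ui
    show Function.update _ _ _ _ = _
    rw [Function.update_of_ne (by omega)]
  | succ m ih =>
    rw [Ui_succ]
    show rot _ _ _ _ _ = _
    rw [rot_ne _ _ _ (by omega) (by omega), ih _ (by omega)]
    exact rot_ne _ _ _ (by omega) (by omega)

lemma U_near {m l : ℕ} {t : ℝ} (p : (ℕ → X) × X) (h : l < m) (ht : (l : ℝ) + 1 ≤ t) :
    U m t p l = p.1 l := by
  induction m generalizing p with
  | zero => omega
  | succ m ih =>
    rw [U_succ]
    by_cases hl : l = m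
    · subst hl
      rw [cs_one ht, sn_one ht, rot_m, U_loc (m := l) (l := l + 1) _ _ (by omega)]
      simp only []
      rw [rot_succ]
      apply Subtype.ext
      funext q
      simp [comb_val]
    · rw [rot_ne _ _ _ (by omega) (by omega), ih _ (by omega)]
      exact rot_ne _ _ _ (by omega) (by omega)

lemma Ui_near {m l : ℕ} {t : ℝ} (x : ℕ → X) (h : l < m) (ht : (l : ℝ) + 1 ≤ t) :
    (Ui m t x).1 l = x l := by
  induction m generalizing x with
  | zero => omega
  | succ m ih =>
    rw [Ui_succ]
    show rot _ _ _ _ _ = _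
    by_cases hl : l = m
    · subst hl
      rw [cs_one ht, sn_one ht, rot_m, Ui_loc (m := l) (l := l + 1) _ _ (by omega), rot_succ]
      apply Subtype.ext
      funext q
      simp [comb_val]
    · rw [rot_ne _ _ _ (by omega) (by omega), ih _ (by omega)]
      exact rot_ne _ _ _ (by omega) (by omega)

lemma U_stab {m : ℕ} {t : ℝ} (h : t ≤ m) (p : (ℕ → X) × X) : U (m + 1) t p = U m t p := by
  rw [U_succ, cs_zero h, sn_zero h, neg_zero, rot_one_zero, rot_one_zero]

lemma Ui_stab {m : ℕ} {t : ℝ} (h : t ≤ m) (x : ℕ → X) : Ui (m + 1) t x = Ui m t x := by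
  rw [Ui_succ, cs_zero h, sn_zero h, neg_zero, rot_one_zero, rot_one_zero]

lemma U_stab' {m n : ℕ} {t : ℝ} (h : t ≤ m) (hn : m ≤ n) (p : (ℕ → X) × X) :
    U n t p = U m t p := by
  induction n, hn using Nat.le_induction with
  | base => rfl
  | succ n hn ih =>
    rw [U_stab (h.trans (by exact_mod_cast hn)), ih]

lemma Ui_stab' {m n : ℕ} {t : ℝ} (h : t ≤ m) (hn : m ≤ n) (x : ℕ → X) :
    Ui n t x = Ui m t x := by
  induction n, hn using Nat.le_induction with
  | base => rfl
  | succ n hn ih =>
    rw [Ui_stab (h.trans (by exact_mod_cast hn)), ih]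

lemma continuous_U (m : ℕ) {Z : Type*} [TopologicalSpace Z] {t : Z → ℝ} {p : Z → (ℕ → X) × X}
    (ht : Continuous t) (hp : Continuous p) : Continuous fun z => U m (t z) (p z) := by
  induction m generalizing p with
  | zero =>
    have h1 : Continuous fun z => (p z).1 := continuous_fst.comp hp
    exact h1.update 0 (AA.continuous.comp (((continuous_apply 0).comp h1).prodMk
      (continuous_snd.comp hp)))
  | succ m ih =>
    have h1 : Continuous fun z => (p z).1 := continuous_fst.comp hp
    have hc := (continuous_cs m).comp ht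
    have hs := (continuous_sn m).comp ht
    exact continuous_rot m hc hs.neg (ih ((continuous_rot m hc hs h1).prodMk
      (continuous_snd.comp hp)))

lemma continuous_Ui (m : ℕ) {Z : Type*} [TopologicalSpace Z] {t : Z → ℝ} {x : Z → (ℕ → X)}
    (ht : Continuous t) (hx : Continuous x) : Continuous fun z => Ui m (t z) (x z) := by
  induction m generalizing x with
  | zero =>
    have h1 : Continuous fun z => AA.symm (x z 0) :=
      AA.symm.continuous.comp ((continuous_apply 0).comp hx)
    exact (hx.update 0 (continuous_fst.comp h1)).prodMk (continuous_snd.comp h1)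
  | succ m ih =>
    have hc := (continuous_cs m).comp ht
    have hs := (continuous_sn m).comp ht
    have h1 := ih (continuous_rot m hc hs hx)
    exact (continuous_rot m hc hs.neg (continuous_fst.comp h1)).prodMk (continuous_snd.comp h1)

end Pool.Agent.CPZ
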